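import Pool.Agent.Heil.Layers

/-! The points on vertical translates of the upper and lower half circle. -/

namespace Pool.Agent.Heil

open Real

/-- The sign of an arc. -/
noncomputable def sg (b : Bool) : ℝ := if b then 1 else -1

/-- The point above (below) `cos θ` on the upper (lower) half circle, moved inwards by `s`. -/
noncomputable def pt (θ : ℝ) (b : Bool) (s : ℝ) : ℂ := ⟨cos θ, sg b * (sin θ - s)⟩

theorem sg_sq (b : Bool) : sg b * sg b = 1 := by
  cases b <;> simp [sg]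

theorem abs_sg (b : Bool) : |sg b| = 1 := by
  cases b <;> simp [sg]

theorem sg_cases (b : Bool) : sg b = 1 ∨ sg b = -1 := by
  cases b <;> simp [sg]

theorem orient_pt (α β γ : ℝ) (b : Bool) (s : ℝ) :
    orient (pt α b s) (pt β b s) (pt γ b s)
      = sg b * (4 * sin ((β - α) / 2) * sin ((γ - β) / 2) * sin ((γ - α) / 2)) := by
  have h1 : cos β - cos α = -2 * sin ((β + α) / 2) * sin ((β - α) / 2) := cos_sub_cos _ _
  have h2 : cos γ - cos α = -2 * sin ((γ + α) / 2) * sin ((γ - α) / 2) := cos_sub_cos _ _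
  have h3 : sin β - sin α = 2 * sin ((β - α) / 2) * cos ((β + α) / 2) := sin_sub_sin _ _
  have h4 : sin γ - sin α = 2 * sin ((γ - α) / 2) * cos ((γ + α) / 2) := sin_sub_sin _ _
  have h5 : sin ((γ - β) / 2) = sin ((γ + α) / 2) * cos ((β + α) / 2)
      - cos ((γ + α) / 2) * sin ((β + α) / 2) := by
    rw [← sin_sub]
    congr 1
    ring
  have h6 : orient (pt α b s) (pt β b s) (pt γ b s)
      = sg b * ((cos β - cos α) * (sin γ - sin α) - (sin β - sin α) * (cos γ - cos α)) := by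
    unfold orient pt
    ring
  rw [h6, h1, h2, h3, h4, h5]
  ring

theorem triArea_swap₁ (a b c : ℂ) : triArea b a c = triArea a b c := by
  rw [triArea_eq, triArea_eq, orient_swap, abs_neg]

theorem triArea_rot (a b c : ℂ) : triArea b c a = triArea a b c := by
  rw [triArea_eq b c a, triArea_eq a b c, orient_rot a b c]

theorem triArea_swap₂ (a b c : ℂ) : triArea a c b = triArea a b c :=
  (triArea_rot a c b).symm.trans ((triArea_swap₁ b c a).trans (triArea_rot a b c))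

theorem arc_area_sorted {φ α β γ : ℝ} (hφ : 0 < φ) (h1 : φ ≤ β - α) (h2 : φ ≤ γ - β)
    (h3 : γ - α ≤ π) (b : Bool) (s : ℝ) :
    2 * sin (φ / 2) ^ 2 * sin φ ≤ triArea (pt α b s) (pt β b s) (pt γ b s) := by
  have hpi := pi_pos
  have hs : ∀ x y : ℝ, 0 ≤ x → x ≤ y → y ≤ π / 2 → 0 ≤ sin x ∧ sin x ≤ sin y := by
    intro x y hx hxy hy
    refine ⟨sin_nonneg_of_nonneg_of_le_pi hx (by linarith), ?_⟩
    exact strictMonoOn_sin.monotoneOn ⟨by linarith, by linarith⟩ ⟨by linarith, by linarith⟩ hxy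
  have a1 := hs (φ / 2) ((β - α) / 2) (by linarith) (by linarith) (by linarith)
  have a2 := hs (φ / 2) ((γ - β) / 2) (by linarith) (by linarith) (by linarith)
  have a3 := hs φ ((γ - α) / 2) (by linarith) (by linarith) (by linarith)
  rw [triArea_eq, orient_pt, abs_mul, abs_sg, one_mul]
  have hb1 : 0 ≤ sin ((β - α) / 2) := a1.1.trans a1.2
  have hb2 : 0 ≤ sin ((γ - β) / 2) := a2.1.trans a2.2
  have hb3 : 0 ≤ sin ((γ - α) / 2) := a3.1.trans a3.2
  rw [abs_of_nonneg (by positivity)]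
  have h12 : sin (φ / 2) * sin (φ / 2) ≤ sin ((β - α) / 2) * sin ((γ - β) / 2) :=
    mul_le_mul a1.2 a2.2 a1.1 hb1
  have h123 : sin (φ / 2) * sin (φ / 2) * sin φ
      ≤ sin ((β - α) / 2) * sin ((γ - β) / 2) * sin ((γ - α) / 2) :=
    mul_le_mul h12 a3.2 a3.1 (mul_nonneg hb1 hb2)
  nlinarith

/-- Three points of one arc whose angles are pairwise at distance at least `φ`. -/
theorem arc_area {φ α β γ : ℝ} (hφ : 0 < φ) (h1 : φ ≤ |β - α|) (h2 : φ ≤ |γ - β|)
    (h3 : φ ≤ |γ - α|) (hα : 0 ≤ α ∧ α ≤ π) (hβ : 0 ≤ β ∧ β ≤ π) (hγ : 0 ≤ γ ∧ γ ≤ π)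
    (b : Bool) (s : ℝ) :
    2 * sin (φ / 2) ^ 2 * sin φ ≤ triArea (pt α b s) (pt β b s) (pt γ b s) := by
  rcases le_total α β with hab | hab <;> rcases le_total β γ with hbc | hbc <;>
    rcases le_total α γ with hac | hac
  · rw [abs_of_nonneg (by linarith)] at h1 h2
    exact arc_area_sorted hφ h1 h2 (by linarith) b s
  · rw [abs_of_nonneg (by linarith)] at h1 h2
    exact arc_area_sorted hφ h1 h2 (by linarith) b s
  · -- α ≤ γ ≤ β
    rw [abs_of_nonneg (by linarith)] at h3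
    rw [abs_of_nonpos (by linarith)] at h2
    rw [← triArea_swap₂]
    exact arc_area_sorted hφ h3 (by linarith) (by linarith) b s
  · -- γ ≤ α ≤ β
    rw [abs_of_nonpos (by linarith)] at h3
    rw [abs_of_nonneg (by linarith)] at h1
    rw [triArea_rot (pt γ b s) (pt α b s) (pt β b s)]
    exact arc_area_sorted hφ (by linarith) h1 (by linarith) b s
  · -- β ≤ α ≤ γ
    rw [abs_of_nonpos (by linarith)] at h1
    rw [abs_of_nonneg (by linarith)] at h3
    rw [← triArea_swap₁]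
    exact arc_area_sorted hφ (by linarith) h3 (by linarith) b s
  · -- β ≤ γ ≤ α
    rw [abs_of_nonneg (by linarith)] at h2
    rw [abs_of_nonpos (by linarith)] at h3
    rw [← triArea_rot]
    exact arc_area_sorted hφ h2 (by linarith) (by linarith) b s
  · -- γ ≤ β ≤ α
    rw [abs_of_nonpos (by linarith)] at h2 h1
    rw [← triArea_rot, triArea_swap₁]
    exact arc_area_sorted hφ (by linarith) (by linarith) (by linarith) b s
  · rw [abs_of_nonpos (by linarith)] at h2 h1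
    rw [← triArea_rot, triArea_swap₁]
    exact arc_area_sorted hφ (by linarith) (by linarith) (by linarith) b s

/-- The gap between the abscissae. -/
theorem cos_gap {θ₀ α β : ℝ} (h0 : 0 < θ₀) (h0' : θ₀ ≤ π / 2) (hα : θ₀ ≤ α ∧ α ≤ π - θ₀)
    (hβ : θ₀ ≤ β ∧ β ≤ π - θ₀) :
    2 / π * sin θ₀ * |α - β| ≤ |cos α - cos β| := by
  have hpi := pi_pos
  have key : ∀ α β : ℝ, θ₀ ≤ α ∧ α ≤ π - θ₀ → θ₀ ≤ β ∧ β ≤ π - θ₀ → α ≤ β →
      2 / π * sin θ₀ * |α - β| ≤ |cos α - cos β| := by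
    intro α β hα hβ hab
    have h1 : cos α - cos β = 2 * sin ((β + α) / 2) * sin ((β - α) / 2) := by
      have := cos_sub_cos β α
      linarith
    have hsin0 : 0 ≤ sin θ₀ := sin_nonneg_of_nonneg_of_le_pi h0.le (by linarith)
    have hmid : sin θ₀ ≤ sin ((β + α) / 2) := by
      rcases le_total ((β + α) / 2) (π / 2) with h | h
      · exact strictMonoOn_sin.monotoneOn ⟨by linarith, h0'⟩ ⟨by linarith, h⟩ (by linarith)
      · rw [← sin_pi_sub ((β + α) / 2)]
        exact strictMonoOn_sin.monotoneOn ⟨by linarith, h0'⟩ ⟨by linarith, by linarith⟩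
          (by linarith)
    have hj : 2 / π * ((β - α) / 2) ≤ sin ((β - α) / 2) := mul_le_sin (by linarith) (by linarith)
    have hj0 : 0 ≤ 2 / π * ((β - α) / 2) := by
      have : 0 ≤ β - α := by linarith
      positivity
    have hprod : sin θ₀ * (2 / π * ((β - α) / 2)) ≤ sin ((β + α) / 2) * sin ((β - α) / 2) :=
      mul_le_mul hmid hj hj0 (hsin0.trans hmid)
    have h0nn : 0 ≤ sin ((β + α) / 2) * sin ((β - α) / 2) :=
      mul_nonneg (hsin0.trans hmid) (hj0.trans hj)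
    rw [abs_of_nonpos (show α - β ≤ 0 by linarith), h1,
      abs_of_nonneg (show 0 ≤ 2 * sin ((β + α) / 2) * sin ((β - α) / 2) by nlinarith)]
    calc 2 / π * sin θ₀ * -(α - β) = 2 * (sin θ₀ * (2 / π * ((β - α) / 2))) := by ring
      _ ≤ 2 * (sin ((β + α) / 2) * sin ((β - α) / 2)) := by linarith
      _ = _ := by ring
  rcases le_total α β with h | h
  · exact key α β hα hβ h
  · rw [abs_sub_comm α β, abs_sub_comm (cos α) (cos β)]
    exact key β α hβ hα h

theorem orient_pt_shift (α : ℝ) (b : Bool) (s : ℝ) (q r : ℂ) :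
    orient (pt α b s) q r = orient (pt α b 0) q r + (-(sg b * (r.re - q.re))) * s := by
  unfold orient pt
  ring

section range

variable {θ₀ θ : ℝ} (h0 : 0 < θ₀) (h0' : θ₀ ≤ π / 2) (hθ : θ₀ ≤ θ ∧ θ ≤ π - θ₀)

include h0 h0' hθ

theorem sin_ge : sin θ₀ ≤ sin θ := by
  have hpi := pi_pos
  rcases le_total θ (π / 2) with h | h
  · exact strictMonoOn_sin.monotoneOn ⟨by linarith, h0'⟩ ⟨by linarith, h⟩ hθ.1
  · rw [← sin_pi_sub θ]
    exact strictMonoOn_sin.monotoneOn ⟨by linarith, h0'⟩ ⟨by linarith, by linarith⟩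
      (by linarith [hθ.2])

omit hθ in
theorem sin_pos₀ : 0 < sin θ₀ := sin_pos_of_pos_of_lt_pi h0 (by linarith [pi_pos])

theorem sqrt_eq_sin : √(1 - cos θ ^ 2) = sin θ := by
  have h1 := sin_ge h0 h0' hθ
  have h2 := sin_pos₀ h0 h0'
  rw [← sin_sq]
  exact Real.sqrt_sq (by linarith)

theorem abs_im_pt {s : ℝ} (hs : 0 ≤ s ∧ s ≤ sin θ₀ / 2) (b : Bool) :
    |(pt θ b s).im| = sin θ - s := by
  have h1 := sin_ge h0 h0' hθ
  have h2 := sin_pos₀ h0 h0'
  unfold pt
  simp only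
  rw [abs_mul, abs_sg, one_mul, abs_of_nonneg (by linarith [hs.2])]

theorem band_pt {s : ℝ} (hs : 0 ≤ s ∧ s ≤ sin θ₀ / 2) (b : Bool) : Band (pt θ b s) := by
  have h1 := sin_ge h0 h0' hθ
  have h2 := sin_pos₀ h0 h0'
  have h3 := abs_im_pt h0 h0' hθ hs b
  have h4 := sqrt_eq_sin h0 h0' hθ
  have hre : (pt θ b s).re = cos θ := rfl
  refine ⟨?_, ?_, ?_, ?_⟩
  · rw [hre, ← Real.sqrt_sq_eq_abs, show cos θ ^ 2 = 1 - sin θ ^ 2 by rw [cos_sq']]
    rw [Real.sqrt_lt' one_pos]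
    nlinarith
  · intro h
    rw [h, abs_zero] at h3
    linarith [hs.2]
  · rw [h3, hre, h4]
    linarith [hs.2]
  · rw [h3, hre, h4]
    linarith [hs.1]

theorem dep_pt {s : ℝ} (hs : 0 ≤ s ∧ s ≤ sin θ₀ / 2) (b : Bool) : dep (pt θ b s) = s := by
  unfold dep
  rw [abs_im_pt h0 h0' hθ hs b]
  have hre : (pt θ b s).re = cos θ := rfl
  rw [hre, sqrt_eq_sin h0 h0' hθ]
  ring

theorem norm_pt_le {s : ℝ} (hs : 0 ≤ s ∧ s ≤ sin θ₀ / 2) (b : Bool) : ‖pt θ b s‖ ≤ 1 := by
  have h1 := sin_ge h0 h0' hθ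
  have h2 := sin_pos₀ h0 h0'
  have h3 : ‖pt θ b s‖ ^ 2 ≤ 1 := by
    rw [← Complex.normSq_eq_norm_sq, Complex.normSq_apply]
    unfold pt
    simp only
    have h5 := sg_sq b
    have h6 := sin_sq_add_cos_sq θ
    have h7 : (sg b * (sin θ - s)) * (sg b * (sin θ - s)) = (sin θ - s) ^ 2 := by
      linear_combination (sin θ - s) ^ 2 * h5
    rw [h7]
    nlinarith [hs.1, hs.2]
  have h4 := norm_nonneg (pt θ b s)
  nlinarith

theorem im_pt_pos {s : ℝ} (hs : 0 ≤ s ∧ s ≤ sin θ₀ / 2) : 0 < (pt θ true s).im := by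
  have h1 := sin_ge h0 h0' hθ
  have h2 := sin_pos₀ h0 h0'
  unfold pt sg
  simp only [if_true, one_mul]
  linarith [hs.2]

theorem im_pt_neg {s : ℝ} (hs : 0 ≤ s ∧ s ≤ sin θ₀ / 2) : (pt θ false s).im < 0 := by
  have h1 := sin_ge h0 h0' hθ
  have h2 := sin_pos₀ h0 h0'
  unfold pt sg
  simp only [Bool.false_eq_true, if_false, neg_one_mul]
  linarith [hs.2]

end range

theorem pt_inj {θ₀ α β s s' : ℝ} (h0 : 0 < θ₀) (h0' : θ₀ ≤ π / 2) (hα : θ₀ ≤ α ∧ α ≤ π - θ₀)
    (hβ : θ₀ ≤ β ∧ β ≤ π - θ₀) (hs : 0 ≤ s ∧ s ≤ sin θ₀ / 2) (hs' : 0 ≤ s' ∧ s' ≤ sin θ₀ / 2)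
    {b b' : Bool} (h : pt α b s = pt β b' s') : α = β ∧ b = b' := by
  constructor
  · have hre : Real.cos α = Real.cos β := by
      have := congrArg Complex.re h
      simpa [pt] using this
    have h1 := cos_gap h0 h0' hα hβ
    rw [hre, sub_self, abs_zero] at h1
    have h2 := sin_pos₀ h0 h0'
    have hpi := pi_pos
    have h3 : 0 < 2 / π * sin θ₀ := by positivity
    have h4 : |α - β| ≤ 0 := by
      by_contra hcon
      push Not at hcon
      nlinarith [mul_pos h3 hcon]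
    have h5 := abs_eq_zero.1 (le_antisymm h4 (abs_nonneg _))
    linarith
  · cases b <;> cases b'
    · rfl
    · exfalso
      have h1 := im_pt_neg h0 h0' hα hs
      have h2 := im_pt_pos h0 h0' hβ hs'
      rw [h] at h1
      linarith
    · exfalso
      have h1 := im_pt_pos h0 h0' hα hs
      have h2 := im_pt_neg h0 h0' hβ hs'
      rw [h] at h1
      linarith
    · rfl

end Pool.Agent.Heil
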