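import Pool.Agent.Heil.Final

/-! The asymptotic lower bound for sets with few convex layers. -/

namespace Pool.Agent.Heil

open Finset Real

/-- The area inside one arc. -/
theorem arc_min {φ ζ : ℝ} (h0 : 0 < φ) (h1 : φ ≤ 1) (h2 : φ ^ 2 ≤ ζ) :
    (1 - ζ) * (φ ^ 3 / 2) ≤ 2 * sin (φ / 2) ^ 2 * sin φ := by
  have hs1 : φ / 2 - (φ / 2) ^ 3 / 4 < sin (φ / 2) := by
    have h := sin_gt_sub_cube (x := φ / 2) (by linarith)
    have h' : 0 < (φ / 2) ^ 3 := by positivity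
    linarith
  have hs2 : φ - φ ^ 3 / 4 < sin φ := by
    have h := sin_gt_sub_cube h0
    have h' : 0 < φ ^ 3 := by positivity
    linarith
  have hsq : φ ^ 2 ≤ 1 := by nlinarith
  have a1 : 0 ≤ φ / 2 * (1 - φ ^ 2 / 16) := by
    have : 0 ≤ 1 - φ ^ 2 / 16 := by linarith
    positivity
  have a1' : φ / 2 * (1 - φ ^ 2 / 16) ≤ sin (φ / 2) := by nlinarith
  have a2 : 0 ≤ φ * (1 - φ ^ 2 / 4) := by
    have : 0 ≤ 1 - φ ^ 2 / 4 := by linarith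
    positivity
  have a2' : φ * (1 - φ ^ 2 / 4) ≤ sin φ := by nlinarith
  have b1 : (φ / 2 * (1 - φ ^ 2 / 16)) ^ 2 ≤ sin (φ / 2) ^ 2 := pow_le_pow_left₀ a1 a1' 2
  have b2 : (φ / 2 * (1 - φ ^ 2 / 16)) ^ 2 * (φ * (1 - φ ^ 2 / 4)) ≤ sin (φ / 2) ^ 2 * sin φ :=
    mul_le_mul b1 a2' a2 (sq_nonneg _)
  have b3 : 1 - φ ^ 2 ≤ (1 - φ ^ 2 / 16) ^ 2 * (1 - φ ^ 2 / 4) := by
    have hx : 0 ≤ φ ^ 2 := sq_nonneg _
    generalize φ ^ 2 = x at *
    have c1 : 1 - x / 8 ≤ (1 - x / 16) ^ 2 := by nlinarith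
    have c2 : (1 - x / 8) * (1 - x / 4) ≤ (1 - x / 16) ^ 2 * (1 - x / 4) :=
      mul_le_mul_of_nonneg_right c1 (by linarith)
    nlinarith
  calc (1 - ζ) * (φ ^ 3 / 2) ≤ (1 - φ ^ 2) * (φ ^ 3 / 2) :=
        mul_le_mul_of_nonneg_right (by linarith) (by positivity)
    _ ≤ ((1 - φ ^ 2 / 16) ^ 2 * (1 - φ ^ 2 / 4)) * (φ ^ 3 / 2) :=
        mul_le_mul_of_nonneg_right b3 (by positivity)
    _ = 2 * ((φ / 2 * (1 - φ ^ 2 / 16)) ^ 2 * (φ * (1 - φ ^ 2 / 4))) := by ring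
    _ ≤ 2 * (sin (φ / 2) ^ 2 * sin φ) := by linarith
    _ = _ := by ring

/-- **Existence** of sets with at most `k` layers and large triangles. -/
theorem exists_layers {η : ℝ} (hη : 0 < η) (hη1 : η < 1) :
    ∃ c : ℝ, 0 < c ∧ ∃ N : ℕ, ∀ n k : ℕ, N ≤ n → 1 ≤ k → ((k : ℝ) ^ 3 ≤ c * n) →
      ∃ S : Finset ℂ, S.card = n ∧ (∀ z ∈ S, ‖z‖ ≤ 1) ∧ peel^[k] S = ∅ ∧
        ∀ a ∈ S, ∀ b ∈ S, ∀ c ∈ S, a ≠ b → a ≠ c → b ≠ c →
          (1 - η) * (4 * π ^ 3 * ((k : ℝ) / n) ^ 3) ≤ triArea a b c := by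
  have hpi := pi_pos
  have hpi3 := pi_gt_three
  have hpi4 := pi_le_four
  set ζ : ℝ := η / 12 with hζ
  have hζ0 : 0 < ζ := by rw [hζ]; positivity
  have hζ1 : ζ ≤ 1 / 12 := by rw [hζ]; linarith
  set θ₀ : ℝ := π * ζ / 2 with hθ
  have h0 : 0 < θ₀ := by rw [hθ]; positivity
  have h0' : θ₀ < π / 2 := by rw [hθ]; nlinarith
  have hw : π - 2 * θ₀ = π * (1 - ζ) := by rw [hθ]; ring
  have hsin := sin_pos₀ h0 h0'.le
  have hζ1' : 0 < 1 - ζ := by linarith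
  -- the constant of the number of bad triples
  set D : ℝ := sin θ₀ / 2 * (2 / π * sin θ₀ * (π - 2 * θ₀)) with hD
  have hD0 : 0 < D := by
    rw [hD, hw]
    positivity
  set C₀ : ℝ := 16 * π ^ 3 / D * 40 with hC₀
  have hC₀0 : 0 < C₀ := by rw [hC₀]; positivity
  set r : ℝ := min (ζ / (2 * C₀)) (ζ / 8) with hr
  have hr0 : 0 < r := by rw [hr]; exact lt_min (by positivity) (by positivity)
  have hr1 : r ≤ ζ / (2 * C₀) := min_le_left _ _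
  have hr2 : r ≤ ζ / 8 := min_le_right _ _
  have hr3 : r ≤ 1 := by linarith
  refine ⟨r ^ 2, by positivity, ⌈2 / ζ⌉₊ + 1, ?_⟩
  intro n k hn hk hkn
  have hnR : 2 / ζ + 1 ≤ (n : ℝ) := by
    have h1 : 2 / ζ ≤ (⌈2 / ζ⌉₊ : ℝ) := Nat.le_ceil _
    have h2 : ((⌈2 / ζ⌉₊ + 1 : ℕ) : ℝ) ≤ n := by exact_mod_cast hn
    push_cast at h2
    linarith
  have hn0 : (0 : ℝ) < n := by
    have : 0 < 2 / ζ := by positivity
    linarith
  have hk1 : (1 : ℝ) ≤ k := by exact_mod_cast hk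
  have hk0 : (0 : ℝ) < k := by linarith
  -- `k ≤ r² n`
  have hkn1 : (k : ℝ) ≤ r ^ 2 * n := by
    refine le_trans ?_ hkn
    nlinarith [mul_nonneg (sub_nonneg.2 hk1) hk0.le, mul_nonneg (mul_nonneg (sub_nonneg.2 hk1) hk0.le) hk0.le]
  have hr22 : r ^ 2 ≤ r := by nlinarith
  have hkn2 : (k : ℝ) ≤ ζ / 8 * n := by
    refine hkn1.trans (mul_le_mul_of_nonneg_right (by linarith) hn0.le)
  -- the number of points of an arc
  set μ : ℕ := ⌈(1 + ζ) * n / (2 * k)⌉₊ with hμ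
  have hμlow : (1 + ζ) * n / (2 * k) ≤ μ := Nat.le_ceil _
  have hμup : (μ : ℝ) ≤ (1 + 2 * ζ) * n / (2 * k) := by
    have h1 : (μ : ℝ) < (1 + ζ) * n / (2 * k) + 1 := Nat.ceil_lt_add_one (by positivity)
    have h2 : (1 : ℝ) ≤ ζ * n / (2 * k) := by
      rw [le_div_iff₀ (by positivity)]
      linarith
    have h3 : (1 + 2 * ζ) * n / (2 * k) = (1 + ζ) * n / (2 * k) + ζ * n / (2 * k) := by ring
    linarith
  have hμ0 : (0 : ℝ) < μ := lt_of_lt_of_le (by positivity) hμlow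
  have hμpos : 0 < μ := by exact_mod_cast hμ0
  have hμn : (μ : ℝ) ≤ n / k := by
    refine hμup.trans ?_
    rw [div_le_div_iff₀ (by positivity) (by positivity)]
    nlinarith [mul_pos hn0 hk0]
  -- the angle
  set φ : ℝ := (π - 2 * θ₀) / μ with hφ
  have hφ0 : 0 < φ := by rw [hφ, hw]; positivity
  have hφup : φ ≤ ζ := by
    rw [hφ, hw, div_le_iff₀ hμ0]
    have h1 : π * (1 - ζ) ≤ 4 := by nlinarith
    have h2 : (4 : ℝ) ≤ ζ * ((1 + ζ) * n / (2 * k)) := by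
      have h3 : ζ * ((1 + ζ) * n / (2 * k)) = ζ * (1 + ζ) * n / (2 * k) := by ring
      rw [h3, le_div_iff₀ (by positivity)]
      have h4 : 8 * (k : ℝ) ≤ ζ * n := by linarith
      nlinarith [mul_pos (mul_pos hζ0 hζ0) hn0]
    have h5 := mul_le_mul_of_nonneg_left hμlow hζ0.le
    linarith
  have hφ1 : φ ≤ 1 := by linarith
  have hφ2 : φ ^ 2 ≤ ζ := by nlinarith
  -- the least area inside an arc
  have harc := arc_min hφ0 hφ1 hφ2
  set t : ℝ := (1 - η) * (4 * π ^ 3 * ((k : ℝ) / n) ^ 3) with ht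
  have ht0 : 0 ≤ t := by
    rw [ht]
    have : 0 < 1 - η := by linarith
    positivity
  have hφlow : 2 * π * ((1 - ζ) / (1 + 2 * ζ)) * (k / n) ≤ φ := by
    rw [hφ, hw, le_div_iff₀ hμ0]
    have h1 : 2 * π * ((1 - ζ) / (1 + 2 * ζ)) * (k / n) * μ
        ≤ 2 * π * ((1 - ζ) / (1 + 2 * ζ)) * (k / n) * ((1 + 2 * ζ) * n / (2 * k)) :=
      mul_le_mul_of_nonneg_left hμup (by positivity)
    refine h1.trans (le_of_eq ?_)
    field_simp
  have hq : 1 - 3 * ζ ≤ (1 - ζ) / (1 + 2 * ζ) := by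
    rw [le_div_iff₀ (by positivity)]
    nlinarith [sq_nonneg ζ]
  have hq0 : 0 < 1 - 3 * ζ := by linarith
  have htarc : t ≤ 2 * sin ((π - 2 * θ₀) / μ / 2) ^ 2 * sin ((π - 2 * θ₀) / μ) := by
    refine le_trans ?_ harc
    have h1 : 2 * π * (1 - 3 * ζ) * (k / n) ≤ φ := by
      refine le_trans ?_ hφlow
      have : 0 < (k : ℝ) / n := by positivity
      have h2 : 2 * π * (1 - 3 * ζ) ≤ 2 * π * ((1 - ζ) / (1 + 2 * ζ)) :=
        mul_le_mul_of_nonneg_left hq (by positivity)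
      exact mul_le_mul_of_nonneg_right h2 this.le
    have h2 : (2 * π * (1 - 3 * ζ) * (k / n)) ^ 3 ≤ φ ^ 3 := pow_le_pow_left₀ (by positivity) h1 3
    have h3 : 1 - 12 * ζ ≤ (1 - ζ) * (1 - 3 * ζ) ^ 3 := by
      have e1 : (1 - ζ) * (1 - 3 * ζ) ^ 3 - (1 - 12 * ζ)
          = ζ * (2 + 36 * ζ - 54 * ζ ^ 2 + 27 * ζ ^ 3) := by ring
      have e2 : 0 ≤ ζ * (2 + 36 * ζ - 54 * ζ ^ 2 + 27 * ζ ^ 3) := by
        have : 0 ≤ 2 + 36 * ζ - 54 * ζ ^ 2 + 27 * ζ ^ 3 := by nlinarith [pow_pos hζ0 3]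
        positivity
      linarith
    have h4 : 1 - η = 1 - 12 * ζ := by rw [hζ]; ring
    rw [ht, h4]
    calc (1 - 12 * ζ) * (4 * π ^ 3 * ((k : ℝ) / n) ^ 3)
        ≤ (1 - ζ) * (1 - 3 * ζ) ^ 3 * (4 * π ^ 3 * ((k : ℝ) / n) ^ 3) :=
          mul_le_mul_of_nonneg_right h3 (by positivity)
      _ = (1 - ζ) * ((2 * π * (1 - 3 * ζ) * (k / n)) ^ 3 / 2) := by ring
      _ ≤ (1 - ζ) * (φ ^ 3 / 2) := by
          refine mul_le_mul_of_nonneg_left ?_ hζ1'.le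
          linarith
  obtain ⟨S, hdisk, hpeel, hcard, harea⟩ := exists_arcs (k := k) (μ := μ) hk hμpos h0 h0' ht0 htarc
  rw [← hD] at hcard
  -- the number of points
  have htle : t ≤ 4 * π ^ 3 * ((k : ℝ) / n) ^ 3 := by
    rw [ht]
    have : 0 ≤ 4 * π ^ 3 * ((k : ℝ) / n) ^ 3 := by positivity
    nlinarith
  have hμ3 : t * (μ : ℝ) ^ 3 ≤ 4 * π ^ 3 := by
    calc t * (μ : ℝ) ^ 3 ≤ 4 * π ^ 3 * ((k : ℝ) / n) ^ 3 * (n / k) ^ 3 := by
          refine mul_le_mul htle (pow_le_pow_left₀ hμ0.le hμn 3) (by positivity) (by positivity)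
      _ = 4 * π ^ 3 := by
          field_simp
  have hsqrt : (k : ℝ) ^ 2 * √μ ≤ r * n := by
    have h1 : (k : ℝ) ^ 4 * μ ≤ (r * n) ^ 2 := by
      calc (k : ℝ) ^ 4 * μ ≤ (k : ℝ) ^ 4 * (n / k) :=
            mul_le_mul_of_nonneg_left hμn (by positivity)
        _ = (k : ℝ) ^ 3 * n := by field_simp
        _ ≤ r ^ 2 * n * n := mul_le_mul_of_nonneg_right hkn hn0.le
        _ = (r * n) ^ 2 := by ring
    have h2 : ((k : ℝ) ^ 2 * √μ) ^ 2 ≤ (r * n) ^ 2 := by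
      rw [mul_pow, Real.sq_sqrt hμ0.le]
      calc ((k : ℝ) ^ 2) ^ 2 * μ = (k : ℝ) ^ 4 * μ := by ring
        _ ≤ _ := h1
    exact (sq_le_sq₀ (by positivity) (by positivity)).1 h2
  have hk3 : (k : ℝ) ^ 3 ≤ r * n := hkn.trans (mul_le_mul_of_nonneg_right hr22 hn0.le)
  have hbad : 4 * t * (k * μ) / D * (16 * k * μ ^ 2 * √μ + 24 * (k * μ) ^ 2) ≤ ζ / 2 * n := by
    have e1 : 4 * t * (k * μ) / D * (16 * k * μ ^ 2 * √μ + 24 * (k * μ) ^ 2)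
        = 4 * (t * (μ : ℝ) ^ 3) / D * (16 * ((k : ℝ) ^ 2 * √μ) + 24 * (k : ℝ) ^ 3) := by ring
    rw [e1]
    have e2 : 16 * ((k : ℝ) ^ 2 * √μ) + 24 * (k : ℝ) ^ 3 ≤ 40 * (r * n) := by linarith
    have e3 : 4 * (t * (μ : ℝ) ^ 3) / D ≤ 16 * π ^ 3 / D := by
      refine div_le_div_of_nonneg_right ?_ hD0.le
      linarith
    calc 4 * (t * (μ : ℝ) ^ 3) / D * (16 * ((k : ℝ) ^ 2 * √μ) + 24 * (k : ℝ) ^ 3)
        ≤ 16 * π ^ 3 / D * (40 * (r * n)) := mul_le_mul e3 e2 (by positivity) (by positivity)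
      _ = C₀ * r * n := by rw [hC₀]; ring
      _ ≤ C₀ * (ζ / (2 * C₀)) * n := by
          refine mul_le_mul_of_nonneg_right ?_ hn0.le
          exact mul_le_mul_of_nonneg_left hr1 hC₀0.le
      _ = ζ / 2 * n := by field_simp
  have hone : 1 ≤ ζ / 2 * n := by
    have h1 : 2 / ζ ≤ n := by linarith
    rw [div_le_iff₀ hζ0] at h1
    linarith
  have hmain : (1 + ζ) * n ≤ 2 * ((k : ℝ) * μ) := by
    rw [div_le_iff₀ (by positivity)] at hμlow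
    linarith
  have hScard : n ≤ S.card := by
    have : (n : ℝ) ≤ S.card := by linarith
    exact_mod_cast this
  obtain ⟨S', hS', hS'card⟩ := Finset.exists_subset_card_eq hScard
  exact ⟨S', hS'card, fun z hz => hdisk z (hS' hz), hpeel S' hS',
    fun a ha b hb c hc => harea a (hS' ha) b (hS' hb) c (hS' hc)⟩

end Pool.Agent.Heil
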