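import Mathlib

/-!
# Heilbronn's triangle problem for sets with few convex layers: definitions

The plane is `ℂ`.  `orient a b c` is twice the signed area of the triangle `a b c`.
-/

namespace Pool.Agent.Heil

/-- Twice the signed area of the triangle `a b c` (positive if counterclockwise). -/
noncomputable def orient (a b c : ℂ) : ℝ :=
  (b.re - a.re) * (c.im - a.im) - (b.im - a.im) * (c.re - a.re)

/-- The area of the triangle `a b c`. -/
noncomputable def triArea (a b c : ℂ) : ℝ :=
  |(b.re - a.re) * (c.im - a.im) - (b.im - a.im) * (c.re - a.re)| / 2

/-- The least area of a triangle spanned by three distinct points of `S`. -/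
noncomputable def minArea (S : Finset ℂ) : ℝ :=
  sInf {t : ℝ | ∃ a ∈ S, ∃ b ∈ S, ∃ c ∈ S, a ≠ b ∧ a ≠ c ∧ b ≠ c ∧ t = triArea a b c}

/-- `S` is in convex position: no point of `S` lies in the convex hull of the others. -/
def ConvexPos (S : Finset ℂ) : Prop :=
  ∀ p ∈ S, p ∉ convexHull ℝ ((S : Set ℂ) \ {p})

open Classical in
/-- One step of the onion peeling: delete all points of `S` which do not lie in the convex hull of
the other points (the first convex layer). -/
noncomputable def peel (S : Finset ℂ) : Finset ℂ :=
  S.filter fun p => p ∈ convexHull ℝ ((S : Set ℂ) \ {p})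

theorem triArea_eq (a b c : ℂ) : triArea a b c = |orient a b c| / 2 := rfl

theorem orient_rot (a b c : ℂ) : orient b c a = orient a b c := by
  unfold orient; ring

theorem orient_rot' (a b c : ℂ) : orient c a b = orient a b c := by
  unfold orient; ring

theorem orient_swap (a b c : ℂ) : orient b a c = - orient a b c := by
  unfold orient; ring

theorem orient_self_left (a b : ℂ) : orient a a b = 0 := by
  unfold orient; ring

theorem orient_self_right (a b : ℂ) : orient a b b = 0 := by
  unfold orient; ring

theorem orient_self_mid (a b : ℂ) : orient a b a = 0 := by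
  unfold orient; ring

theorem triArea_nonneg (a b c : ℂ) : 0 ≤ triArea a b c := by
  unfold triArea; positivity

theorem peel_subset (S : Finset ℂ) : peel S ⊆ S := by
  classical
  unfold peel
  exact Finset.filter_subset _ _

theorem mem_peel {S : Finset ℂ} {p : ℂ} :
    p ∈ peel S ↔ p ∈ S ∧ p ∈ convexHull ℝ ((S : Set ℂ) \ {p}) := by
  classical
  unfold peel
  simp

/-- In a triangle with positively oriented subtriangles the middle point is a convex combination. -/
theorem quad_identity (w1 w2 : ℝ) (a i j b : ℂ) :
    orient i j b * (w1 * a.re + w2 * a.im) + orient a i b * (w1 * j.re + w2 * j.im)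
      = orient a j b * (w1 * i.re + w2 * i.im) + orient a i j * (w1 * b.re + w2 * b.im) := by
  unfold orient; ring

theorem quad_sum (a i j b : ℂ) :
    orient i j b + orient a i b = orient a j b + orient a i j := by
  unfold orient; ring

end Pool.Agent.Heil
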