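import Mathlib

/-! Averaging over independent shifts. -/

namespace Pool.Agent.Heil

open Finset

/-- The points of an arithmetic progression in an open interval. -/
theorem card_progression_le {Q : ℕ} {α β δ τ : ℝ} (hβ : β ≠ 0) (hδ : 0 < δ) (hτ : 0 ≤ τ)
    (S : Finset (Fin Q)) (hS : ∀ q ∈ S, |α + β * (δ * (q : ℕ))| < τ) :
    (S.card : ℝ) ≤ 2 * τ / (|β| * δ) + 1 := by
  rcases S.eq_empty_or_nonempty with h | h
  · subst h
    simp only [Finset.card_empty, Nat.cast_zero]
    positivity
  · have hβ' : 0 < |β| := abs_pos.2 hβ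
    set a := S.min' h with ha
    set b := S.max' h with hb
    have hsub : S ⊆ Finset.Icc a b := fun q hq =>
      Finset.mem_Icc.2 ⟨S.min'_le q hq, S.le_max' q hq⟩
    have hab : a ≤ b := S.min'_le b (S.max'_mem h)
    have hcard : (S.card : ℝ) ≤ ((b : ℕ) : ℝ) - (a : ℕ) + 1 := by
      have h1 := Finset.card_le_card hsub
      rw [Fin.card_Icc] at h1
      have h2 : (a : ℕ) ≤ (b : ℕ) := hab
      have h3 : (S.card : ℝ) ≤ ((b + 1 - a : ℕ) : ℝ) := by exact_mod_cast h1
      rw [Nat.cast_sub (by omega)] at h3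
      push_cast at h3
      linarith
    have h1 := hS a (S.min'_mem h)
    have h2 := hS b (S.max'_mem h)
    have h3 : |β| * δ * (((b : ℕ) : ℝ) - (a : ℕ)) < 2 * τ ∨ τ = 0 := by
      left
      have h2' : (a : ℕ) ≤ (b : ℕ) := hab
      have h2'' : ((a : ℕ) : ℝ) ≤ (b : ℕ) := by exact_mod_cast h2'
      have h4 : |β * (δ * (((b : ℕ) : ℝ) - (a : ℕ)))| < 2 * τ := by
        have : β * (δ * (((b : ℕ) : ℝ) - (a : ℕ)))
            = (α + β * (δ * (b : ℕ))) - (α + β * (δ * (a : ℕ))) := by ring
        rw [this]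
        calc |(α + β * (δ * (b : ℕ))) - (α + β * (δ * (a : ℕ)))|
            ≤ |α + β * (δ * (b : ℕ))| + |α + β * (δ * (a : ℕ))| := abs_sub _ _
          _ < 2 * τ := by linarith
      rw [abs_mul, abs_of_nonneg (mul_nonneg hδ.le (sub_nonneg.2 h2''))] at h4
      linarith
    rcases h3 with h3 | h3
    · have h5 : ((b : ℕ) : ℝ) - (a : ℕ) ≤ 2 * τ / (|β| * δ) := by
        rw [le_div_iff₀ (by positivity)]
        linarith
      linarith
    · exfalso
      rw [h3] at h1
      exact absurd h1 (not_lt.2 (abs_nonneg _))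

open Classical in
/-- If, for every choice of the other coordinates, at most a `p`-fraction of the values of the
coordinate `a` is bad, then at most a `p`-fraction of all choices is bad. -/
theorem card_bad_le {A : Type*} [Fintype A] [DecidableEq A] {Q : ℕ} (hQ : 0 < Q)
    (bad : (A → Fin Q) → Prop) (a : A) (p : ℝ)
    (h : ∀ s : A → Fin Q, ((univ.filter fun q : Fin Q => bad (Function.update s a q)).card : ℝ)
      ≤ p * Q) :
    ((univ.filter fun s : A → Fin Q => bad s).card : ℝ) ≤ p * (Fintype.card (A → Fin Q) : ℝ) := by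
  have hQ' : (0 : ℝ) < Q := by exact_mod_cast hQ
  let e : (A → Fin Q) × Fin Q ≃ (A → Fin Q) × Fin Q :=
    { toFun := fun x => (Function.update x.1 a x.2, x.1 a)
      invFun := fun x => (Function.update x.1 a x.2, x.1 a)
      left_inv := fun x => by simp
      right_inv := fun x => by simp }
  have h1 : ∑ s : A → Fin Q, ∑ q : Fin Q, (if bad (Function.update s a q) then (1 : ℝ) else 0)
      = Q * ∑ s : A → Fin Q, (if bad s then (1 : ℝ) else 0) := by
    rw [← Fintype.sum_prod_type' (f := fun (s : A → Fin Q) (q : Fin Q) =>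
      (if bad (Function.update s a q) then (1 : ℝ) else 0))]
    rw [← Equiv.sum_comp e]
    rw [Fintype.sum_prod_type, Finset.mul_sum]
    refine Finset.sum_congr rfl fun s _ => ?_
    simp [e]
  have h2 : ∑ s : A → Fin Q, ∑ q : Fin Q, (if bad (Function.update s a q) then (1 : ℝ) else 0)
      ≤ ∑ _s : A → Fin Q, p * Q := by
    refine Finset.sum_le_sum fun s _ => ?_
    rw [Finset.sum_boole]
    exact h s
  rw [h1, Finset.sum_boole, Finset.sum_const, nsmul_eq_mul, Finset.card_univ] at h2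
  have h3 : (Q : ℝ) * ((univ.filter fun s : A → Fin Q => bad s).card : ℝ)
      ≤ Q * (p * (Fintype.card (A → Fin Q) : ℝ)) := by
    linarith
  exact le_of_mul_le_mul_left h3 hQ'

open Classical in
/-- The first moment method. -/
theorem exists_few_bad {A ι : Type*} [Fintype A] [DecidableEq A] {Q : ℕ} (hQ : 0 < Q)
    (T : Finset ι) (bad : ι → (A → Fin Q) → Prop) (a : ι → A) (p : ι → ℝ)
    (h : ∀ x ∈ T, ∀ s : A → Fin Q,
      ((univ.filter fun q : Fin Q => bad x (Function.update s (a x) q)).card : ℝ) ≤ p x * Q) :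
    ∃ s : A → Fin Q, ((T.filter fun x => bad x s).card : ℝ) ≤ ∑ x ∈ T, p x := by
  have : Nonempty (A → Fin Q) := ⟨fun _ => ⟨0, hQ⟩⟩
  by_contra hcon
  push Not at hcon
  have hc : (0 : ℝ) < Fintype.card (A → Fin Q) := by
    exact_mod_cast Fintype.card_pos
  have h1 : ∑ s : A → Fin Q, ∑ x ∈ T, p x
      < ∑ s : A → Fin Q, ((T.filter fun x => bad x s).card : ℝ) := by
    refine Finset.sum_lt_sum_of_nonempty Finset.univ_nonempty fun s _ => hcon s
  have h2 : ∑ s : A → Fin Q, ((T.filter fun x => bad x s).card : ℝ)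
      = ∑ x ∈ T, ((univ.filter fun s : A → Fin Q => bad x s).card : ℝ) := by
    have : ∀ s : A → Fin Q, ((T.filter fun x => bad x s).card : ℝ)
        = ∑ x ∈ T, (if bad x s then (1 : ℝ) else 0) := fun s => by rw [Finset.sum_boole]
    simp_rw [this]
    rw [Finset.sum_comm]
    refine Finset.sum_congr rfl fun x _ => ?_
    rw [Finset.sum_boole]
  rw [h2, Finset.sum_const, nsmul_eq_mul, Finset.card_univ] at h1
  have h3 : ∑ x ∈ T, ((univ.filter fun s : A → Fin Q => bad x s).card : ℝ)
      ≤ ∑ x ∈ T, p x * (Fintype.card (A → Fin Q) : ℝ) :=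
    Finset.sum_le_sum fun x hx => card_bad_le hQ (bad x) (a x) (p x) (h x hx)
  rw [← Finset.sum_mul] at h3
  linarith

/-- A crude bound for the harmonic sum. -/
theorem harmonic_le_sqrt (n : ℕ) : ∑ d ∈ range n, (1 : ℝ) / (d + 1) ≤ 2 * √n := by
  induction n with
  | zero => simp
  | succ n ih =>
    rw [Finset.sum_range_succ]
    have hn : (0 : ℝ) ≤ n := Nat.cast_nonneg n
    have h1 : (1 : ℝ) / (n + 1) ≤ 2 * (√((n + 1 : ℕ) : ℝ) - √n) := by
      push_cast
      have ha : √((n : ℝ) + 1) ^ 2 = n + 1 := Real.sq_sqrt (by positivity)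
      have hb : √(n : ℝ) ^ 2 = n := Real.sq_sqrt hn
      have hle : √(n : ℝ) ≤ √((n : ℝ) + 1) := Real.sqrt_le_sqrt (by linarith)
      have hone : 1 ≤ √((n : ℝ) + 1) := Real.one_le_sqrt.2 (by linarith)
      have h0 : 0 ≤ √(n : ℝ) := Real.sqrt_nonneg _
      rw [div_le_iff₀ (by positivity)]
      generalize √((n : ℝ) + 1) = a at *
      generalize √(n : ℝ) = b at *
      have hdiff : (a - b) * (a + b) = 1 := by nlinarith
      have hd0 : 0 ≤ a - b := by linarith
      have h5 := mul_nonneg hd0 (show 0 ≤ 2 * a ^ 2 - (a + b) by nlinarith)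
      rw [ha] at h5
      linarith
    linarith

end Pool.Agent.Heil
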