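import Pool.Agent.Heil.Basic

/-! Counterclockwise enumeration of a finite set in convex position. -/

namespace Pool.Agent.Heil

open Finset

/-- Barycentric coordinates: if the three subtriangles are positively oriented (weakly), the point
`x` lies in the triangle `a b c`. -/
theorem mem_hull_of_orient {a b c x : ℂ} (h : 0 < orient a b c) (h1 : 0 ≤ orient x b c)
    (h2 : 0 ≤ orient a x c) (h3 : 0 ≤ orient a b x) : x ∈ convexHull ℝ ({a, b, c} : Set ℂ) := by
  have hs : orient x b c + orient a x c + orient a b x = orient a b c := by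
    unfold orient; ring
  have hx : x = (orient x b c / orient a b c) • a + (orient a x c / orient a b c) • b
      + (orient a b x / orient a b c) • c := by
    have hne := h.ne'
    apply Complex.ext
    · simp only [Complex.add_re, Complex.real_smul, Complex.mul_re, Complex.ofReal_re,
        Complex.ofReal_im, zero_mul, sub_zero]
      field_simp
      unfold orient; ring
    · simp only [Complex.add_im, Complex.real_smul, Complex.mul_im, Complex.ofReal_re,
        Complex.ofReal_im, zero_mul, add_zero]
      field_simp
      unfold orient; ring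
  have hconv := convex_convexHull ℝ ({a, b, c} : Set ℂ)
  have ha : a ∈ convexHull ℝ ({a, b, c} : Set ℂ) := subset_convexHull _ _ (by simp)
  have hb : b ∈ convexHull ℝ ({a, b, c} : Set ℂ) := subset_convexHull _ _ (by simp)
  have hc : c ∈ convexHull ℝ ({a, b, c} : Set ℂ) := subset_convexHull _ _ (by simp)
  have key := hconv.sum_mem (t := (univ : Finset (Fin 3)))
    (w := ![orient x b c / orient a b c, orient a x c / orient a b c, orient a b x / orient a b c])
    (z := ![a, b, c]) ?_ ?_ ?_
  · rw [hx]
    simpa [Fin.sum_univ_three] using key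
  · intro i _
    fin_cases i
    · exact div_nonneg h1 h.le
    · exact div_nonneg h2 h.le
    · exact div_nonneg h3 h.le
  · simp only [Fin.sum_univ_three, Matrix.cons_val_zero, Matrix.cons_val_one, Matrix.cons_val]
    rw [← add_div, ← add_div, hs, div_self h.ne']
  · intro i _
    fin_cases i
    · exact ha
    · exact hb
    · exact hc

/-- The key of a point seen from `a` (minus the cotangent of the angle). -/
noncomputable def key (a p : ℂ) : ℝ := - ((p.re - a.re) / (p.im - a.im))

theorem orient_eq_key {a p q : ℂ} (hp : a.im < p.im) (hq : a.im < q.im) :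
    orient a p q = (p.im - a.im) * (q.im - a.im) * (key a q - key a p) := by
  have h1 : p.im - a.im ≠ 0 := (sub_pos.2 hp).ne'
  have h2 : q.im - a.im ≠ 0 := (sub_pos.2 hq).ne'
  unfold orient key
  field_simp
  ring

/-- Sorting a finite set by an injective real key. -/
theorem exists_sorted {α : Type*} (S : Finset α) (f : α → ℝ)
    (hf : ∀ a ∈ S, ∀ b ∈ S, f a = f b → a = b) :
    ∃ P : Fin S.card → α, (∀ i, P i ∈ S) ∧ ∀ i j, i < j → f (P i) < f (P j) := by
  classical
  have hc : (S.image f).card = S.card :=
    Finset.card_image_of_injOn fun a ha b hb h => hf a ha b hb h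
  let e := (S.image f).orderEmbOfFin hc
  have he : ∀ i, ∃ a ∈ S, f a = e i := by
    intro i
    exact Finset.mem_image.1 ((S.image f).orderEmbOfFin_mem hc i)
  choose P hP hfP using he
  refine ⟨P, hP, fun i j hij => ?_⟩
  rw [hfP, hfP]
  exact e.strictMono hij

/-- A finite set in convex position (with distinct imaginary parts) can be enumerated
counterclockwise, starting with its lowest point. -/
theorem exists_enum {V : Finset ℂ} (hV : ConvexPos V) (h3 : 3 ≤ V.card)
    (him : ∀ p ∈ V, ∀ q ∈ V, p.im = q.im → p = q) :
    ∃ P : ℕ → ℂ, (∀ i, i < V.card → P i ∈ V) ∧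
      (∀ i, i < V.card → (P 0).im ≤ (P i).im) ∧
      ∀ i j l, i < j → j < l → l < V.card → 0 < orient (P i) (P j) (P l) := by
  classical
  have hne : V.Nonempty := Finset.card_pos.1 (by omega)
  obtain ⟨a, haV, hamin⟩ := V.exists_min_image (fun z => z.im) hne
  have hlt : ∀ p ∈ V, p ≠ a → a.im < p.im := fun p hp hpa =>
    lt_of_le_of_ne (hamin p hp) fun h => hpa (him p hp a haV h.symm)
  -- the key is injective
  have hkey : ∀ p ∈ V.erase a, ∀ q ∈ V.erase a, key a p = key a q → p = q := by
    intro p hp q hq h
    by_contra hpq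
    have hp' := Finset.mem_erase.1 hp
    have hq' := Finset.mem_erase.1 hq
    have hpi := hlt p hp'.2 hp'.1
    have hqi := hlt q hq'.2 hq'.1
    -- wlog p lower than q
    have main : ∀ p q : ℂ, p ∈ V → q ∈ V → p ≠ a → q ≠ a → p ≠ q → a.im < p.im → a.im < q.im →
        key a p = key a q → p.im < q.im → False := by
      intro p q hpV hqV hpa hqa hpq hpi hqi h hl
      have h1 : 0 < p.im - a.im := sub_pos.2 hpi
      have h2 : 0 < q.im - a.im := sub_pos.2 hqi
      set r : ℝ := (p.im - a.im) / (q.im - a.im) with hr
      have hr0 : 0 < r := div_pos h1 h2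
      have hr1 : r < 1 := (div_lt_one h2).2 (by linarith)
      have hseg : p ∈ segment ℝ a q := by
        refine ⟨1 - r, r, by linarith, hr0.le, by ring, ?_⟩
        have hre : (p.re - a.re) = r * (q.re - a.re) := by
          unfold key at h
          have h' : (p.re - a.re) / (p.im - a.im) = (q.re - a.re) / (q.im - a.im) := by linarith
          rw [div_eq_div_iff h1.ne' h2.ne'] at h'
          rw [hr, div_mul_eq_mul_div, eq_div_iff h2.ne']
          linarith
        have him' : (p.im - a.im) = r * (q.im - a.im) := by
          rw [hr, div_mul_cancel₀ _ h2.ne']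
        apply Complex.ext
        · simp only [Complex.add_re, Complex.real_smul, Complex.mul_re, Complex.ofReal_re,
            Complex.ofReal_im, zero_mul, sub_zero]
          linarith
        · simp only [Complex.add_im, Complex.real_smul, Complex.mul_im, Complex.ofReal_re,
            Complex.ofReal_im, zero_mul, add_zero]
          linarith
      refine hV p hpV ?_
      have ha' : a ∈ ((V : Set ℂ) \ {p}) := ⟨haV, fun h => hpa h.symm⟩
      have hq' : q ∈ ((V : Set ℂ) \ {p}) := ⟨hqV, fun h => hpq h.symm⟩
      exact segment_subset_convexHull ha' hq' hseg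
    rcases lt_trichotomy p.im q.im with hl | hl | hl
    · exact main p q hp'.2 hq'.2 hp'.1 hq'.1 hpq hpi hqi h hl
    · exact hpq (him p hp'.2 q hq'.2 hl)
    · exact main q p hq'.2 hp'.2 hq'.1 hp'.1 (Ne.symm hpq) hqi hpi h.symm hl
  obtain ⟨Q, hQ, hQlt⟩ := exists_sorted (V.erase a) (key a) hkey
  have hcard : (V.erase a).card = V.card - 1 := Finset.card_erase_of_mem haV
  let P : ℕ → ℂ := fun i => if h : 1 ≤ i ∧ i - 1 < (V.erase a).card then Q ⟨i - 1, h.2⟩ else a
  have hP0 : P 0 = a := by simp [P]
  have hPpos : ∀ i, 1 ≤ i → i < V.card → ∃ h : i - 1 < (V.erase a).card, P i = Q ⟨i - 1, h⟩ := by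
    intro i h1 h2
    have h : i - 1 < (V.erase a).card := by omega
    exact ⟨h, by simp [P, h1, h]⟩
  have hmem : ∀ i, 1 ≤ i → i < V.card → P i ∈ V ∧ P i ≠ a := by
    intro i h1 h2
    obtain ⟨h, hi⟩ := hPpos i h1 h2
    have := Finset.mem_erase.1 (hQ ⟨i - 1, h⟩)
    rw [hi]
    exact ⟨this.2, this.1⟩
  have hmono : ∀ i j, 1 ≤ i → i < j → j < V.card → key a (P i) < key a (P j) := by
    intro i j h1 hij h2
    obtain ⟨h, hi⟩ := hPpos i h1 (hij.trans h2)
    obtain ⟨h', hj⟩ := hPpos j (h1.trans hij.le) h2
    rw [hi, hj]
    exact hQlt _ _ (by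
      rw [Fin.lt_def]
      simp only
      omega)
  have hor0 : ∀ i j, 1 ≤ i → i < j → j < V.card → 0 < orient a (P i) (P j) := by
    intro i j h1 hij h2
    have hi := hmem i h1 (hij.trans h2)
    have hj := hmem j (h1.trans hij.le) h2
    have e1 := hlt _ hi.1 hi.2
    have e2 := hlt _ hj.1 hj.2
    rw [orient_eq_key e1 e2]
    have := hmono i j h1 hij h2
    exact mul_pos (mul_pos (by linarith) (by linarith)) (by linarith)
  refine ⟨P, ?_, ?_, ?_⟩
  · intro i hi
    rcases Nat.eq_zero_or_pos i with h | h
    · rw [h, hP0]; exact haV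
    · exact (hmem i h hi).1
  · intro i hi
    rw [hP0]
    rcases Nat.eq_zero_or_pos i with h | h
    · rw [h, hP0]
    · exact hamin _ (hmem i h hi).1
  · intro i j l hij hjl hl
    rcases Nat.eq_zero_or_pos i with h | h
    · rw [h, hP0]
      exact hor0 j l (by omega) hjl hl
    · by_contra hcon
      push Not at hcon
      have hi := hmem i h (by omega)
      have hj := hmem j (by omega) (by omega)
      have hl' := hmem l (by omega) hl
      have hT : 0 < orient a (P i) (P l) := hor0 i l h (by omega) hl
      have h1 : 0 ≤ orient (P j) (P i) (P l) := by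
        rw [orient_swap]; linarith
      have h2 : 0 ≤ orient a (P j) (P l) := (hor0 j l (by omega) hjl hl).le
      have h3' : 0 ≤ orient a (P i) (P j) := (hor0 i j h hij (by omega)).le
      have hx := mem_hull_of_orient hT h1 h2 h3'
      refine hV (P j) hj.1 (convexHull_mono ?_ hx)
      have hne1 : P i ≠ P j := by
        intro he
        have := hmono i j h hij (by omega)
        rw [he] at this
        exact lt_irrefl _ this
      have hne2 : P l ≠ P j := by
        intro he
        have := hmono j l (by omega) hjl hl
        rw [he] at this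
        exact lt_irrefl _ this
      intro z hz
      simp only [Set.mem_insert_iff, Set.mem_singleton_iff] at hz
      rcases hz with rfl | rfl | rfl
      · exact ⟨haV, fun h => hj.2 h.symm⟩
      · exact ⟨hi.1, hne1⟩
      · exact ⟨hl'.1, hne2⟩

end Pool.Agent.Heil
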