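import Pool.Agent.Heil.Perim

/-! The exterior angles of a convex polygon sum to `2 π`. -/

namespace Pool.Agent.Heil

open Finset Real

theorem cross_eq (z w : ℂ) :
    z.re * w.im - z.im * w.re = ‖z‖ * ‖w‖ * sin (w.arg - z.arg) := by
  have h1 := Complex.norm_mul_cos_arg z
  have h2 := Complex.norm_mul_sin_arg z
  have h3 := Complex.norm_mul_cos_arg w
  have h4 := Complex.norm_mul_sin_arg w
  rw [← h1, ← h2, ← h3, ← h4, sin_sub]
  ring

theorem orient_eq_cross (a b c : ℂ) :
    orient a b c = (b - a).re * (c - b).im - (b - a).im * (c - b).re := by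
  unfold orient
  simp only [Complex.sub_re, Complex.sub_im]
  ring

/-- The turning angles of a convex polygon. -/
theorem exists_turn {P : ℕ → ℂ} {m : ℕ} (hm : 3 ≤ m) (hper : ∀ i, P (i + m) = P i)
    (hpos : ∀ i j l, i < j → j < l → l < m → 0 < orient (P i) (P j) (P l))
    (hmin : ∀ i, i < m → (P 0).im ≤ (P i).im)
    (him : ∀ i j, i < m → j < m → i ≠ j → (P i).im ≠ (P j).im) :
    ∃ t : ℕ → ℝ, (∀ i, i < m → 0 ≤ t i) ∧ (∑ i ∈ range m, t i = 2 * π) ∧
      ∀ i, i < m → orient (P i) (P (i + 1)) (P (i + 2))
        = ‖P (i + 1) - P i‖ * ‖P (i + 2) - P (i + 1)‖ * sin (t i) := by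
  have hpi := pi_pos
  have hne : (range m).Nonempty := ⟨0, Finset.mem_range.2 (by omega)⟩
  obtain ⟨b, hb, hbmax⟩ := (range m).exists_max_image (fun i => (P i).im) hne
  have hb' := Finset.mem_range.1 hb
  have hbmax' : ∀ i, i < m → (P i).im ≤ (P b).im := fun i hi => hbmax i (Finset.mem_range.2 hi)
  have hb0 : 0 < b := by
    rcases Nat.eq_zero_or_pos b with h | h
    · exfalso
      rw [h] at hbmax'
      have h1 := hbmax' 1 (by omega)
      have h2 := hmin 1 (by omega)
      exact him 0 1 (by omega) (by omega) (by omega) (le_antisymm h2 h1)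
    · exact h
  have hU := unimodal (P := P) hper hpos 0 1 hb' (by simpa [lin] using hmin)
    (by simpa [lin] using hbmax')
  simp only [lin, zero_mul, one_mul, zero_add] at hU
  set e : ℕ → ℂ := fun i => P (i + 1) - P i with he
  have heper : ∀ i, e (i + m) = e i := by
    intro i
    simp only [he]
    rw [show i + m + 1 = (i + 1) + m by ring, hper, hper]
  have hup : ∀ i, i < b → 0 < (e i).im := by
    intro i hi
    have h1 := hU.1 i hi
    have h2 := him i (i + 1) (by omega) (by omega) (by omega)
    simp only [he, Complex.sub_im]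
    exact sub_pos.2 (lt_of_le_of_ne h1 h2)
  have hdown : ∀ i, b ≤ i → i < m → (e i).im < 0 := by
    intro i hi hi'
    have h1 := hU.2 i hi hi'
    simp only [he, Complex.sub_im]
    refine sub_neg.2 (lt_of_le_of_ne h1 ?_)
    rcases Nat.eq_or_lt_of_le (show i + 1 ≤ m by omega) with h | h
    · have : i + 1 = 0 + m := by omega
      rw [this, hper]
      exact him 0 i (by omega) hi' (by omega)
    · exact him (i + 1) i h hi' (by omega)
  have hargup : ∀ i, i < b → 0 ≤ (e i).arg := fun i hi => Complex.arg_nonneg_iff.2 (hup i hi).le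
  have hargdown : ∀ i, b ≤ i → i < m → (e i).arg < 0 := fun i h1 h2 =>
    Complex.arg_neg_iff.2 (hdown i h1 h2)
  have hcross : ∀ i, orient (P i) (P (i + 1)) (P (i + 2))
      = ‖e i‖ * ‖e (i + 1)‖ * sin ((e (i + 1)).arg - (e i).arg) := by
    intro i
    rw [orient_eq_cross, ← cross_eq]
  have hcpos : ∀ i, i < m → 0 < orient (P i) (P (i + 1)) (P (i + 2)) := by
    intro i hi
    have := pos_shift hper hpos i 0 1 2 (by omega) (by omega) (by omega)
    simpa using this
  have hsin : ∀ i, i < m → 0 < sin ((e (i + 1)).arg - (e i).arg) := by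
    intro i hi
    have h := hcpos i hi
    rw [hcross] at h
    by_contra hcon
    push Not at hcon
    exact absurd h (not_lt.2 (mul_nonpos_of_nonneg_of_nonpos (by positivity) hcon))
  have hdiff : ∀ i, i < m → -π ≤ (e (i + 1)).arg - (e i).arg → 0 ≤ (e (i + 1)).arg - (e i).arg := by
    intro i hi h
    by_contra hcon
    push Not at hcon
    exact absurd (hsin i hi) (not_lt.2 (sin_nonpos_of_nonpos_of_neg_pi_le hcon.le h))
  refine ⟨fun i => (e (i + 1)).arg - (e i).arg + if i + 1 = b then 2 * π else 0, ?_, ?_, ?_⟩
  · intro i hi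
    by_cases h : i + 1 = b
    · simp only [h, if_true]
      have h1 := Complex.neg_pi_lt_arg (e b)
      have h2 := Complex.arg_le_pi (e i)
      linarith
    · simp only [h, if_false, add_zero]
      rcases Nat.lt_or_ge (i + 1) b with h1 | h1
      · refine hdiff i hi ?_
        have h2 := hargup (i + 1) h1
        have h3 := Complex.arg_le_pi (e i)
        linarith
      · have hbi : b ≤ i := by omega
        rcases Nat.lt_or_ge (i + 1) m with h2 | h2
        · refine hdiff i hi ?_
          have h3 := Complex.neg_pi_lt_arg (e (i + 1))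
          have h4 := hargdown i hbi hi
          linarith
        · have h5 : i + 1 = 0 + m := by omega
          rw [h5, heper]
          have h3 := hargup 0 hb0
          have h4 := hargdown i hbi hi
          linarith
  · rw [Finset.sum_add_distrib, Finset.sum_range_sub (fun i => (e i).arg) m]
    have h0 : e m = e 0 := by simpa using heper 0
    rw [h0, sub_self, zero_add]
    rw [Finset.sum_eq_single (b - 1)]
    · rw [if_pos (by omega)]
    · intro i _ hi
      rw [if_neg (by omega)]
    · intro h
      exact absurd (Finset.mem_range.2 (by omega)) h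
  · intro i hi
    rw [hcross]
    congr 1
    by_cases h : i + 1 = b
    · simp only [h, if_true]
      rw [sin_add_two_pi]
    · simp only [h, if_false, add_zero]

end Pool.Agent.Heil
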