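import Pool.Agent.Heil.Enum
import Pool.Agent.Heil.Turn

/-! `m` points in convex position in the unit disk span a triangle of area at most `4 π³ / m³`. -/

namespace Pool.Agent.Heil

open Finset Real

/-! ### Rotations -/

theorem exists_rot (V : Finset ℂ) :
    ∃ w : ℂ, ‖w‖ = 1 ∧ ∀ p ∈ V, ∀ q ∈ V, (w * p).im = (w * q).im → p = q := by
  classical
  -- the bad rotations
  let bad : ℂ × ℂ → Finset ℂ := fun d =>
    {(‖d.1 - d.2‖ : ℂ) / (d.1 - d.2), -((‖d.1 - d.2‖ : ℂ) / (d.1 - d.2))}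
  let B : Finset ℂ := (V ×ˢ V).biUnion bad
  have hinf : (Metric.sphere (0 : ℂ) 1).Infinite := by
    have h : Set.InjOn (fun x : ℝ => Complex.exp (x * Complex.I)) (Set.Ioo 0 1) := by
      intro x hx y hy hxy
      have hpi := pi_gt_three
      have h1 : (Complex.exp (x * Complex.I)).arg = x :=
        Complex.arg_exp_mul_I x |>.trans (by
          rw [toIocMod_eq_iff]
          refine ⟨⟨by linarith [hx.1], by linarith [hx.2]⟩, 0, by simp⟩)
      have h2 : (Complex.exp (y * Complex.I)).arg = y :=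
        Complex.arg_exp_mul_I y |>.trans (by
          rw [toIocMod_eq_iff]
          refine ⟨⟨by linarith [hy.1], by linarith [hy.2]⟩, 0, by simp⟩)
      simp only at hxy
      rw [← h1, ← h2, hxy]
    refine ((Set.Ioo_infinite (by norm_num : (0 : ℝ) < 1)).image h).mono ?_
    rintro _ ⟨x, _, rfl⟩
    simp only [mem_sphere_iff_norm, sub_zero]
    exact Complex.norm_exp_ofReal_mul_I x
  obtain ⟨w, hw, hwB⟩ := hinf.exists_notMem_finset B
  refine ⟨w, by simpa using hw, ?_⟩
  intro p hp q hq h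
  by_contra hpq
  have hw1 : ‖w‖ = 1 := by simpa using hw
  have hd : p - q ≠ 0 := sub_ne_zero.2 hpq
  have him : (w * (p - q)).im = 0 := by
    rw [mul_sub, Complex.sub_im, h, sub_self]
  have hreal : w * (p - q) = ((w * (p - q)).re : ℂ) := by
    apply Complex.ext
    · simp
    · simp [him]
  have hn : |(w * (p - q)).re| = ‖p - q‖ := by
    rw [← Real.norm_eq_abs, ← Complex.norm_real, ← hreal, norm_mul, hw1, one_mul]
  apply hwB
  refine Finset.mem_biUnion.2 ⟨(p, q), Finset.mem_product.2 ⟨hp, hq⟩, ?_⟩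
  simp only [bad, Finset.mem_insert, Finset.mem_singleton]
  rcases abs_eq (norm_nonneg (p - q)) |>.1 hn with h1 | h1
  · left
    rw [eq_div_iff hd, hreal, h1]
  · right
    rw [← neg_div, eq_div_iff hd, hreal, h1]
    push_cast
    ring

theorem orient_mul (w a b c : ℂ) : orient (w * a) (w * b) (w * c) = ‖w‖ ^ 2 * orient a b c := by
  rw [← Complex.normSq_eq_norm_sq, Complex.normSq_apply]
  unfold orient
  simp only [Complex.mul_re, Complex.mul_im]
  ring

theorem convexPos_image {V : Finset ℂ} (hV : ConvexPos V) {w : ℂ} (hw : w ≠ 0) [DecidableEq ℂ] :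
    ConvexPos (V.image (w * ·)) := by
  intro p hp hmem
  obtain ⟨q, hq, rfl⟩ := Finset.mem_image.1 hp
  refine hV q hq ?_
  -- multiply by the inverse
  have hlin : IsLinearMap ℝ (fun z : ℂ => w⁻¹ * z) :=
    ⟨fun x y => by ring, fun c x => by simp [mul_left_comm]⟩
  have himg := hlin.image_convexHull (((V.image (w * ·) : Finset ℂ) : Set ℂ) \ {w * q})
  have h1 : w⁻¹ * (w * q) ∈ convexHull ℝ ((fun z : ℂ => w⁻¹ * z) ''
      ((((V.image (w * ·) : Finset ℂ) : Set ℂ) \ {w * q}))) := by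
    rw [← himg]
    exact ⟨_, hmem, rfl⟩
  rw [inv_mul_cancel_left₀ hw] at h1
  refine convexHull_mono ?_ h1
  rintro _ ⟨z, ⟨hz, hz'⟩, rfl⟩
  obtain ⟨y, hy, rfl⟩ := Finset.mem_image.1 (Finset.mem_coe.1 hz)
  simp only [inv_mul_cancel_left₀ hw]
  refine ⟨hy, fun h => hz' ?_⟩
  rw [Set.mem_singleton_iff] at h ⊢
  rw [h]

/-! ### The inequality of the means -/

theorem prod_le_pow {m : ℕ} (hm : 0 < m) {x : ℕ → ℝ} (hx : ∀ i, i < m → 0 ≤ x i) {s : ℝ}
    (hs : ∑ i ∈ range m, x i ≤ s) : ∏ i ∈ range m, x i ≤ (s / m) ^ m := by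
  have hm' : (0 : ℝ) < m := by exact_mod_cast hm
  have key := Real.geom_mean_le_arith_mean_weighted (range m) (fun _ => (1 : ℝ) / m) x
    (fun i _ => by positivity) (by simp [hm'.ne']) (fun i hi => hx i (Finset.mem_range.1 hi))
  have h0 : 0 ≤ ∏ i ∈ range m, x i := Finset.prod_nonneg fun i hi => hx i (Finset.mem_range.1 hi)
  have h1 : ∏ i ∈ range m, x i ^ ((1 : ℝ) / m) = (∏ i ∈ range m, x i) ^ ((1 : ℝ) / m) := by
    rw [Real.finsetProd_rpow _ _ fun i hi => hx i (Finset.mem_range.1 hi)]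
  have h2 : ∑ i ∈ range m, (1 : ℝ) / m * x i ≤ s / m := by
    rw [← Finset.mul_sum, one_div, inv_mul_eq_div]
    gcongr
  rw [h1] at key
  have h3 := key.trans h2
  have h4 : ((∏ i ∈ range m, x i) ^ ((1 : ℝ) / m)) ^ m = ∏ i ∈ range m, x i := by
    rw [← Real.rpow_natCast, ← Real.rpow_mul h0, one_div, inv_mul_cancel₀ hm'.ne', Real.rpow_one]
  rw [← h4]
  exact pow_le_pow_left₀ (Real.rpow_nonneg h0 _) h3 m

/-- Three consecutive vertices of a convex polygon span a triangle of area at most `4π³/m³`. -/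
theorem exists_consecutive {P : ℕ → ℂ} {m : ℕ} (hm : 3 ≤ m) (hper : ∀ i, P (i + m) = P i)
    (hpos : ∀ i j l, i < j → j < l → l < m → 0 < orient (P i) (P j) (P l))
    (hmin : ∀ i, i < m → (P 0).im ≤ (P i).im)
    (him : ∀ i j, i < m → j < m → i ≠ j → (P i).im ≠ (P j).im) (hD : ∀ i, ‖P i‖ ≤ 1) :
    ∃ i, i < m ∧ 0 < orient (P i) (P (i + 1)) (P (i + 2)) ∧
      orient (P i) (P (i + 1)) (P (i + 2)) ≤ (2 * π / m) ^ 3 := by
  have hm' : (0 : ℝ) < m := by exact_mod_cast (show 0 < m by omega)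
  have hpi := pi_pos
  have hcpos : ∀ i, i < m → 0 < orient (P i) (P (i + 1)) (P (i + 2)) := by
    intro i hi
    have := pos_shift hper hpos i 0 1 2 (by omega) (by omega) (by omega)
    simpa using this
  by_contra hcon
  push Not at hcon
  have hbig : ∀ i, i < m → (2 * π / m) ^ 3 < orient (P i) (P (i + 1)) (P (i + 2)) :=
    fun i hi => hcon i hi (hcpos i hi)
  obtain ⟨t, ht0, htsum, ht⟩ := exists_turn hm hper hpos hmin him
  have hper' := perim_le (by omega) hper hpos hD
  have hprod1 : ∏ i ∈ range m, ‖P (i + 1) - P i‖ ≤ (2 * π / m) ^ m :=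
    prod_le_pow (by omega) (fun i _ => norm_nonneg _) hper'
  have hprod2 : ∏ i ∈ range m, t i ≤ (2 * π / m) ^ m :=
    prod_le_pow (by omega) ht0 htsum.le
  have hshift : ∏ i ∈ range m, ‖P (i + 2) - P (i + 1)‖ = ∏ i ∈ range m, ‖P (i + 1) - P i‖ := by
    have h1 : ∏ i ∈ range (m + 1), ‖P (i + 1) - P i‖
        = (∏ i ∈ range m, ‖P (i + 1) - P i‖) * ‖P (m + 1) - P m‖ := Finset.prod_range_succ _ _
    have h2 : ∏ i ∈ range (m + 1), ‖P (i + 1) - P i‖
        = (∏ i ∈ range m, ‖P (i + 2) - P (i + 1)‖) * ‖P 1 - P 0‖ := by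
      rw [Finset.prod_range_succ']
    have h3 : ‖P (m + 1) - P m‖ = ‖P 1 - P 0‖ := by
      rw [show m + 1 = 1 + m by ring, hper 1]
      have : P m = P 0 := by simpa using hper 0
      rw [this]
    have h4 : 0 < ‖P 1 - P 0‖ := by
      rw [norm_pos_iff, sub_ne_zero]
      intro h
      exact him 1 0 (by omega) (by omega) (by omega) (by rw [h])
    rw [h3] at h1
    exact mul_right_cancel₀ h4.ne' (h2.symm.trans h1)
  have hlt : ∏ i ∈ range m, (2 * π / m) ^ 3 < ∏ i ∈ range m, orient (P i) (P (i + 1)) (P (i + 2)) := by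
    refine Finset.prod_lt_prod_of_nonempty (fun i _ => by positivity) (fun i hi => ?_)
      ⟨0, Finset.mem_range.2 (by omega)⟩
    exact hbig i (Finset.mem_range.1 hi)
  have hle : ∏ i ∈ range m, orient (P i) (P (i + 1)) (P (i + 2))
      ≤ ∏ i ∈ range m, (‖P (i + 1) - P i‖ * ‖P (i + 2) - P (i + 1)‖ * t i) := by
    refine Finset.prod_le_prod (fun i hi => (hcpos i (Finset.mem_range.1 hi)).le) fun i hi => ?_
    have hi' := Finset.mem_range.1 hi
    rw [ht i hi']
    exact mul_le_mul_of_nonneg_left (sin_le (ht0 i hi')) (by positivity)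
  rw [Finset.prod_mul_distrib, Finset.prod_mul_distrib, hshift] at hle
  have hp0 : 0 ≤ ∏ i ∈ range m, ‖P (i + 1) - P i‖ := Finset.prod_nonneg fun i _ => norm_nonneg _
  have ht0' : 0 ≤ ∏ i ∈ range m, t i :=
    Finset.prod_nonneg fun i hi => ht0 i (Finset.mem_range.1 hi)
  have hx0 : (0 : ℝ) ≤ (2 * π / m) ^ m := by positivity
  have hfin : (∏ i ∈ range m, ‖P (i + 1) - P i‖) * (∏ i ∈ range m, ‖P (i + 1) - P i‖)
      * ∏ i ∈ range m, t i ≤ (2 * π / m) ^ m * (2 * π / m) ^ m * (2 * π / m) ^ m :=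
    mul_le_mul (mul_le_mul hprod1 hprod1 hp0 hx0) hprod2 ht0' (mul_nonneg hx0 hx0)
  have hconst : ∏ _i ∈ range m, (2 * π / m) ^ 3
      = (2 * π / m) ^ m * (2 * π / m) ^ m * (2 * π / m) ^ m := by
    rw [Finset.prod_const, Finset.card_range, ← pow_mul, ← pow_add, ← pow_add]
    congr 1
    ring
  rw [hconst] at hlt
  linarith

/-- **Upper bound.**  `m ≥ 3` points in convex position in the unit disk contain three distinct
points spanning a triangle of area at most `4 π³ / m³`. -/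
theorem exists_small_triangle {V : Finset ℂ} (hV : ConvexPos V) (h3 : 3 ≤ V.card)
    (hD : ∀ z ∈ V, ‖z‖ ≤ 1) :
    ∃ a ∈ V, ∃ b ∈ V, ∃ c ∈ V, a ≠ b ∧ a ≠ c ∧ b ≠ c ∧
      triArea a b c ≤ 4 * π ^ 3 / (V.card : ℝ) ^ 3 := by
  classical
  obtain ⟨w, hw, hwV⟩ := exists_rot V
  have hw0 : w ≠ 0 := by
    rw [← norm_pos_iff, hw]; norm_num
  set W := V.image (w * ·) with hWdef
  have hinj : Function.Injective (w * · : ℂ → ℂ) := mul_right_injective₀ hw0
  have hcard : W.card = V.card := Finset.card_image_of_injective _ hinj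
  have hW := convexPos_image hV hw0
  have hWim : ∀ p ∈ W, ∀ q ∈ W, p.im = q.im → p = q := by
    intro p hp q hq h
    obtain ⟨p', hp', rfl⟩ := Finset.mem_image.1 hp
    obtain ⟨q', hq', rfl⟩ := Finset.mem_image.1 hq
    rw [hwV p' hp' q' hq' h]
  obtain ⟨P, hPW, hPmin, hPpos⟩ := exists_enum hW (hcard.symm ▸ h3) hWim
  rw [hcard] at hPW hPmin hPpos
  set m := V.card with hm
  set Q : ℕ → ℂ := fun i => P (i % m) with hQ
  have hm0 : 0 < m := by omega
  have hQi : ∀ i, i < m → Q i = P i := fun i hi => by simp [hQ, Nat.mod_eq_of_lt hi]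
  have hQper : ∀ i, Q (i + m) = Q i := fun i => by simp [hQ]
  have hQpos : ∀ i j l, i < j → j < l → l < m → 0 < orient (Q i) (Q j) (Q l) := by
    intro i j l hij hjl hl
    rw [hQi i (by omega), hQi j (by omega), hQi l hl]
    exact hPpos i j l hij hjl hl
  have hQW : ∀ i, Q i ∈ W := fun i => hPW _ (Nat.mod_lt _ hm0)
  have hPinj : ∀ i j, i < j → j < m → P i ≠ P j := by
    intro i j hij hj h
    -- there is a third index
    rcases Nat.eq_zero_or_pos i with h0 | h0
    · rcases Nat.lt_or_ge (j + 1) m with h1 | h1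
      · have := hPpos i j (j + 1) hij (by omega) h1
        rw [h, orient_self_left] at this
        exact lt_irrefl _ this
      · have := hPpos i 1 j (by omega) (by omega) hj
        rw [h, orient_self_mid] at this
        exact lt_irrefl _ this
    · have := hPpos 0 i j h0 hij hj
      rw [h, orient_self_right] at this
      exact lt_irrefl _ this
  have hQim : ∀ i j, i < m → j < m → i ≠ j → (Q i).im ≠ (Q j).im := by
    intro i j hi hj hij h
    have := hWim _ (hQW i) _ (hQW j) h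
    rw [hQi i hi, hQi j hj] at this
    rcases Nat.lt_or_gt_of_ne hij with h' | h'
    · exact hPinj i j h' hj this
    · exact hPinj j i h' hi this.symm
  have hQD : ∀ i, ‖Q i‖ ≤ 1 := by
    intro i
    obtain ⟨z, hz, hzi⟩ := Finset.mem_image.1 (hQW i)
    rw [← hzi]
    simp only [norm_mul, hw, one_mul]
    exact hD z hz
  obtain ⟨i, hi, hipos, hile⟩ := exists_consecutive h3 hQper hQpos
    (fun i hi => by rw [hQi i hi, hQi 0 hm0]; exact hPmin i hi) hQim hQD
  obtain ⟨a, ha, hai⟩ := Finset.mem_image.1 (hQW i)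
  obtain ⟨b, hb, hbi⟩ := Finset.mem_image.1 (hQW (i + 1))
  obtain ⟨c, hc, hci⟩ := Finset.mem_image.1 (hQW (i + 2))
  have horient : orient (Q i) (Q (i + 1)) (Q (i + 2)) = orient a b c := by
    rw [← hai, ← hbi, ← hci, orient_mul, hw]
    ring
  rw [horient] at hipos hile
  refine ⟨a, ha, b, hb, c, hc, ?_, ?_, ?_, ?_⟩
  · rintro rfl
    rw [orient_self_left] at hipos
    exact lt_irrefl _ hipos
  · rintro rfl
    rw [orient_self_mid] at hipos
    exact lt_irrefl _ hipos
  · rintro rfl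
    rw [orient_self_right] at hipos
    exact lt_irrefl _ hipos
  · rw [triArea_eq, abs_of_pos hipos]
    have hm' : (0 : ℝ) < m := by exact_mod_cast hm0
    have : (2 * π / m) ^ 3 / 2 = 4 * π ^ 3 / (m : ℝ) ^ 3 := by
      field_simp
      ring
    rw [← this]
    linarith

end Pool.Agent.Heil
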