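import Pool.Agent.Heil.Lower2
import Pool.Agent.Heil.Upper

/-! The final bounds for sets with few convex layers. -/

namespace Pool.Agent.Heil

open Finset Real

theorem triArea_le_four {a b c : ℂ} (ha : ‖a‖ ≤ 1) (hb : ‖b‖ ≤ 1) (hc : ‖c‖ ≤ 1) :
    triArea a b c ≤ 4 := by
  have hre : ∀ z : ℂ, ‖z‖ ≤ 1 → |z.re| ≤ 1 := fun z hz => (Complex.abs_re_le_norm z).trans hz
  have him : ∀ z : ℂ, ‖z‖ ≤ 1 → |z.im| ≤ 1 := fun z hz => (Complex.abs_im_le_norm z).trans hz
  have a1 := abs_le.1 (hre a ha)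
  have a2 := abs_le.1 (him a ha)
  have b1 := abs_le.1 (hre b hb)
  have b2 := abs_le.1 (him b hb)
  have c1 := abs_le.1 (hre c hc)
  have c2 := abs_le.1 (him c hc)
  have h1 : |(b.re - a.re) * (c.im - a.im)| ≤ 2 * 2 := by
    rw [abs_mul]
    exact mul_le_mul (abs_le.2 ⟨by linarith, by linarith⟩) (abs_le.2 ⟨by linarith, by linarith⟩)
      (abs_nonneg _) (by norm_num)
  have h2 : |(b.im - a.im) * (c.re - a.re)| ≤ 2 * 2 := by
    rw [abs_mul]
    exact mul_le_mul (abs_le.2 ⟨by linarith, by linarith⟩) (abs_le.2 ⟨by linarith, by linarith⟩)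
      (abs_nonneg _) (by norm_num)
  have h3 := abs_sub ((b.re - a.re) * (c.im - a.im)) ((b.im - a.im) * (c.re - a.re))
  unfold triArea
  linarith

theorem minArea_le {S : Finset ℂ} {a b c : ℂ} (ha : a ∈ S) (hb : b ∈ S) (hc : c ∈ S)
    (hab : a ≠ b) (hac : a ≠ c) (hbc : b ≠ c) : minArea S ≤ triArea a b c := by
  refine csInf_le ⟨0, ?_⟩ ⟨a, ha, b, hb, c, hc, hab, hac, hbc, rfl⟩
  rintro t ⟨x, -, y, -, z, -, -, -, -, rfl⟩
  exact triArea_nonneg _ _ _

theorem le_minArea {S : Finset ℂ} (hS : 3 ≤ S.card) {t : ℝ}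
    (h : ∀ a ∈ S, ∀ b ∈ S, ∀ c ∈ S, a ≠ b → a ≠ c → b ≠ c → t ≤ triArea a b c) :
    t ≤ minArea S := by
  obtain ⟨a, b, c, ha, hb, hc, hab, hac, hbc⟩ := Finset.two_lt_card_iff.1 (show 2 < S.card by omega)
  refine le_csInf ⟨_, a, ha, b, hb, c, hc, hab, hac, hbc, rfl⟩ ?_
  rintro t ⟨x, hx, y, hy, z, hz, h1, h2, h3, rfl⟩
  exact h x hx y hy z hz h1 h2 h3

/-- The supremum of `minArea S` over all sets `S` of `n` points of the closed unit disk with at most
`k` convex layers. -/
noncomputable def alphaLayers (k n : ℕ) : ℝ :=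
  sSup {t : ℝ | ∃ S : Finset ℂ, S.card = n ∧ (∀ z ∈ S, ‖z‖ ≤ 1) ∧ peel^[k] S = ∅ ∧ t = minArea S}

/-- The supremum of `minArea S` over all sets `S` of `n` points of the closed unit disk which are
unions of `k` sets in convex position. -/
noncomputable def alphaUnion (k n : ℕ) : ℝ :=
  sSup {t : ℝ | ∃ S : Finset ℂ, S.card = n ∧ (∀ z ∈ S, ‖z‖ ≤ 1) ∧
    (∃ V : Fin k → Finset ℂ, (∀ i, ConvexPos (V i)) ∧ (S : Set ℂ) = ⋃ i, (V i : Set ℂ)) ∧
    t = minArea S}

/-- A set with at most `k` layers is the union of `k` sets in convex position. -/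
theorem union_of_layers (k : ℕ) : ∀ S : Finset ℂ, peel^[k] S = ∅ →
    ∃ V : Fin k → Finset ℂ, (∀ i, ConvexPos (V i)) ∧ (S : Set ℂ) = ⋃ i, (V i : Set ℂ) := by
  classical
  induction k with
  | zero =>
    intro S hS
    simp only [Function.iterate_zero, id_eq] at hS
    subst hS
    exact ⟨fun i => i.elim0, fun i => i.elim0, by simp⟩
  | succ k ih =>
    intro S hS
    rw [Function.iterate_succ_apply] at hS
    obtain ⟨V, hV, hU⟩ := ih _ hS
    have hconv : ConvexPos (S \ peel S) := by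
      intro p hp hmem
      obtain ⟨hpS, hpp⟩ := Finset.mem_sdiff.1 hp
      apply hpp
      refine mem_peel.2 ⟨hpS, convexHull_mono ?_ hmem⟩
      intro q hq
      exact ⟨(Finset.mem_sdiff.1 (Finset.mem_coe.1 hq.1)).1, hq.2⟩
    refine ⟨Fin.cons (S \ peel S) V, ?_, ?_⟩
    · intro i
      refine Fin.cases ?_ (fun j => ?_) i
      · simpa using hconv
      · simpa using hV j
    · have h1 : (⋃ i : Fin (k + 1), ((Fin.cons (S \ peel S) V : Fin (k + 1) → Finset ℂ) i : Set ℂ))
          = ((S \ peel S : Finset ℂ) : Set ℂ) ∪ ⋃ i, (V i : Set ℂ) := by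
        ext z
        simp only [Set.mem_iUnion, Set.mem_union]
        constructor
        · rintro ⟨i, hi⟩
          revert hi
          refine Fin.cases ?_ (fun j => ?_) i
          · intro hi; left; simpa using hi
          · intro hi; right; exact ⟨j, by simpa using hi⟩
        · rintro (h | ⟨j, hj⟩)
          · exact ⟨0, by simpa using h⟩
          · exact ⟨j.succ, by simpa using hj⟩
      rw [h1, ← hU]
      ext z
      simp only [Set.mem_union, Finset.mem_coe, Finset.mem_sdiff]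
      constructor
      · intro hz
        by_cases h : z ∈ peel S
        · exact Or.inr h
        · exact Or.inl ⟨hz, h⟩
      · rintro (h | h)
        · exact h.1
        · exact peel_subset S h

/-- The upper bound. -/
theorem minArea_union_le {k n : ℕ} (hk : 1 ≤ k) (hn : 3 ≤ n) {S : Finset ℂ} (hcard : S.card = n)
    (hdisk : ∀ z ∈ S, ‖z‖ ≤ 1) {V : Fin k → Finset ℂ} (hV : ∀ i, ConvexPos (V i))
    (hU : (S : Set ℂ) = ⋃ i, (V i : Set ℂ)) :
    minArea S ≤ 4 * π ^ 3 * ((k : ℝ) / n) ^ 3 := by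
  classical
  have hpi := pi_gt_three
  have hk' : (1 : ℝ) ≤ k := by exact_mod_cast hk
  have hn' : (3 : ℝ) ≤ n := by exact_mod_cast hn
  have hsub : ∀ i, V i ⊆ S := by
    intro i z hz
    have : z ∈ (S : Set ℂ) := by
      rw [hU]
      exact Set.mem_iUnion.2 ⟨i, hz⟩
    exact this
  have hSU : S ⊆ univ.biUnion V := by
    intro z hz
    have : z ∈ (S : Set ℂ) := hz
    rw [hU] at this
    obtain ⟨i, hi⟩ := Set.mem_iUnion.1 this
    exact Finset.mem_biUnion.2 ⟨i, Finset.mem_univ _, hi⟩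
  -- a large part
  obtain ⟨i, hi⟩ : ∃ i, n ≤ k * (V i).card := by
    by_contra hcon
    push Not at hcon
    have h1 : n ≤ ∑ i, (V i).card := by
      rw [← hcard]
      exact (Finset.card_le_card hSU).trans Finset.card_biUnion_le
    have h2 : k * n ≤ ∑ i, k * (V i).card := by
      rw [← Finset.mul_sum]
      exact Nat.mul_le_mul_left k h1
    have h3 : ∑ i, k * (V i).card < ∑ _i : Fin k, n := by
      have : Nonempty (Fin k) := ⟨⟨0, by omega⟩⟩
      exact Finset.sum_lt_sum_of_nonempty Finset.univ_nonempty fun i _ => hcon i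
    rw [Finset.sum_const, Finset.card_univ, Fintype.card_fin, smul_eq_mul] at h3
    omega
  by_cases h3 : 3 ≤ (V i).card
  · obtain ⟨a, ha, b, hb, c, hc, hab, hac, hbc, harea⟩ :=
      exists_small_triangle (hV i) h3 (fun z hz => hdisk z (hsub i hz))
    refine (minArea_le (hsub i ha) (hsub i hb) (hsub i hc) hab hac hbc).trans (harea.trans ?_)
    have hc0 : (0 : ℝ) < ((V i).card : ℝ) := by
      have : 0 < (V i).card := by omega
      exact_mod_cast this
    have h4 : (1 : ℝ) / (V i).card ≤ k / n := by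
      rw [div_le_div_iff₀ hc0 (by linarith)]
      have : (n : ℝ) ≤ k * (V i).card := by exact_mod_cast hi
      linarith
    have h5 : 4 * π ^ 3 / ((V i).card : ℝ) ^ 3 = 4 * π ^ 3 * (1 / ((V i).card : ℝ)) ^ 3 := by
      field_simp
    rw [h5]
    have h6 : (1 / ((V i).card : ℝ)) ^ 3 ≤ ((k : ℝ) / n) ^ 3 :=
      pow_le_pow_left₀ (by positivity) h4 3
    exact mul_le_mul_of_nonneg_left h6 (by positivity)
  · obtain ⟨a, b, c, ha, hb, hc, hab, hac, hbc⟩ :=
      Finset.two_lt_card_iff.1 (show 2 < S.card by omega)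
    refine (minArea_le ha hb hc hab hac hbc).trans ?_
    refine (triArea_le_four (hdisk a ha) (hdisk b hb) (hdisk c hc)).trans ?_
    have h4 : n ≤ k * 2 := hi.trans (Nat.mul_le_mul_left k (by omega))
    have h5 : (n : ℝ) ≤ k * 2 := by exact_mod_cast h4
    have h6 : (1 : ℝ) / 2 ≤ k / n := by
      rw [div_le_div_iff₀ (by norm_num) (by linarith)]
      linarith
    have h7 : ((1 : ℝ) / 2) ^ 3 ≤ ((k : ℝ) / n) ^ 3 := pow_le_pow_left₀ (by norm_num) h6 3
    have h8 : (27 : ℝ) ≤ π ^ 3 := by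
      have := pow_le_pow_left₀ (by norm_num : (0 : ℝ) ≤ 3) hpi.le 3
      linarith
    nlinarith

end Pool.Agent.Heil
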