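import Pool.Agent.Heil.Basic

/-! Sets on few translates of circular arcs have few convex layers. -/

namespace Pool.Agent.Heil

open Finset Real

/-- The band near the unit circle which contains our points. -/
structure Band (p : ℂ) : Prop where
  re_lt : |p.re| < 1
  im_ne : p.im ≠ 0
  low : √(1 - p.re ^ 2) / 2 ≤ |p.im|
  up : |p.im| ≤ √(1 - p.re ^ 2)

/-- The (vertical) depth below the circle. -/
noncomputable def dep (p : ℂ) : ℝ := √(1 - p.re ^ 2) - |p.im|

open Classical in
/-- The depths which occur on the upper (`b = true`) or lower side. -/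
noncomputable def vals (b : Bool) (S : Finset ℂ) : Finset ℝ :=
  (S.filter fun p => if b then 0 < p.im else p.im < 0).image dep

theorem not_mem_hull {S : Finset ℂ} (hS : ∀ q ∈ S, Band q) {s : ℝ} (hs : s = 1 ∨ s = -1) {p : ℂ}
    (hp : p ∈ S) (hps : 0 < s * p.im) (hmin : ∀ q ∈ S, 0 < s * q.im → dep p ≤ dep q) :
    p ∉ convexHull ℝ ((S : Set ℂ) \ {p}) := by
  intro hmem
  have hB := hS p hp
  have hx0 := abs_lt.1 hB.re_lt
  set x0 := p.re with hx0d
  set f0 := √(1 - x0 ^ 2) with hf0
  have hpos0 : 0 < 1 - x0 ^ 2 := by nlinarith
  have hf0pos : 0 < f0 := Real.sqrt_pos.2 hpos0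
  have hf0sq : f0 ^ 2 = 1 - x0 ^ 2 := Real.sq_sqrt hpos0.le
  have habs : ∀ q : ℂ, 0 < s * q.im → |q.im| = s * q.im := by
    intro q hq
    rcases hs with rfl | rfl
    · rw [one_mul] at hq ⊢; exact abs_of_pos hq
    · rw [neg_one_mul] at hq ⊢; exact abs_of_neg (by linarith)
  have hv0 : dep p = f0 - s * p.im := by
    unfold dep
    rw [habs p hps]
  have hlow := hB.low
  rw [habs p hps] at hlow
  -- the separating functional
  let L : ℂ → ℝ := fun z => x0 * z.re + f0 * (s * z.im)
  have hLp : L p = 1 - dep p * f0 := by
    simp only [L]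
    rw [hv0]
    have : x0 * x0 = 1 - f0 ^ 2 := by rw [hf0sq]; ring
    rw [← hx0d]
    linear_combination this
  have hdep : dep p ≤ f0 / 2 := by
    rw [hv0]
    have : f0 / 2 ≤ s * p.im := hlow
    linarith
  have hsub : ((S : Set ℂ) \ {p}) ⊆ {z | L z < L p} := by
    rintro q ⟨hq, hqp⟩
    have hqS : q ∈ S := hq
    have hBq := hS q hqS
    have hxq := abs_lt.1 hBq.re_lt
    simp only [Set.mem_ofPred_eq]
    rw [hLp]
    simp only [L]
    have hposq : 0 < 1 - q.re ^ 2 := by nlinarith
    have hfq : √(1 - q.re ^ 2) ^ 2 = 1 - q.re ^ 2 := Real.sq_sqrt hposq.le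
    rcases lt_trichotomy (s * q.im) 0 with h | h | h
    · have h1 : x0 * q.re ≤ |x0| := by
        calc x0 * q.re ≤ |x0 * q.re| := le_abs_self _
          _ = |x0| * |q.re| := abs_mul _ _
          _ ≤ |x0| * 1 := mul_le_mul_of_nonneg_left hBq.re_lt.le (abs_nonneg _)
          _ = |x0| := mul_one _
      have h2 : |x0| ≤ 1 - f0 ^ 2 / 2 := by
        apply abs_le_of_sq_le_sq
        · nlinarith [sq_nonneg (f0 ^ 2)]
        · nlinarith
      have h3 : f0 * (s * q.im) < 0 := mul_neg_of_pos_of_neg hf0pos h
      have h4 : dep p * f0 ≤ f0 / 2 * f0 := mul_le_mul_of_nonneg_right hdep hf0pos.le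
      nlinarith
    · exfalso
      rcases hs with rfl | rfl
      · exact hBq.im_ne (by simpa using h)
      · exact hBq.im_ne (by simpa using h)
    · have hvq : dep q = √(1 - q.re ^ 2) - s * q.im := by
        unfold dep
        rw [habs q h]
      have hle := hmin q hqS h
      set fq := √(1 - q.re ^ 2) with hfqd
      have hsq : s * q.im = fq - dep q := by linarith
      rw [hsq]
      have hid : 1 - (x0 * q.re + f0 * fq) = ((q.re - x0) ^ 2 + (fq - f0) ^ 2) / 2 := by
        nlinarith
      by_cases hx : q.re = x0
      · -- then the depths differ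
        have hne : dep q ≠ dep p := by
          intro he
          apply hqp
          rw [Set.mem_singleton_iff]
          have hff : fq = f0 := by rw [hfqd, hf0, hx]
          apply Complex.ext
          · exact hx
          · have : s * q.im = s * p.im := by
              rw [hsq, he, hv0, hff]; ring
            rcases hs with rfl | rfl
            · linarith
            · linarith
        have hlt : dep p < dep q := lt_of_le_of_ne hle (Ne.symm hne)
        have h5 : 0 ≤ 1 - (x0 * q.re + f0 * fq) := by rw [hid]; positivity
        have h6 : dep p * f0 < dep q * f0 := mul_lt_mul_of_pos_right hlt hf0pos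
        nlinarith
      · have h5 : 0 < 1 - (x0 * q.re + f0 * fq) := by
          rw [hid]
          have : 0 < (q.re - x0) ^ 2 := by
            have := sub_ne_zero.2 hx
            positivity
          positivity
        have h6 : dep p * f0 ≤ dep q * f0 := mul_le_mul_of_nonneg_right hle hf0pos.le
        nlinarith
  have hconv : Convex ℝ {z | L z < L p} := by
    have hlin : IsLinearMap ℝ L := by
      constructor
      · intro x y
        simp only [L, Complex.add_re, Complex.add_im]
        ring
      · intro c x
        simp only [L, Complex.real_smul, Complex.mul_re, Complex.mul_im, Complex.ofReal_re,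
          Complex.ofReal_im, smul_eq_mul]
        ring
    exact convex_halfSpace_lt hlin _
  have := convexHull_min hsub hconv hmem
  simp only [Set.mem_ofPred_eq, lt_irrefl] at this

theorem card_vals_peel {S : Finset ℂ} (hS : ∀ q ∈ S, Band q) (b : Bool) :
    (vals b (peel S)).card ≤ (vals b S).card - 1 := by
  classical
  rcases (vals b S).eq_empty_or_nonempty with h | h
  · have hsub : vals b (peel S) ⊆ vals b S := by
      unfold vals
      exact Finset.image_subset_image (Finset.filter_subset_filter _ (peel_subset S))
    rw [h] at hsub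
    rw [Finset.subset_empty.1 hsub, h]
    simp
  · obtain ⟨v, hv, hvmin⟩ := (vals b S).exists_min_image id h
    have hsub : vals b (peel S) ⊆ (vals b S).erase v := by
      intro u hu
      unfold vals at hu
      obtain ⟨p, hp, rfl⟩ := Finset.mem_image.1 hu
      obtain ⟨hpp, hpb⟩ := Finset.mem_filter.1 hp
      obtain ⟨hpS, hphull⟩ := mem_peel.1 hpp
      refine Finset.mem_erase.2 ⟨?_, ?_⟩
      · intro hpv
        have key : ∀ s : ℝ, (s = 1 ∨ s = -1) → 0 < s * p.im →
            (∀ q ∈ S, 0 < s * q.im → dep q ∈ vals b S) → False := by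
          intro s hs hps hq
          refine not_mem_hull hS hs hpS hps (fun q hqS hqs => ?_) hphull
          have := hvmin (dep q) (hq q hqS hqs)
          simpa [hpv] using this
        cases b with
        | true =>
          refine key 1 (Or.inl rfl) (by simpa using hpb) fun q hq hqs => ?_
          unfold vals
          exact Finset.mem_image.2 ⟨q, Finset.mem_filter.2 ⟨hq, by simpa using hqs⟩, rfl⟩
        | false =>
          refine key (-1) (Or.inr rfl) (by simpa using hpb) fun q hq hqs => ?_
          unfold vals
          exact Finset.mem_image.2 ⟨q, Finset.mem_filter.2 ⟨hq, by simpa using hqs⟩, rfl⟩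
      · unfold vals
        exact Finset.mem_image.2 ⟨p, Finset.mem_filter.2 ⟨hpS, hpb⟩, rfl⟩
    have := Finset.card_le_card hsub
    rwa [Finset.card_erase_of_mem hv] at this

/-- A finite subset of the band whose points lie on at most `k` upper and `k` lower arcs has at
most `k` convex layers. -/
theorem peel_iterate_eq_empty (k : ℕ) : ∀ {S : Finset ℂ}, (∀ q ∈ S, Band q) →
    (∀ b, (vals b S).card ≤ k) → peel^[k] S = ∅ := by
  classical
  induction k with
  | zero =>
    intro S hS hk
    simp only [Function.iterate_zero, id_eq]
    by_contra hne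
    obtain ⟨p, hp⟩ := Finset.nonempty_iff_ne_empty.2 hne
    rcases lt_or_gt_of_ne (hS p hp).im_ne with h | h
    · have := hk false
      have hmem : dep p ∈ vals false S := by
        unfold vals
        exact Finset.mem_image.2 ⟨p, Finset.mem_filter.2 ⟨hp, by simpa using h⟩, rfl⟩
      have := Finset.card_pos.2 ⟨_, hmem⟩
      omega
    · have := hk true
      have hmem : dep p ∈ vals true S := by
        unfold vals
        exact Finset.mem_image.2 ⟨p, Finset.mem_filter.2 ⟨hp, by simpa using h⟩, rfl⟩
      have := Finset.card_pos.2 ⟨_, hmem⟩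
      omega
  | succ k ih =>
    intro S hS hk
    rw [Function.iterate_succ_apply]
    refine ih (fun q hq => hS q (peel_subset S hq)) fun b => ?_
    have h1 := card_vals_peel hS b
    have h2 := hk b
    omega

end Pool.Agent.Heil
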