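import Pool.Agent.Heil.Arcs
import Pool.Agent.Heil.Count

/-! Points on `2 k` shifted arcs with independent shifts. -/

namespace Pool.Agent.Heil

open Finset Real

/-- The labels of the points: side, arc, number in the arc. -/
abbrev Pt (k μ : ℕ) := Bool × Fin k × Fin μ

variable {k μ : ℕ}

/-- The position of a point. -/
def idx (P : Pt k μ) : ℕ := P.2.1 + k * P.2.2

/-- The arc of a point. -/
def arc (P : Pt k μ) : Bool × Fin k := (P.1, P.2.1)

/-- The distance of the positions. -/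
def gap (P Q : Pt k μ) : ℕ := (idx P - idx Q) + (idx Q - idx P)

theorem idx_lt (P : Pt k μ) : idx P < k * μ := by
  have h1 := P.2.1.2
  have h2 := P.2.2.2
  unfold idx
  calc (P.2.1 : ℕ) + k * P.2.2 < k + k * P.2.2 := by omega
    _ = k * (P.2.2 + 1) := by ring
    _ ≤ k * μ := Nat.mul_le_mul_left k h2

theorem idx_inj {P Q : Pt k μ} (h : idx P = idx Q) : P.2 = Q.2 := by
  have hP := P.2.1.2
  have hQ := Q.2.1.2
  unfold idx at h
  have h1 : (P.2.1 : ℕ) = Q.2.1 := by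
    have := congrArg (· % k) h
    simpa [Nat.add_mul_mod_self_left, Nat.mod_eq_of_lt hP, Nat.mod_eq_of_lt hQ] using this
  have h2 : (P.2.2 : ℕ) = Q.2.2 := by
    rw [h1] at h
    have : k * (P.2.2 : ℕ) = k * Q.2.2 := by omega
    exact Nat.eq_of_mul_eq_mul_left (by omega) this
  exact Prod.ext (Fin.ext h1) (Fin.ext h2)

theorem gap_comm (P Q : Pt k μ) : gap P Q = gap Q P := by
  unfold gap; omega

theorem gap_cast (P Q : Pt k μ) : ((gap P Q : ℕ) : ℝ) = |(idx P : ℝ) - idx Q| := by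
  unfold gap
  rcases le_total (idx P) (idx Q) with h | h
  · have h' : (idx P : ℝ) ≤ idx Q := by exact_mod_cast h
    rw [abs_of_nonpos (by linarith), Nat.sub_eq_zero_of_le h, zero_add, Nat.cast_sub h]
    ring
  · have h' : (idx Q : ℝ) ≤ idx P := by exact_mod_cast h
    rw [abs_of_nonneg (by linarith), Nat.sub_eq_zero_of_le h, add_zero, Nat.cast_sub h]

/-- Points of one arc: the distance is `k` times the distance of the numbers. -/
theorem gap_same {P Q : Pt k μ} (h : arc P = arc Q) :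
    gap P Q = k * (((P.2.2 : ℕ) - Q.2.2) + ((Q.2.2 : ℕ) - P.2.2)) := by
  have h1 : P.2.1 = Q.2.1 := congrArg Prod.snd h
  unfold gap idx
  rw [h1]
  have h2 : ∀ a x y : ℕ, (a + x) - (a + y) = x - y := fun a x y => by omega
  rw [h2, h2, ← Nat.mul_sub, ← Nat.mul_sub, ← Nat.mul_add]

/-- A sum over an injective image. -/
theorem sum_inj_le {ι : Type*} [DecidableEq ι] (S : Finset ι) (g : ι → ℕ) (n : ℕ) (f : ℕ → ℝ)
    (hf : ∀ d, 0 ≤ f d) (hinj : Set.InjOn g S) (hmaps : ∀ x ∈ S, g x < n) :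
    ∑ x ∈ S, f (g x) ≤ ∑ d ∈ range n, f d := by
  rw [← Finset.sum_image (f := f) hinj]
  refine Finset.sum_le_sum_of_subset_of_nonneg ?_ fun d _ _ => hf d
  intro d hd
  obtain ⟨x, hx, rfl⟩ := Finset.mem_image.1 hd
  exact Finset.mem_range.2 (hmaps x hx)

/-- The sum over the other points of the arc. -/
theorem sum_same_arc (hk : 0 < k) (Q : Pt k μ) :
    ∑ R ∈ univ.filter (fun R : Pt k μ => arc Q = arc R ∧ Q ≠ R), (1 : ℝ) / (gap Q R : ℕ)
      ≤ 4 * √μ / k := by
  have hk' : (0 : ℝ) < k := by exact_mod_cast hk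
  have hne : ∀ R : Pt k μ, arc Q = arc R → Q ≠ R → (R.2.2 : ℕ) ≠ Q.2.2 := by
    intro R h1 h2 h3
    apply h2
    have ha : Q.1 = R.1 := (Prod.ext_iff.1 h1).1
    have hb : Q.2.1 = R.2.1 := (Prod.ext_iff.1 h1).2
    exact Prod.ext ha (Prod.ext hb (Fin.ext h3.symm))
  have hinj : ∀ R R' : Pt k μ, arc Q = arc R → arc Q = arc R' → (R.2.2 : ℕ) = R'.2.2 → R = R' := by
    intro R R' h1 h2 h3
    have h4 := h1.symm.trans h2
    have ha : R.1 = R'.1 := (Prod.ext_iff.1 h4).1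
    have hb : R.2.1 = R'.2.1 := (Prod.ext_iff.1 h4).2
    exact Prod.ext ha (Prod.ext hb (Fin.ext h3))
  rw [← Finset.sum_filter_add_sum_filter_not _ (fun R : Pt k μ => (R.2.2 : ℕ) < Q.2.2)]
  have half : ∀ (S : Finset (Pt k μ)) (g : Pt k μ → ℕ), Set.InjOn g S → (∀ x ∈ S, g x < μ) →
      (∀ R ∈ S, gap Q R = k * (g R + 1)) →
      ∑ R ∈ S, (1 : ℝ) / (gap Q R : ℕ) ≤ 2 * √μ / k := by
    intro S g h1 h2 h3
    calc ∑ R ∈ S, (1 : ℝ) / (gap Q R : ℕ)
        = ∑ R ∈ S, (1 : ℝ) / k * (1 / ((g R : ℕ) + 1)) := by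
          refine Finset.sum_congr rfl fun R hR => ?_
          rw [h3 R hR]
          push_cast
          rw [one_div_mul_one_div]
      _ = 1 / k * ∑ R ∈ S, (fun d : ℕ => (1 : ℝ) / (d + 1)) (g R) := by
          rw [Finset.mul_sum]
      _ ≤ 1 / k * ∑ d ∈ range μ, (1 : ℝ) / (d + 1) := by
          refine mul_le_mul_of_nonneg_left ?_ (by positivity)
          exact sum_inj_le S g μ (fun d : ℕ => (1 : ℝ) / (d + 1)) (fun d => by positivity) h1 h2
      _ ≤ 1 / k * (2 * √μ) := by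
          refine mul_le_mul_of_nonneg_left (harmonic_le_sqrt μ) (by positivity)
      _ = _ := by ring
  have e1 := half ((univ.filter (fun R : Pt k μ => arc Q = arc R ∧ Q ≠ R)).filter
    (fun R : Pt k μ => (R.2.2 : ℕ) < Q.2.2)) (fun R => (Q.2.2 : ℕ) - R.2.2 - 1)
    (by
      intro R hR R' hR' h
      simp only [Finset.coe_filter, Finset.mem_filter, Finset.mem_univ, true_and,
        Set.mem_ofPred_eq] at hR hR' h
      exact hinj R R' hR.1.1 hR'.1.1 (by omega))
    (by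
      intro R hR
      have := Q.2.2.2
      omega)
    (by
      intro R hR
      simp only [Finset.mem_filter, Finset.mem_univ, true_and] at hR
      rw [gap_same hR.1.1]
      congr 1
      omega)
  have e2 := half ((univ.filter (fun R : Pt k μ => arc Q = arc R ∧ Q ≠ R)).filter
    (fun R : Pt k μ => ¬ (R.2.2 : ℕ) < Q.2.2)) (fun R => (R.2.2 : ℕ) - Q.2.2 - 1)
    (by
      intro R hR R' hR' h
      simp only [Finset.coe_filter, Finset.mem_filter, Finset.mem_univ, true_and,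
        Set.mem_ofPred_eq] at hR hR' h
      have h1 := hne R hR.1.1 hR.1.2
      have h2 := hne R' hR'.1.1 hR'.1.2
      exact hinj R R' hR.1.1 hR'.1.1 (by omega))
    (by
      intro R hR
      have := R.2.2.2
      omega)
    (by
      intro R hR
      simp only [Finset.mem_filter, Finset.mem_univ, true_and] at hR
      have h1 := hne R hR.1.1 hR.1.2
      rw [gap_same hR.1.1]
      congr 1
      omega)
  have : 4 * √μ / k = 2 * √μ / k + 2 * √μ / k := by ring
  rw [this]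
  exact add_le_add e1 e2

/-- The number of points near a given position. -/
theorem card_near (Q : Pt k μ) {g : ℕ} (hg : 1 ≤ g) :
    (univ.filter fun P : Pt k μ => gap P Q ≤ g).card ≤ 6 * g := by
  classical
  have h1 : (univ.filter fun P : Pt k μ => gap P Q ≤ g).card
      ≤ ((univ : Finset Bool) ×ˢ Finset.Icc (idx Q - g) (idx Q + g)).card := by
    refine Finset.card_le_card_of_injOn (fun P => (P.1, idx P)) ?_ ?_
    · intro P hP
      have hP' : gap P Q ≤ g := by simpa using hP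
      unfold gap at hP'
      simp only [Finset.coe_product, Set.mem_prod, Finset.coe_univ, Set.mem_univ, true_and,
        Finset.coe_Icc, Set.mem_Icc]
      omega
    · intro P _ P' _ h
      simp only [Prod.mk.injEq] at h
      exact Prod.ext h.1 (idx_inj h.2)
  rw [Finset.card_product, Finset.card_univ, Fintype.card_bool, Nat.card_Icc] at h1
  omega

/-- The triples `(Q, R, P)` with `Q`, `R` in one arc and `P` in another one. -/
def TA (k μ : ℕ) : Finset (Pt k μ × Pt k μ × Pt k μ) :=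
  univ.filter fun x => arc x.1 = arc x.2.1 ∧ x.1 ≠ x.2.1 ∧ arc x.2.2 ≠ arc x.1

/-- The triples in three arcs, `P` opposite to the largest distance. -/
def TB (k μ : ℕ) : Finset (Pt k μ × Pt k μ × Pt k μ) :=
  univ.filter fun x => arc x.2.2 ≠ arc x.1 ∧ arc x.2.2 ≠ arc x.2.1 ∧ gap x.1 x.2.1 ≠ 0 ∧
    gap x.2.2 x.1 ≤ gap x.1 x.2.1

theorem sum_TA (hk : 0 < k) :
    ∑ x ∈ TA k μ, (1 : ℝ) / (gap x.1 x.2.1 : ℕ) ≤ 16 * k * μ ^ 2 * √μ := by
  classical
  have hk' : (0 : ℝ) < k := by exact_mod_cast hk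
  have hcard : (Fintype.card (Pt k μ) : ℝ) = 2 * (k * μ) := by
    simp [Fintype.card_prod]
  have h1 : ∑ x ∈ TA k μ, (1 : ℝ) / (gap x.1 x.2.1 : ℕ)
      ≤ ∑ x : Pt k μ × Pt k μ × Pt k μ,
        (if arc x.1 = arc x.2.1 ∧ x.1 ≠ x.2.1 then (1 : ℝ) / (gap x.1 x.2.1 : ℕ) else 0) := by
    unfold TA
    rw [Finset.sum_filter]
    refine Finset.sum_le_sum fun x _ => ?_
    have hpos : (0 : ℝ) ≤ 1 / (gap x.1 x.2.1 : ℕ) := by positivity
    by_cases h : arc x.1 = arc x.2.1 ∧ x.1 ≠ x.2.1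
    · rw [if_pos h]
      split_ifs
      · exact le_rfl
      · exact hpos
    · rw [if_neg h, if_neg (fun h' => h ⟨h'.1, h'.2.1⟩)]
  refine h1.trans ?_
  rw [Fintype.sum_prod_type]
  have h2 : ∀ Q : Pt k μ, ∑ y : Pt k μ × Pt k μ,
      (if arc Q = arc y.1 ∧ Q ≠ y.1 then (1 : ℝ) / (gap Q y.1 : ℕ) else 0)
      ≤ 2 * (k * μ) * (4 * √μ / k) := by
    intro Q
    rw [Fintype.sum_prod_type]
    simp only [Finset.sum_const, nsmul_eq_mul, Finset.card_univ]
    rw [← Finset.mul_sum, hcard, ← Finset.sum_filter]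
    exact mul_le_mul_of_nonneg_left (sum_same_arc hk Q) (by positivity)
  calc ∑ Q : Pt k μ, ∑ y : Pt k μ × Pt k μ,
      (if arc Q = arc y.1 ∧ Q ≠ y.1 then (1 : ℝ) / (gap Q y.1 : ℕ) else 0)
      ≤ ∑ _Q : Pt k μ, 2 * (k * μ) * (4 * √μ / k) := Finset.sum_le_sum fun Q _ => h2 Q
    _ = 2 * (k * μ) * (2 * (k * μ) * (4 * √μ / k)) := by
      rw [Finset.sum_const, nsmul_eq_mul, Finset.card_univ, hcard]
    _ = 16 * k * μ ^ 2 * √μ := by
      field_simp
      ring

theorem sum_TB : ∑ x ∈ TB k μ, (1 : ℝ) / (gap x.1 x.2.1 : ℕ) ≤ 24 * (k * μ) ^ 2 := by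
  classical
  have hcard : (Fintype.card (Pt k μ) : ℝ) = 2 * (k * μ) := by
    simp [Fintype.card_prod]
  have h1 : ∑ x ∈ TB k μ, (1 : ℝ) / (gap x.1 x.2.1 : ℕ)
      ≤ ∑ x : Pt k μ × Pt k μ × Pt k μ,
        (if gap x.1 x.2.1 ≠ 0 ∧ gap x.2.2 x.1 ≤ gap x.1 x.2.1
          then (1 : ℝ) / (gap x.1 x.2.1 : ℕ) else 0) := by
    unfold TB
    rw [Finset.sum_filter]
    refine Finset.sum_le_sum fun x _ => ?_
    have hpos : (0 : ℝ) ≤ 1 / (gap x.1 x.2.1 : ℕ) := by positivity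
    by_cases h : gap x.1 x.2.1 ≠ 0 ∧ gap x.2.2 x.1 ≤ gap x.1 x.2.1
    · rw [if_pos h]
      split_ifs
      · exact le_rfl
      · exact hpos
    · rw [if_neg h, if_neg (fun h' => h ⟨h'.2.2.1, h'.2.2.2⟩)]
  refine h1.trans ?_
  rw [Fintype.sum_prod_type]
  have h2 : ∀ Q : Pt k μ, ∑ y : Pt k μ × Pt k μ,
      (if gap Q y.1 ≠ 0 ∧ gap y.2 Q ≤ gap Q y.1 then (1 : ℝ) / (gap Q y.1 : ℕ) else 0)
      ≤ 2 * (k * μ) * 6 := by
    intro Q
    rw [Fintype.sum_prod_type]
    calc ∑ R : Pt k μ, ∑ P : Pt k μ,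
        (if gap Q R ≠ 0 ∧ gap P Q ≤ gap Q R then (1 : ℝ) / (gap Q R : ℕ) else 0)
        ≤ ∑ _R : Pt k μ, (6 : ℝ) := by
          refine Finset.sum_le_sum fun R _ => ?_
          by_cases h0 : gap Q R = 0
          · simp [h0]
          · have h3 := card_near Q (g := gap Q R) (by omega)
            have h4 : ((univ.filter fun P : Pt k μ => gap P Q ≤ gap Q R).card : ℝ)
                ≤ 6 * (gap Q R : ℕ) := by exact_mod_cast h3
            have hg : (0 : ℝ) < (gap Q R : ℕ) := by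
              exact_mod_cast Nat.pos_of_ne_zero h0
            have h5 : ∑ P : Pt k μ,
                (if gap Q R ≠ 0 ∧ gap P Q ≤ gap Q R then (1 : ℝ) / (gap Q R : ℕ) else 0)
                = ((univ.filter fun P : Pt k μ => gap P Q ≤ gap Q R).card : ℝ)
                  * (1 / (gap Q R : ℕ)) := by
              rw [← nsmul_eq_mul, ← Finset.sum_const, Finset.sum_filter]
              refine Finset.sum_congr rfl fun P _ => ?_
              simp [h0]
            rw [h5, mul_one_div, div_le_iff₀ hg]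
            exact h4
      _ = 2 * (k * μ) * 6 := by
          rw [Finset.sum_const, nsmul_eq_mul, Finset.card_univ, hcard]
  calc ∑ Q : Pt k μ, ∑ y : Pt k μ × Pt k μ,
      (if gap Q y.1 ≠ 0 ∧ gap y.2 Q ≤ gap Q y.1 then (1 : ℝ) / (gap Q y.1 : ℕ) else 0)
      ≤ ∑ _Q : Pt k μ, 2 * (k * μ) * (6 : ℝ) := Finset.sum_le_sum fun Q _ => h2 Q
    _ = 24 * (k * μ) ^ 2 := by
      rw [Finset.sum_const, nsmul_eq_mul, Finset.card_univ, hcard]
      ring

end Pool.Agent.Heil
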