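import Pool.Agent.Heil.Lower

/-! Sets with `k` convex layers and large triangles: existence. -/

namespace Pool.Agent.Heil

open Finset Real

variable {k μ : ℕ}

/-- The angle of a point. -/
noncomputable def ang (θ₀ : ℝ) (P : Pt k μ) : ℝ :=
  θ₀ + (π - 2 * θ₀) * ((idx P : ℝ) / (k * μ))

theorem km_pos (P : Pt k μ) : (0 : ℝ) < k * μ := by
  have h1 : 0 < k := by have := P.2.1.2; omega
  have h2 : 0 < μ := by have := P.2.2.2; omega
  have h1' : (0 : ℝ) < k := by exact_mod_cast h1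
  have h2' : (0 : ℝ) < μ := by exact_mod_cast h2
  positivity

theorem ang_mem {θ₀ : ℝ} (h0' : θ₀ ≤ π / 2) (P : Pt k μ) :
    θ₀ ≤ ang θ₀ P ∧ ang θ₀ P ≤ π - θ₀ := by
  have hkm := km_pos P
  have h1 : (idx P : ℝ) / (k * μ) ≤ 1 := by
    rw [div_le_one hkm]
    have := idx_lt P
    exact_mod_cast this.le
  have h2 : (0 : ℝ) ≤ (idx P : ℝ) / (k * μ) := by positivity
  have h3 : 0 ≤ π - 2 * θ₀ := by linarith
  unfold ang
  constructor
  · nlinarith [mul_nonneg h3 h2]
  · nlinarith [mul_le_mul_of_nonneg_left h1 h3]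

theorem ang_gap {θ₀ : ℝ} (h0' : θ₀ ≤ π / 2) (P Q : Pt k μ) :
    |ang θ₀ P - ang θ₀ Q| = (π - 2 * θ₀) * ((gap P Q : ℕ) / (k * μ)) := by
  have hkm := km_pos P
  have h3 : 0 ≤ π - 2 * θ₀ := by linarith
  have h : ang θ₀ P - ang θ₀ Q = (π - 2 * θ₀) / (k * μ) * ((idx P : ℝ) - idx Q) := by
    unfold ang
    ring
  rw [h, abs_mul, gap_cast, abs_of_nonneg (by positivity)]
  ring

/-- The points. -/
noncomputable def pnt (θ₀ : ℝ) {Q₀ : ℕ} (s : Bool × Fin k → Fin Q₀) (P : Pt k μ) : ℂ :=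
  pt (ang θ₀ P) P.1 (sin θ₀ / 2 / Q₀ * ((s (arc P) : ℕ) : ℝ))

theorem shift_mem {θ₀ : ℝ} (h0 : 0 < θ₀) (h0' : θ₀ ≤ π / 2) {Q₀ : ℕ} (q : Fin Q₀) :
    0 ≤ sin θ₀ / 2 / Q₀ * ((q : ℕ) : ℝ) ∧ sin θ₀ / 2 / Q₀ * ((q : ℕ) : ℝ) ≤ sin θ₀ / 2 := by
  have h1 := sin_pos₀ h0 h0'
  have hQ : (0 : ℝ) < Q₀ := by
    have := q.2
    have : 0 < Q₀ := by omega
    exact_mod_cast this
  constructor
  · positivity
  · have h2 : ((q : ℕ) : ℝ) ≤ Q₀ := by exact_mod_cast q.2.le
    calc sin θ₀ / 2 / Q₀ * ((q : ℕ) : ℝ) ≤ sin θ₀ / 2 / Q₀ * Q₀ :=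
        mul_le_mul_of_nonneg_left h2 (by positivity)
      _ = _ := by field_simp

theorem pnt_inj {θ₀ : ℝ} (h0 : 0 < θ₀) (h0' : θ₀ < π / 2) {Q₀ : ℕ} (s : Bool × Fin k → Fin Q₀) :
    Function.Injective (pnt (μ := μ) θ₀ s) := by
  intro P Q h
  unfold pnt at h
  obtain ⟨h1, h2⟩ := pt_inj h0 h0'.le (ang_mem h0'.le P) (ang_mem h0'.le Q)
    (shift_mem h0 h0'.le (s (arc P))) (shift_mem h0 h0'.le (s (arc Q))) h
  have hkm := km_pos P
  have h3 : (idx P : ℝ) = idx Q := by
    unfold ang at h1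
    have h4 : 0 < π - 2 * θ₀ := by linarith
    have h5 : (π - 2 * θ₀) * ((idx P : ℝ) / (k * μ)) = (π - 2 * θ₀) * ((idx Q : ℝ) / (k * μ)) := by
      linarith
    have h6 := mul_left_cancel₀ h4.ne' h5
    rwa [div_left_inj' hkm.ne'] at h6
  exact Prod.ext h2 (idx_inj (by exact_mod_cast h3))

/-- The number of bad shifts of the arc of `P`. -/
theorem card_bad_shift {θ₀ t : ℝ} (h0 : 0 < θ₀) (h0' : θ₀ < π / 2) (ht : 0 ≤ t) {Q₀ : ℕ}
    (hQ₀ : 0 < Q₀) (s : Bool × Fin k → Fin Q₀) (Q R P : Pt k μ) (h1 : arc P ≠ arc Q)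
    (h2 : arc P ≠ arc R) (h3 : gap Q R ≠ 0) :
    ((univ.filter fun q : Fin Q₀ => triArea (pnt θ₀ (Function.update s (arc P) q) P)
        (pnt θ₀ (Function.update s (arc P) q) Q) (pnt θ₀ (Function.update s (arc P) q) R) < t).card : ℝ)
      ≤ (4 * t * (k * μ) / (sin θ₀ / 2 * (2 / π * sin θ₀ * (π - 2 * θ₀))) * (1 / (gap Q R : ℕ))
          + 1 / Q₀) * Q₀ := by
  have hkm := km_pos P
  have hsin := sin_pos₀ h0 h0'.le
  have hpi := pi_pos
  have hQ : (0 : ℝ) < Q₀ := by exact_mod_cast hQ₀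
  have hg : (0 : ℝ) < (gap Q R : ℕ) := by exact_mod_cast Nat.pos_of_ne_zero h3
  have hw : 0 < π - 2 * θ₀ := by linarith
  set K : ℝ := 2 / π * sin θ₀ * (π - 2 * θ₀) with hK
  have hKpos : 0 < K := by rw [hK]; positivity
  set β : ℝ := -(sg P.1 * ((pnt θ₀ s R).re - (pnt θ₀ s Q).re)) with hβ
  have hβabs : K * ((gap Q R : ℕ) / (k * μ)) ≤ |β| := by
    rw [hβ, abs_neg, abs_mul, abs_sg, one_mul, abs_sub_comm]
    have h4 := cos_gap h0 h0'.le (ang_mem h0'.le Q) (ang_mem h0'.le R)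
    rw [ang_gap h0'.le] at h4
    have h5 : (pnt θ₀ s Q).re = Real.cos (ang θ₀ Q) := rfl
    have h6 : (pnt θ₀ s R).re = Real.cos (ang θ₀ R) := rfl
    rw [h5, h6]
    calc K * ((gap Q R : ℕ) / (k * μ))
        = 2 / π * sin θ₀ * ((π - 2 * θ₀) * ((gap Q R : ℕ) / (k * μ))) := by rw [hK]; ring
      _ ≤ _ := h4
  have hβpos : 0 < |β| := lt_of_lt_of_le (by positivity) hβabs
  have hβne : β ≠ 0 := abs_pos.1 hβpos
  have key := card_progression_le (Q := Q₀)
    (α := orient (pt (ang θ₀ P) P.1 0) (pnt θ₀ s Q) (pnt θ₀ s R)) (β := β)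
    (δ := sin θ₀ / 2 / Q₀) (τ := 2 * t) hβne (by positivity) (by positivity)
    (univ.filter fun q : Fin Q₀ => triArea (pnt θ₀ (Function.update s (arc P) q) P)
        (pnt θ₀ (Function.update s (arc P) q) Q) (pnt θ₀ (Function.update s (arc P) q) R) < t)
    (by
      intro q hq
      have hq' := (Finset.mem_filter.1 hq).2
      have e1 : pnt θ₀ (Function.update s (arc P) q) Q = pnt θ₀ s Q := by
        unfold pnt
        rw [Function.update_of_ne (Ne.symm h1)]
      have e2 : pnt θ₀ (Function.update s (arc P) q) R = pnt θ₀ s R := by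
        unfold pnt
        rw [Function.update_of_ne (Ne.symm h2)]
      have e3 : pnt θ₀ (Function.update s (arc P) q) P
          = pt (ang θ₀ P) P.1 (sin θ₀ / 2 / Q₀ * ((q : ℕ) : ℝ)) := by
        unfold pnt
        rw [Function.update_self]
      rw [e1, e2, e3, triArea_eq, orient_pt_shift] at hq'
      rw [hβ]
      linarith)
  refine key.trans ?_
  have hfin : 2 * (2 * t) / (|β| * (sin θ₀ / 2 / Q₀))
      ≤ 4 * t * (k * μ) / (sin θ₀ / 2 * K) * (1 / (gap Q R : ℕ)) * Q₀ := by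
    calc 2 * (2 * t) / (|β| * (sin θ₀ / 2 / Q₀))
        ≤ 2 * (2 * t) / (K * ((gap Q R : ℕ) / (k * μ)) * (sin θ₀ / 2 / Q₀)) := by
          refine div_le_div_of_nonneg_left (by positivity) (by positivity) ?_
          exact mul_le_mul_of_nonneg_right hβabs (by positivity)
      _ = _ := by
          field_simp
          ring
  have h7 : (1 : ℝ) / Q₀ * Q₀ = 1 := by field_simp
  rw [add_mul, h7]
  linarith

/-- **Existence** of large subsets of `2 k` arcs without small triangles. -/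
theorem exists_arcs {θ₀ t : ℝ} (hk : 0 < k) (hμ : 0 < μ) (h0 : 0 < θ₀) (h0' : θ₀ < π / 2)
    (ht : 0 ≤ t)
    (harc : t ≤ 2 * sin ((π - 2 * θ₀) / μ / 2) ^ 2 * sin ((π - 2 * θ₀) / μ)) :
    ∃ S : Finset ℂ, (∀ z ∈ S, ‖z‖ ≤ 1) ∧ (∀ S' ⊆ S, peel^[k] S' = ∅) ∧
      2 * ((k : ℝ) * μ) - (4 * t * (k * μ) / (sin θ₀ / 2 * (2 / π * sin θ₀ * (π - 2 * θ₀)))
        * (16 * k * μ ^ 2 * √μ + 24 * (k * μ) ^ 2) + 1) ≤ S.card ∧
      ∀ a ∈ S, ∀ b ∈ S, ∀ c ∈ S, a ≠ b → a ≠ c → b ≠ c → t ≤ triArea a b c := by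
  classical
  have hpi := pi_pos
  have hsin := sin_pos₀ h0 h0'.le
  have hk' : (0 : ℝ) < k := by exact_mod_cast hk
  have hμ' : (0 : ℝ) < μ := by exact_mod_cast hμ
  have hw : 0 < π - 2 * θ₀ := by linarith
  set Cst : ℝ := 4 * t * (k * μ) / (sin θ₀ / 2 * (2 / π * sin θ₀ * (π - 2 * θ₀))) with hCst
  have hCst0 : 0 ≤ Cst := by rw [hCst]; positivity
  have hcard : Fintype.card (Pt k μ) = 2 * (k * μ) := by
    simp [Fintype.card_prod]
  set Q₀ : ℕ := (2 * (k * μ)) ^ 3 with hQ₀
  have hQpos : 0 < Q₀ := by rw [hQ₀]; positivity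
  have hQR : (0 : ℝ) < Q₀ := by exact_mod_cast hQpos
  -- the choice of the shifts
  obtain ⟨s, hs⟩ := exists_few_bad (A := Bool × Fin k) hQpos (TA k μ ∪ TB k μ)
    (fun x s => triArea (pnt θ₀ s x.2.2) (pnt θ₀ s x.1) (pnt θ₀ s x.2.1) < t)
    (fun x => arc x.2.2)
    (fun x => Cst * (1 / (gap x.1 x.2.1 : ℕ)) + 1 / Q₀)
    (by
      rintro ⟨Q, R, P⟩ hx s
      rcases Finset.mem_union.1 hx with h | h
      · obtain ⟨-, h1, h2, h3⟩ := Finset.mem_filter.1 h
        simp only at h1 h2 h3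
        refine card_bad_shift h0 h0' ht hQpos s Q R P h3 (by rw [← h1]; exact h3) ?_
        rw [gap_same h1]
        have h4 : (R.2.2 : ℕ) ≠ Q.2.2 := by
          intro h5
          apply h2
          exact Prod.ext (Prod.ext_iff.1 h1).1
            (Prod.ext (Prod.ext_iff.1 h1).2 (Fin.ext h5.symm))
        have h5 : ((Q.2.2 : ℕ) - R.2.2) + ((R.2.2 : ℕ) - Q.2.2) ≠ 0 := by omega
        exact Nat.mul_ne_zero hk.ne' h5
      · obtain ⟨-, h1, h2, h3, h4⟩ := Finset.mem_filter.1 h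
        exact card_bad_shift h0 h0' ht hQpos s Q R P h1 h2 h3)
  set bad : Finset (Pt k μ × Pt k μ × Pt k μ) := (TA k μ ∪ TB k μ).filter fun x =>
    triArea (pnt θ₀ s x.2.2) (pnt θ₀ s x.1) (pnt θ₀ s x.2.1) < t with hbad
  have hbadcard : (bad.card : ℝ) ≤ Cst * (16 * k * μ ^ 2 * √μ + 24 * (k * μ) ^ 2) + 1 := by
    refine hs.trans ?_
    rw [Finset.sum_add_distrib, ← Finset.mul_sum, Finset.sum_const, nsmul_eq_mul]
    have e1 : ∑ x ∈ TA k μ ∪ TB k μ, (1 : ℝ) / (gap x.1 x.2.1 : ℕ)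
        ≤ 16 * k * μ ^ 2 * √μ + 24 * (k * μ) ^ 2 := by
      have e3 := Finset.sum_union_inter (s₁ := TA k μ) (s₂ := TB k μ)
        (f := fun x => (1 : ℝ) / (gap x.1 x.2.1 : ℕ))
      have e4 : (0 : ℝ) ≤ ∑ x ∈ TA k μ ∩ TB k μ, (1 : ℝ) / (gap x.1 x.2.1 : ℕ) :=
        Finset.sum_nonneg fun x _ => by positivity
      have e5 := sum_TA (k := k) (μ := μ) hk
      have e6 := sum_TB (k := k) (μ := μ)
      linarith
    have e2 : ((TA k μ ∪ TB k μ).card : ℝ) * (1 / Q₀) ≤ 1 := by
      rw [mul_one_div, div_le_one hQR]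
      have h1 : (TA k μ ∪ TB k μ).card ≤ Q₀ := by
        refine (Finset.card_le_univ _).trans ?_
        rw [Fintype.card_prod (Pt k μ) (Pt k μ × Pt k μ), Fintype.card_prod (Pt k μ) (Pt k μ),
          hcard, hQ₀]
        apply le_of_eq
        ring
      exact_mod_cast h1
    have := mul_le_mul_of_nonneg_left e1 hCst0
    linarith
  -- deletion
  set del : Finset (Pt k μ) := bad.image fun x => x.2.2 with hdel
  set keep : Finset (Pt k μ) := univ \ del with hkeep
  have hkeepcard : 2 * ((k : ℝ) * μ) - bad.card ≤ keep.card := by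
    have h1 : keep.card = Fintype.card (Pt k μ) - del.card := by
      rw [hkeep, Finset.card_sdiff_of_subset (Finset.subset_univ _), Finset.card_univ]
    have h2 : del.card ≤ bad.card := Finset.card_image_le
    have h3 : Fintype.card (Pt k μ) ≤ keep.card + bad.card := by omega
    rw [hcard] at h3
    have h4 : ((2 * (k * μ) : ℕ) : ℝ) ≤ ((keep.card + bad.card : ℕ) : ℝ) := by exact_mod_cast h3
    push_cast at h4
    linarith
  have hinj := pnt_inj (μ := μ) h0 h0' s
  refine ⟨keep.image (pnt θ₀ s), ?_, ?_, ?_, ?_⟩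
  · intro z hz
    obtain ⟨P, -, rfl⟩ := Finset.mem_image.1 hz
    exact norm_pt_le h0 h0'.le (ang_mem h0'.le P) (shift_mem h0 h0'.le _) _
  · intro S' hS'
    have hrep : ∀ q ∈ S', ∃ P : Pt k μ, q = pnt θ₀ s P := fun q hq => by
      obtain ⟨P, -, h⟩ := Finset.mem_image.1 (hS' hq)
      exact ⟨P, h.symm⟩
    refine peel_iterate_eq_empty k ?_ ?_
    · intro q hq
      obtain ⟨P, rfl⟩ := hrep q hq
      exact band_pt h0 h0'.le (ang_mem h0'.le P) (shift_mem h0 h0'.le _) _
    · intro b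
      have hsub : vals b S' ⊆ (univ : Finset (Fin k)).image fun j =>
          sin θ₀ / 2 / Q₀ * ((s (b, j) : ℕ) : ℝ) := by
        intro v hv
        unfold vals at hv
        obtain ⟨q, hq, rfl⟩ := Finset.mem_image.1 hv
        obtain ⟨hqS, hqb⟩ := Finset.mem_filter.1 hq
        obtain ⟨P, rfl⟩ := hrep q hqS
        have hb : P.1 = b := by
          cases b with
          | true =>
            by_contra hP
            have hP' : P.1 = false := by simpa using hP
            have h1 : (pnt θ₀ s P).im < 0 := by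
              unfold pnt
              rw [hP']
              exact im_pt_neg h0 h0'.le (ang_mem h0'.le P) (shift_mem h0 h0'.le _)
            have h2 : 0 < (pnt θ₀ s P).im := by simpa using hqb
            linarith
          | false =>
            by_contra hP
            have hP' : P.1 = true := by simpa using hP
            have h1 : 0 < (pnt θ₀ s P).im := by
              unfold pnt
              rw [hP']
              exact im_pt_pos h0 h0'.le (ang_mem h0'.le P) (shift_mem h0 h0'.le _)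
            have h2 : (pnt θ₀ s P).im < 0 := by simpa using hqb
            linarith
        refine Finset.mem_image.2 ⟨P.2.1, Finset.mem_univ _, ?_⟩
        have harcP : arc P = (b, P.2.1) := by
          unfold arc
          rw [hb]
        unfold pnt
        rw [dep_pt h0 h0'.le (ang_mem h0'.le P) (shift_mem h0 h0'.le _), harcP]
      calc (vals b S').card ≤ _ := Finset.card_le_card hsub
        _ ≤ (univ : Finset (Fin k)).card := Finset.card_image_le
        _ = k := by simp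
  · rw [Finset.card_image_of_injective _ hinj]
    linarith
  · -- the triangles
    intro a ha b hb c hc hab hac hbc
    obtain ⟨A, hA, rfl⟩ := Finset.mem_image.1 ha
    obtain ⟨B, hB, rfl⟩ := Finset.mem_image.1 hb
    obtain ⟨C, hC, rfl⟩ := Finset.mem_image.1 hc
    have hAB : A ≠ B := fun h => hab (by rw [h])
    have hAC : A ≠ C := fun h => hac (by rw [h])
    have hBC : B ≠ C := fun h => hbc (by rw [h])
    have good : ∀ Q R P : Pt k μ, P ∈ keep → (Q, R, P) ∈ TA k μ ∪ TB k μ →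
        t ≤ triArea (pnt θ₀ s P) (pnt θ₀ s Q) (pnt θ₀ s R) := by
      intro Q R P hP hT
      by_contra hlt
      push Not at hlt
      have h1 : (Q, R, P) ∈ bad := Finset.mem_filter.2 ⟨hT, hlt⟩
      have h2 : P ∈ del := Finset.mem_image.2 ⟨_, h1, rfl⟩
      exact (Finset.mem_sdiff.1 hP).2 h2
    have memA : ∀ Q R P : Pt k μ, arc Q = arc R → Q ≠ R → arc P ≠ arc Q →
        (Q, R, P) ∈ TA k μ ∪ TB k μ := by
      intro Q R P h1 h2 h3
      exact Finset.mem_union_left _ (Finset.mem_filter.2 ⟨Finset.mem_univ _, h1, h2, h3⟩)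
    have memB : ∀ Q R P : Pt k μ, arc P ≠ arc Q → arc P ≠ arc R → gap Q R ≠ 0 →
        gap P Q ≤ gap Q R → (Q, R, P) ∈ TA k μ ∪ TB k μ := by
      intro Q R P h1 h2 h3 h4
      exact Finset.mem_union_right _ (Finset.mem_filter.2 ⟨Finset.mem_univ _, h1, h2, h3, h4⟩)
    -- permutations of the three points
    have perm1 : triArea (pnt θ₀ s B) (pnt θ₀ s C) (pnt θ₀ s A)
        = triArea (pnt θ₀ s A) (pnt θ₀ s B) (pnt θ₀ s C) := triArea_rot _ _ _
    have perm2 : triArea (pnt θ₀ s C) (pnt θ₀ s A) (pnt θ₀ s B)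
        = triArea (pnt θ₀ s A) (pnt θ₀ s B) (pnt θ₀ s C) := by
      rw [triArea_rot (pnt θ₀ s B) (pnt θ₀ s C) (pnt θ₀ s A), perm1]
    by_cases h1 : arc B = arc C
    · by_cases h2 : arc A = arc B
      · -- one arc
        have h3 : arc A = arc C := h2.trans h1
        have hgap : ∀ X Y : Pt k μ, arc X = arc Y → X ≠ Y →
            (π - 2 * θ₀) / μ ≤ |ang θ₀ Y - ang θ₀ X| := by
          intro X Y hXY hne
          rw [ang_gap h0'.le, gap_same hXY.symm]
          have h4 : (Y.2.2 : ℕ) ≠ X.2.2 := by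
            intro h5
            apply hne
            exact Prod.ext (Prod.ext_iff.1 hXY).1
              (Prod.ext (Prod.ext_iff.1 hXY).2 (Fin.ext h5.symm))
          have h5 : 1 ≤ ((Y.2.2 : ℕ) - X.2.2) + ((X.2.2 : ℕ) - Y.2.2) := by omega
          set d : ℕ := ((Y.2.2 : ℕ) - X.2.2) + ((X.2.2 : ℕ) - Y.2.2) with hd
          have h6 : (1 : ℝ) ≤ d := by exact_mod_cast h5
          push_cast
          rw [mul_div_mul_left _ _ hk'.ne', ← mul_div_assoc]
          refine div_le_div_of_nonneg_right ?_ hμ'.le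
          nlinarith
        have e1 : pnt θ₀ s A = pt (ang θ₀ A) A.1 (sin θ₀ / 2 / Q₀ * ((s (arc A) : ℕ) : ℝ)) := rfl
        have e2 : pnt θ₀ s B = pt (ang θ₀ B) A.1 (sin θ₀ / 2 / Q₀ * ((s (arc A) : ℕ) : ℝ)) := by
          have h4 : B.1 = A.1 := (Prod.ext_iff.1 h2).1.symm
          unfold pnt
          rw [← h2, h4]
        have e3 : pnt θ₀ s C = pt (ang θ₀ C) A.1 (sin θ₀ / 2 / Q₀ * ((s (arc A) : ℕ) : ℝ)) := by
          have h4 : C.1 = A.1 := (Prod.ext_iff.1 h3).1.symm
          unfold pnt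
          rw [← h3, h4]
        rw [e1, e2, e3]
        refine harc.trans ?_
        have m : ∀ X : Pt k μ, 0 ≤ ang θ₀ X ∧ ang θ₀ X ≤ π := fun X => by
          have := ang_mem h0'.le X
          constructor <;> linarith [this.1, this.2]
        exact arc_area (by positivity) (hgap A B h2 hAB) (hgap B C h1 hBC) (hgap A C h3 hAC)
          (m A) (m B) (m C) _ _
      · exact good B C A hA (memA B C A h1 hBC h2)
    · by_cases h2 : arc A = arc C
      · -- `A`, `C` in one arc
        have h4 : arc B ≠ arc C := h1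
        have := good C A B hB (memA C A B h2.symm hAC.symm h4)
        rwa [perm1] at this
      · by_cases h3 : arc A = arc B
        · have h4 : arc C ≠ arc A := fun h => h2 h.symm
          have := good A B C hC (memA A B C h3 hAB h4)
          rwa [perm2] at this
        · -- three arcs
          have hne0 : ¬ (gap A B = 0 ∧ gap B C = 0 ∧ gap C A = 0) := by
            rintro ⟨g1, g2, -⟩
            have i1 : idx A = idx B := by unfold gap at g1; omega
            have i2 : idx B = idx C := by unfold gap at g2; omega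
            have j1 := idx_inj i1
            have j2 := idx_inj i2
            have k1 : A.1 ≠ B.1 := fun h => hAB (Prod.ext h j1)
            have k2 : B.1 ≠ C.1 := fun h => hBC (Prod.ext h j2)
            have k3 : A.1 ≠ C.1 := fun h => hAC (Prod.ext h (j1.trans j2))
            have three : ∀ x y z : Bool, x ≠ y → y ≠ z → x ≠ z → False := by decide
            exact three _ _ _ k1 k2 k3
          have c1 := gap_comm A B
          have c2 := gap_comm B C
          have c3 := gap_comm C A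
          -- the largest gap
          have hcases : (gap B C ≠ 0 ∧ gap A B ≤ gap B C) ∨ (gap C A ≠ 0 ∧ gap B C ≤ gap C A) ∨
              (gap A B ≠ 0 ∧ gap C A ≤ gap A B) := by omega
          rcases hcases with ⟨g1, g2⟩ | ⟨g1, g2⟩ | ⟨g1, g2⟩
          · exact good B C A hA (memB B C A h3 h2 g1 g2)
          · have := good C A B hB (memB C A B h1 (fun h => h3 h.symm) g1 g2)
            rwa [perm1] at this
          · have := good A B C hC (memB A B C (fun h => h2 h.symm) (fun h => h1 h.symm) g1 g2)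
            rwa [perm2] at this

end Pool.Agent.Heil
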