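import Pool.Agent.Heil.PatDefs

/-!
# Package HP1: the theorem of Marcus and Tardos

A set `M` of cells of the `n × n` board which does not contain the permutation `σ` of length `r` has
at most `C n` elements, `C = C(r)`.

Proof (Marcus-Tardos 2004).  For `r = 0` every `M` contains `σ` (empty functions), so let `k = r ≥ 1`
and `s = k ^ 2`.  It is enough to show by induction on `t` that every `M ⊆ [0, s^t) × [0, s^t)` which
does not contain `σ` has at most `C₀ s^t` elements, `C₀ = 2 k^4 * Nat.choose s k` (or anything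
similar): for general `n ≥ 1` and `k ≥ 2` take the least `t` with `n ≤ s^t`; then `s^t ≤ s n`
(for `k = 1`: `M` must be empty, since one cell of `M` would be a copy of `σ`).  So `C = s C₀`.

Induction.  `t = 0`: at most one cell.  Step `t → t+1`: divide the board `[0, s^(t+1))²` into
`s^t × s^t` square blocks of side `s`; the block of the cell `(a, b)` is `(a / s, b / s)`.  A block
is WIDE if its cells in `M` lie in at least `k` different columns (`k` different values of `a`) and
TALL if they lie in at least `k` different rows.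

(1) Among the `s^t` blocks with a fixed column index `u` (the blocks `(u, v)`, `v < s^t`) at most
`(k-1) * choose s k` are wide: assign to a wide block a `k`-element subset of the `s` columns
`[u s, u s + s)` in which it has cells of `M`.  If there were more wide blocks, `k` of them, with
row indices `v_0 < ... < v_(k-1)`, would have the same subset `{c_0 < ... < c_(k-1)}` (pigeonhole:
`Finset.exists_lt_card_fiber_of_mul_lt_card_of_maps_to`).  For every `j` the block `(u, v_j)` has a
cell of `M` in column `c_(σ⁻¹ j)`: let `g j` be its row.  Then `g` is strictly increasing (different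
blocks), and `(c_i, g (σ i)) ∈ M`; so `M` contains `σ`.  Hence at most `s^t (k-1) choose s k` wide
blocks.  (2) The same for the tall blocks (exchange rows and columns and `σ` by `σ⁻¹`; prove (1) as a
lemma for the transposed set, or directly).
(3) The set `M' = M.image (fun c => (c.1 / s, c.2 / s))` of nonempty blocks does not contain `σ`
(choose a cell of `M` in each block of a copy: strict monotonicity is inherited), so it has at most
`C₀ s^t` elements by induction.  A block which is neither wide nor tall has at most `(k-1)^2` cells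
of `M`, every block has at most `s^2 = k^4`.  So
`|M| ≤ 2 s^t (k-1) (choose s k) k^4 + (k-1)^2 C₀ s^t ≤ C₀ s^(t+1)`, because
`k^2 - (k-1)^2 = 2k - 1 ≥ 1` and `2 (k-1) k^4 choose s k ≤ (2k - 1) * 2 k^4 choose s k`.
-/

namespace Pool.Agent.Heil

theorem matPat_swap {r : ℕ} {σ : Equiv.Perm (Fin r)} {M : Finset (ℕ × ℕ)}
    (h : MatPat σ.symm (M.image Prod.swap)) : MatPat σ M := by
  obtain ⟨f, g, hf, hg, hM⟩ := h
  refine ⟨g, f, hg, hf, fun i => ?_⟩
  have h1 := hM (σ i)
  rw [Equiv.symm_apply_apply, Finset.mem_image] at h1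
  obtain ⟨c, hc, hce⟩ := h1
  have h2 : c = (g i, f (σ i)) := by
    have h3 := congrArg Prod.swap hce
    simpa using h3
  rw [← h2]
  exact hc

/-- Wide blocks with a fixed column index. -/
theorem wide_count {k : ℕ} (hk : 0 < k) {s : ℕ} (hs : 0 < s) (σ : Equiv.Perm (Fin k))
    {M : Finset (ℕ × ℕ)} (hM : ¬ MatPat σ M) (u : ℕ) (V : Finset ℕ)
    (hV : ∀ v ∈ V, k ≤ ((M.filter (fun c => (c.1 / s, c.2 / s) = (u, v))).image
      Prod.fst).card) :
    V.card ≤ (k - 1) * Nat.choose s k := by
  by_contra hlt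
  push Not at hlt
  have hex : ∀ v : ℕ, ∃ T : Finset ℕ, v ∈ V →
      T ⊆ ((M.filter (fun c => (c.1 / s, c.2 / s) = (u, v))).image Prod.fst) ∧ T.card = k := by
    intro v
    by_cases hv : v ∈ V
    · obtain ⟨T, hT⟩ := Finset.exists_subset_card_eq (hV v hv)
      exact ⟨T, fun _ => hT⟩
    · exact ⟨∅, fun h => absurd h hv⟩
  choose T hT using hex
  have hmaps : ∀ v ∈ V, T v ∈ Finset.powersetCard k (Finset.Ico (u * s) (u * s + s)) := by
    intro v hv
    rw [Finset.mem_powersetCard]
    refine ⟨fun x hx => ?_, (hT v hv).2⟩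
    have h1 := (hT v hv).1 hx
    rw [Finset.mem_image] at h1
    obtain ⟨c, hc, rfl⟩ := h1
    rw [Finset.mem_filter] at hc
    have h2 : c.1 / s = u := (Prod.mk.inj hc.2).1
    rw [Finset.mem_Ico]
    have h3 := Nat.div_add_mod c.1 s
    have h4 := Nat.mod_lt c.1 hs
    have h5 := Nat.zero_le (c.1 % s)
    rw [h2, mul_comm s] at h3
    constructor
    · linarith
    · linarith
  have hcard : (Finset.powersetCard k (Finset.Ico (u * s) (u * s + s))).card * (k - 1) <
      V.card := by
    rw [Finset.card_powersetCard, Nat.card_Ico, Nat.add_sub_cancel_left, mul_comm]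
    exact hlt
  obtain ⟨Y, hY, hYc⟩ := Finset.exists_lt_card_fiber_of_mul_lt_card_of_maps_to hmaps hcard
  have hYk : Y.card = k := (Finset.mem_powersetCard.1 hY).2
  obtain ⟨W, hW, hWk⟩ := Finset.exists_subset_card_eq (s := V.filter (fun v => T v = Y))
    (n := k) (by omega)
  set c := Y.orderEmbOfFin hYk with hc
  set w := W.orderEmbOfFin hWk with hw
  have hg : ∀ j : Fin k, ∃ y : ℕ, (c (σ.symm j), y) ∈ M ∧ y / s = w j := by
    intro j
    have h1 : w j ∈ V.filter (fun v => T v = Y) := hW (Finset.orderEmbOfFin_mem W hWk j)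
    rw [Finset.mem_filter] at h1
    have h2 : c (σ.symm j) ∈ T (w j) := by
      rw [h1.2]
      exact Finset.orderEmbOfFin_mem Y hYk _
    have h3 := (hT (w j) h1.1).1 h2
    rw [Finset.mem_image] at h3
    obtain ⟨d, hd, hde⟩ := h3
    rw [Finset.mem_filter] at hd
    refine ⟨d.2, ?_, (Prod.mk.inj hd.2).2⟩
    rw [← hde]
    exact hd.1
  choose g hg using hg
  apply hM
  refine ⟨c, g, c.strictMono, ?_, ?_⟩
  · intro a b hab
    by_contra hle
    push Not at hle
    have h1 := Nat.div_le_div_right (c := s) hle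
    rw [(hg a).2, (hg b).2] at h1
    exact absurd (w.strictMono hab) (not_lt.2 h1)
  · intro i
    have h1 := (hg (σ i)).1
    rwa [Equiv.symm_apply_apply] at h1

theorem wide_total {k : ℕ} (hk : 0 < k) {s : ℕ} (hs : 0 < s) (σ : Equiv.Perm (Fin k))
    {M : Finset (ℕ × ℕ)} (hM : ¬ MatPat σ M) (N : ℕ) (W : Finset (ℕ × ℕ))
    (hW : ∀ b ∈ W, b.1 < N)
    (hV : ∀ b ∈ W, k ≤ ((M.filter (fun c => (c.1 / s, c.2 / s) = b)).image
      Prod.fst).card) :
    W.card ≤ (k - 1) * Nat.choose s k * N := by
  have h1 : W.card ≤ (k - 1) * Nat.choose s k * (W.image Prod.fst).card := by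
    apply Finset.card_le_mul_card_image
    intro u hu
    have h2 : (W.filter (fun x => x.1 = u)).card =
        ((W.filter (fun x => x.1 = u)).image Prod.snd).card := by
      rw [Finset.card_image_of_injOn]
      intro a ha b hb hab
      rw [Finset.mem_coe, Finset.mem_filter] at ha hb
      exact Prod.ext (ha.2.trans hb.2.symm) hab
    rw [h2]
    apply wide_count hk hs σ hM u
    intro v hv
    rw [Finset.mem_image] at hv
    obtain ⟨b, hb, rfl⟩ := hv
    rw [Finset.mem_filter] at hb
    have h3 := hV b hb.1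
    have h4 : b = (u, b.2) := Prod.ext hb.2 rfl
    rw [h4] at h3
    exact h3
  have h2 : (W.image Prod.fst).card ≤ N := by
    have h3 : W.image Prod.fst ⊆ Finset.range N := by
      intro x hx
      rw [Finset.mem_image] at hx
      obtain ⟨b, hb, rfl⟩ := hx
      exact Finset.mem_range.2 (hW b hb)
    calc _ ≤ (Finset.range N).card := Finset.card_le_card h3
      _ = N := Finset.card_range N
  exact h1.trans (Nat.mul_le_mul_left _ h2)

theorem tall_total {k : ℕ} (hk : 0 < k) {s : ℕ} (hs : 0 < s) (σ : Equiv.Perm (Fin k))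
    {M : Finset (ℕ × ℕ)} (hM : ¬ MatPat σ M) (N : ℕ) (W : Finset (ℕ × ℕ))
    (hW : ∀ b ∈ W, b.2 < N)
    (hV : ∀ b ∈ W, k ≤ ((M.filter (fun c => (c.1 / s, c.2 / s) = b)).image
      Prod.snd).card) :
    W.card ≤ (k - 1) * Nat.choose s k * N := by
  have hM' : ¬ MatPat σ.symm (M.image Prod.swap) := fun h => hM (matPat_swap h)
  have h1 := wide_total hk hs σ.symm hM' N (W.image Prod.swap) ?_ ?_
  · rwa [Finset.card_image_of_injective _ Prod.swap_injective] at h1
  · intro b hb
    rw [Finset.mem_image] at hb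
    obtain ⟨c, hc, rfl⟩ := hb
    exact hW c hc
  · intro b hb
    rw [Finset.mem_image] at hb
    obtain ⟨c, hc, rfl⟩ := hb
    refine (hV c hc).trans (Finset.card_le_card ?_)
    intro x hx
    rw [Finset.mem_image] at hx ⊢
    obtain ⟨d, hd, rfl⟩ := hx
    rw [Finset.mem_filter] at hd
    refine ⟨d.swap, ?_, rfl⟩
    rw [Finset.mem_filter]
    refine ⟨Finset.mem_image_of_mem _ hd.1, ?_⟩
    rw [← hd.2]
    rfl

theorem block_pattern {k : ℕ} {s : ℕ} (σ : Equiv.Perm (Fin k))
    {M : Finset (ℕ × ℕ)} (h : MatPat σ (M.image (fun c => (c.1 / s, c.2 / s)))) :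
    MatPat σ M := by
  obtain ⟨f, g, hf, hg, hM⟩ := h
  have hex : ∀ i : Fin k, ∃ c ∈ M, c.1 / s = f i ∧ c.2 / s = g (σ i) := by
    intro i
    have h1 := hM i
    rw [Finset.mem_image] at h1
    obtain ⟨c, hc, hce⟩ := h1
    exact ⟨c, hc, (Prod.mk.inj hce).1, (Prod.mk.inj hce).2⟩
  choose c hcM hc1 hc2 using hex
  refine ⟨fun i => (c i).1, fun j => (c (σ.symm j)).2, ?_, ?_, ?_⟩
  · intro a b hab
    by_contra hle
    push Not at hle
    have h1 := Nat.div_le_div_right (c := s) hle
    rw [hc1, hc1] at h1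
    exact absurd (hf hab) (not_lt.2 h1)
  · intro a b hab
    by_contra hle
    push Not at hle
    have h1 := Nat.div_le_div_right (c := s) hle
    rw [hc2, hc2, Equiv.apply_symm_apply, Equiv.apply_symm_apply] at h1
    exact absurd (hg hab) (not_lt.2 h1)
  · intro i
    simp only [Equiv.symm_apply_apply]
    exact hcM i

theorem cols_card {s : ℕ} (hs : 0 < s) (M : Finset (ℕ × ℕ)) (b : ℕ × ℕ) :
    ((M.filter (fun c => (c.1 / s, c.2 / s) = b)).image Prod.fst).card ≤ s := by
  have h : ((M.filter (fun c => (c.1 / s, c.2 / s) = b)).image Prod.fst) ⊆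
      Finset.Ico (b.1 * s) (b.1 * s + s) := by
    intro x hx
    rw [Finset.mem_image] at hx
    obtain ⟨c, hc, rfl⟩ := hx
    rw [Finset.mem_filter] at hc
    have h2 : c.1 / s = b.1 := by rw [← hc.2]
    rw [Finset.mem_Ico]
    have h3 := Nat.div_add_mod c.1 s
    have h4 := Nat.mod_lt c.1 hs
    have h5 := Nat.zero_le (c.1 % s)
    rw [h2, mul_comm s] at h3
    constructor
    · linarith
    · linarith
  calc _ ≤ (Finset.Ico (b.1 * s) (b.1 * s + s)).card := Finset.card_le_card h
    _ = s := by rw [Nat.card_Ico, Nat.add_sub_cancel_left]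

theorem rows_card {s : ℕ} (hs : 0 < s) (M : Finset (ℕ × ℕ)) (b : ℕ × ℕ) :
    ((M.filter (fun c => (c.1 / s, c.2 / s) = b)).image Prod.snd).card ≤ s := by
  have h : ((M.filter (fun c => (c.1 / s, c.2 / s) = b)).image Prod.snd) ⊆
      Finset.Ico (b.2 * s) (b.2 * s + s) := by
    intro x hx
    rw [Finset.mem_image] at hx
    obtain ⟨c, hc, rfl⟩ := hx
    rw [Finset.mem_filter] at hc
    have h2 : c.2 / s = b.2 := by rw [← hc.2]
    rw [Finset.mem_Ico]
    have h3 := Nat.div_add_mod c.2 s
    have h4 := Nat.mod_lt c.2 hs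
    have h5 := Nat.zero_le (c.2 % s)
    rw [h2, mul_comm s] at h3
    constructor
    · linarith
    · linarith
  calc _ ≤ (Finset.Ico (b.2 * s) (b.2 * s + s)).card := Finset.card_le_card h
    _ = s := by rw [Nat.card_Ico, Nat.add_sub_cancel_left]

theorem block_card (s : ℕ) (M : Finset (ℕ × ℕ)) (b : ℕ × ℕ) :
    (M.filter (fun c => (c.1 / s, c.2 / s) = b)).card ≤
      ((M.filter (fun c => (c.1 / s, c.2 / s) = b)).image Prod.fst).card *
      ((M.filter (fun c => (c.1 / s, c.2 / s) = b)).image Prod.snd).card := by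
  rw [← Finset.card_product]
  apply Finset.card_le_card
  intro c hc
  rw [Finset.mem_product]
  exact ⟨Finset.mem_image_of_mem _ hc, Finset.mem_image_of_mem _ hc⟩

theorem marcus_tardos_pow {k : ℕ} (hk : 0 < k) (σ : Equiv.Perm (Fin k)) (t : ℕ) :
    ∀ M : Finset (ℕ × ℕ), M ⊆ Finset.range ((k ^ 2) ^ t) ×ˢ Finset.range ((k ^ 2) ^ t) →
      ¬ MatPat σ M → M.card ≤ 2 * k ^ 4 * Nat.choose (k ^ 2) k * (k ^ 2) ^ t := by
  have hch : 0 < Nat.choose (k ^ 2) k := Nat.choose_pos (by nlinarith)
  have hC0 : 0 < 2 * k ^ 4 * Nat.choose (k ^ 2) k := by positivity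
  induction t with
  | zero =>
    intro M hM _
    have h1 := Finset.card_le_card hM
    simp only [pow_zero, Finset.card_product, Finset.card_range, mul_one] at h1 ⊢
    omega
  | succ t ih =>
    intro M hM hpat
    set s := k ^ 2 with hsdef
    have hs : 0 < s := by positivity
    set blk : ℕ × ℕ → ℕ × ℕ := fun c => (c.1 / s, c.2 / s) with hblk
    set B := M.image blk with hB
    have hBsub : B ⊆ Finset.range (s ^ t) ×ˢ Finset.range (s ^ t) := by
      intro b hb
      rw [hB, Finset.mem_image] at hb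
      obtain ⟨c, hc, rfl⟩ := hb
      have h1 := hM hc
      rw [Finset.mem_product, Finset.mem_range, Finset.mem_range] at h1 ⊢
      rw [pow_succ] at h1
      exact ⟨Nat.div_lt_of_lt_mul (by rw [mul_comm]; exact h1.1),
        Nat.div_lt_of_lt_mul (by rw [mul_comm]; exact h1.2)⟩
    have hBpat : ¬ MatPat σ B := fun h => hpat (block_pattern σ h)
    have hBcard := ih B hBsub hBpat
    set cl : ℕ × ℕ → ℕ := fun b =>
      ((M.filter (fun c => (c.1 / s, c.2 / s) = b)).image Prod.fst).card with hcl
    set rw' : ℕ × ℕ → ℕ := fun b =>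
      ((M.filter (fun c => (c.1 / s, c.2 / s) = b)).image Prod.snd).card with hrw
    have hW := wide_total hk hs σ hpat (s ^ t) (B.filter (fun b => k ≤ cl b))
      (fun b hb => by
        have h1 := hBsub (Finset.mem_filter.1 hb).1
        rw [Finset.mem_product, Finset.mem_range, Finset.mem_range] at h1
        exact h1.1) (fun b hb => (Finset.mem_filter.1 hb).2)
    have hT := tall_total hk hs σ hpat (s ^ t) (B.filter (fun b => k ≤ rw' b))
      (fun b hb => by
        have h1 := hBsub (Finset.mem_filter.1 hb).1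
        rw [Finset.mem_product, Finset.mem_range, Finset.mem_range] at h1
        exact h1.2) (fun b hb => (Finset.mem_filter.1 hb).2)
    have hsum : M.card = ∑ b ∈ B, (M.filter (fun c => (c.1 / s, c.2 / s) = b)).card := by
      apply Finset.card_eq_sum_card_fiberwise
      intro c hc
      exact Finset.mem_image_of_mem _ hc
    have hterm : ∀ b ∈ B, (M.filter (fun c => (c.1 / s, c.2 / s) = b)).card ≤
        (k - 1) ^ 2 + ((if k ≤ cl b then s ^ 2 else 0) + (if k ≤ rw' b then s ^ 2 else 0)) := by
      intro b _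
      have h1 : (M.filter (fun c => (c.1 / s, c.2 / s) = b)).card ≤ cl b * rw' b :=
        block_card s M b
      have h2 : cl b ≤ s := cols_card hs M b
      have h3 : rw' b ≤ s := rows_card hs M b
      have h4 : cl b * rw' b ≤ s ^ 2 := by
        rw [pow_two]; exact Nat.mul_le_mul h2 h3
      by_cases hc : k ≤ cl b
      · rw [if_pos hc]
        omega
      · by_cases hr : k ≤ rw' b
        · rw [if_pos hr]
          omega
        · have h5 : cl b * rw' b ≤ (k - 1) ^ 2 := by
            rw [pow_two]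
            exact Nat.mul_le_mul (by omega) (by omega)
          omega
    have hM1 : M.card ≤ (k - 1) ^ 2 * B.card +
        (s ^ 2 * (B.filter (fun b => k ≤ cl b)).card +
          s ^ 2 * (B.filter (fun b => k ≤ rw' b)).card) := by
      rw [hsum]
      refine (Finset.sum_le_sum hterm).trans (le_of_eq ?_)
      rw [Finset.sum_add_distrib, Finset.sum_add_distrib, Finset.sum_const, smul_eq_mul,
        ← Finset.sum_filter, ← Finset.sum_filter, Finset.sum_const, Finset.sum_const,
        smul_eq_mul, smul_eq_mul]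
      ring
    obtain ⟨m, rfl⟩ : ∃ m, k = m + 1 := ⟨k - 1, by omega⟩
    rw [Nat.add_sub_cancel] at hM1 hW hT
    set C := Nat.choose s (m + 1) with hCdef
    set X := s ^ t with hX
    have hs2 : s ^ 2 = (m + 1) ^ 4 := by rw [hsdef]; ring
    have e1 : m ^ 2 * B.card ≤ m ^ 2 * (2 * (m + 1) ^ 4 * C * X) := Nat.mul_le_mul_left _ hBcard
    have e2 := Nat.mul_le_mul_left (s ^ 2) hW
    have e3 := Nat.mul_le_mul_left (s ^ 2) hT
    have e4 : m ^ 2 * (2 * (m + 1) ^ 4 * C * X) + (s ^ 2 * (m * C * X) + s ^ 2 * (m * C * X)) ≤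
        2 * (m + 1) ^ 4 * C * s ^ (t + 1) := by
      have e6 : s ^ (t + 1) = X * (m + 1) ^ 2 := by rw [pow_succ]
      rw [e6, hs2]
      have e5 : 2 * (m + 1) ^ 4 * C * (X * (m + 1) ^ 2) =
        m ^ 2 * (2 * (m + 1) ^ 4 * C * X) + ((m + 1) ^ 4 * (m * C * X) +
          (m + 1) ^ 4 * (m * C * X)) + (m + 1) * (2 * (m + 1) ^ 4 * C * X) := by ring
      rw [e5]
      exact Nat.le_add_right _ _
    omega

theorem marcus_tardos {r : ℕ} (σ : Equiv.Perm (Fin r)) :
    ∃ C : ℕ, ∀ (n : ℕ) (M : Finset (ℕ × ℕ)), M ⊆ Finset.range n ×ˢ Finset.range n →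
      ¬ MatPat σ M → M.card ≤ C * n := by
  rcases Nat.lt_or_ge r 2 with hr | hr
  · refine ⟨0, fun n M _ hp => ?_⟩
    rw [zero_mul, Nat.le_zero, Finset.card_eq_zero]
    by_contra hne
    obtain ⟨c, hc⟩ := Finset.nonempty_iff_ne_empty.2 hne
    apply hp
    have hsub : Subsingleton (Fin r) := by
      rcases Nat.lt_or_ge r 1 with h0 | h1
      · have : r = 0 := by omega
        subst this
        infer_instance
      · have : r = 1 := by omega
        subst this
        infer_instance
    exact ⟨fun _ => c.1, fun _ => c.2, Subsingleton.strictMono _, Subsingleton.strictMono _,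
      fun _ => hc⟩
  · refine ⟨2 * r ^ 4 * Nat.choose (r ^ 2) r * r ^ 2, fun n M hM hp => ?_⟩
    have hs : 1 < r ^ 2 := by nlinarith
    have h1 : n ≤ (r ^ 2) ^ (Nat.clog (r ^ 2) n) := Nat.le_pow_clog hs n
    have h2 : M ⊆ Finset.range ((r ^ 2) ^ (Nat.clog (r ^ 2) n)) ×ˢ
        Finset.range ((r ^ 2) ^ (Nat.clog (r ^ 2) n)) :=
      hM.trans (Finset.product_subset_product (Finset.range_subset_range.2 h1)
        (Finset.range_subset_range.2 h1))
    have h3 := marcus_tardos_pow (by omega) σ _ M h2 hp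
    rcases Nat.lt_or_ge 1 n with hn | hn
    · have h4 := Nat.pow_pred_clog_lt_self hs hn
      have h5 : 0 < Nat.clog (r ^ 2) n := Nat.clog_pos hs hn
      have h6 : (r ^ 2) ^ (Nat.clog (r ^ 2) n) =
          (r ^ 2) * (r ^ 2) ^ (Nat.clog (r ^ 2) n).pred := by
        rw [← pow_succ', Nat.pred_eq_sub_one, Nat.sub_add_cancel h5]
      have h7 : (r ^ 2) ^ (Nat.clog (r ^ 2) n) ≤ r ^ 2 * n := by
        rw [h6]
        exact Nat.mul_le_mul_left _ h4.le
      calc M.card ≤ _ := h3
        _ ≤ 2 * r ^ 4 * Nat.choose (r ^ 2) r * (r ^ 2 * n) := Nat.mul_le_mul_left _ h7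
        _ = _ := by ring
    · rcases Nat.lt_or_ge n 1 with h0 | h0
      · have : n = 0 := by omega
        subst this
        have h8 := Finset.card_le_card hM
        simpa using h8
      · have : n = 1 := by omega
        subst this
        have h8 := Finset.card_le_card hM
        simp only [Finset.card_product, Finset.card_range, mul_one] at h8 ⊢
        have hch : 0 < Nat.choose (r ^ 2) r := Nat.choose_pos (by nlinarith)
        have : 0 < 2 * r ^ 4 * Nat.choose (r ^ 2) r * r ^ 2 := by positivity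
        omega

end Pool.Agent.Heil
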