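import Pool.Agent.Heil.Basic

/-!
# Heilbronn's problem and permutation patterns: definitions
-/

namespace Pool.Agent.Heil

/-- `S` contains the permutation `σ`: there are `r` points of `S` such that, when they are listed
from left to right, their ordinates are in the relative order of `σ 0, σ 1, ..., σ (r - 1)`. -/
def Contains {r : ℕ} (σ : Equiv.Perm (Fin r)) (S : Finset ℂ) : Prop :=
  ∃ f : Fin r → ℂ, (∀ i, f i ∈ S) ∧ (∀ i j, i < j → (f i).re < (f j).re) ∧
    ∀ i j, σ i < σ j → (f i).im < (f j).im

/-- The set `M` of cells (column, row) of a board contains the permutation `σ`. -/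
def MatPat {r : ℕ} (σ : Equiv.Perm (Fin r)) (M : Finset (ℕ × ℕ)) : Prop :=
  ∃ f g : Fin r → ℕ, StrictMono f ∧ StrictMono g ∧ ∀ i, (f i, g (σ i)) ∈ M

end Pool.Agent.Heil
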