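import Pool.Agent.Heil.PatDefs

/-!
# Package HP3: the dyadic increments

`N = 2 ^ L`.  For a family `X : ℕ × ℕ → ℝ` with values in `[0, 1]` (level and number of a dyadic block)
let `inc X L m = 1 + (1 / (2 (L+1))) Σ_(l ≤ L) X (l, m / 2^l)` and
`yv X L i = Σ_(m < i) inc X L m`.

(1) `1 ≤ inc ≤ 3/2`: hence `yv X L i + (j - i) ≤ yv X L j` and `yv X L j ≤ 3 j / 2`.

(2) Every interval `[i, j)` with `i < j ≤ 2 ^ L` contains a dyadic block `[u 2^l, (u+1) 2^l)`, `l ≤ L`,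
with `4 * 2^l ≥ j - i`: let `p = j - i` and `2^l ≤ p < 2^(l+1)`; if `l ≤ 1` take the block
`[i, i + 1)` (`l = 0`, `4 ≥ p`); if `l ≥ 1` take the level `l - 1` and
`u = ⌈i / 2^(l-1)⌉ = (i + 2^(l-1) - 1) / 2^(l-1)`: `i ≤ u 2^(l-1)` and
`(u + 1) 2^(l-1) ≤ i + 2 * 2^(l-1) = i + 2^l ≤ j`; `4 * 2^(l-1) = 2^(l+1) ≥ p`.

(3) Let `i < j ≤ k` and `(l, u)` a block inside `[i, j)`.  Changing the value of `X` at `(l, u)` from
`X` to `Function.update X (l, u) v` changes `inc m` by `(v - X (l,u)) / (2(L+1))` for the `2^l` numbers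
`m` with `m / 2^l = u`, i.e. `u 2^l ≤ m < (u+1) 2^l`, and by nothing for the others.  So with
`D X = (j - i) (yv X k - yv X j) - (k - j) (yv X j - yv X i)` (this is `N²` times twice the signed
area of the three points) we have
`D (update X (l,u) v) = D (update X (l,u) 0) - (k - j) 2^l / (2 (L+1)) * v`.
(`yv X j - yv X i = Σ_(m ∈ [i, j))`, `Finset.sum_Ico_eq_sub`; split off the block; the difference
`yv X k - yv X j` does not change.)
-/

namespace Pool.Agent.Heil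

open Finset

/-- The increment number `m`. -/
noncomputable def inc (L : ℕ) (X : ℕ × ℕ → ℝ) (m : ℕ) : ℝ :=
  1 + 1 / (2 * ((L : ℝ) + 1)) * ∑ l ∈ range (L + 1), X (l, m / 2 ^ l)

/-- The partial sums of the increments. -/
noncomputable def yv (L : ℕ) (X : ℕ × ℕ → ℝ) (i : ℕ) : ℝ := ∑ m ∈ range i, inc L X m

/-- `N²` times twice the signed area. -/
noncomputable def DD (L : ℕ) (i j k : ℕ) (X : ℕ × ℕ → ℝ) : ℝ :=
  ((j : ℝ) - i) * (yv L X k - yv L X j) - ((k : ℝ) - j) * (yv L X j - yv L X i)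

theorem inc_bounds {L : ℕ} {X : ℕ × ℕ → ℝ} (hX : ∀ b, 0 ≤ X b ∧ X b ≤ 1) (m : ℕ) :
    1 ≤ inc L X m ∧ inc L X m ≤ 3 / 2 := by
  have h1 : 0 ≤ ∑ l ∈ range (L + 1), X (l, m / 2 ^ l) := sum_nonneg fun l _ => (hX _).1
  have h2 : ∑ l ∈ range (L + 1), X (l, m / 2 ^ l) ≤ (L : ℝ) + 1 := by
    calc ∑ l ∈ range (L + 1), X (l, m / 2 ^ l) ≤ ∑ l ∈ range (L + 1), (1 : ℝ) :=
          sum_le_sum fun l _ => (hX _).2
      _ = (L : ℝ) + 1 := by simp
  have h3 : (0 : ℝ) < 2 * ((L : ℝ) + 1) := by positivity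
  have h4 : 0 ≤ 1 / (2 * ((L : ℝ) + 1)) := by positivity
  unfold inc
  constructor
  · have := mul_nonneg h4 h1
    linarith
  · have h5 : 1 / (2 * ((L : ℝ) + 1)) * ∑ l ∈ range (L + 1), X (l, m / 2 ^ l) ≤
        1 / (2 * ((L : ℝ) + 1)) * ((L : ℝ) + 1) := mul_le_mul_of_nonneg_left h2 h4
    have h6 : 1 / (2 * ((L : ℝ) + 1)) * ((L : ℝ) + 1) = 1 / 2 := by
      field_simp
    rw [h6] at h5
    linarith

private theorem yv_succ (L : ℕ) (X : ℕ × ℕ → ℝ) (j : ℕ) :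
    yv L X (j + 1) = yv L X j + inc L X j := sum_range_succ _ _

theorem yv_bounds {L : ℕ} {X : ℕ × ℕ → ℝ} (hX : ∀ b, 0 ≤ X b ∧ X b ≤ 1) {i j : ℕ} (hij : i ≤ j) :
    yv L X i + ((j : ℝ) - i) ≤ yv L X j ∧ 0 ≤ yv L X i ∧ yv L X j ≤ 3 / 2 * j := by
  refine ⟨?_, sum_nonneg fun m _ => le_trans zero_le_one (inc_bounds hX m).1, ?_⟩
  · induction j, hij using Nat.le_induction with
    | base => simp
    | succ j _ ih =>
      rw [yv_succ]
      push_cast
      have := (inc_bounds (L := L) hX j).1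
      linarith
  · clear hij
    induction j with
    | zero => simp [yv]
    | succ j ih =>
      rw [yv_succ]
      push_cast
      have := (inc_bounds (L := L) hX j).2
      linarith

theorem exists_block {L i j : ℕ} (hij : i < j) (hj : j ≤ 2 ^ L) :
    ∃ l u : ℕ, l ≤ L ∧ u < 2 ^ L ∧ i ≤ u * 2 ^ l ∧ (u + 1) * 2 ^ l ≤ j ∧ j - i ≤ 4 * 2 ^ l := by
  have hp : j - i ≠ 0 := by omega
  have h1 : 2 ^ Nat.log 2 (j - i) ≤ j - i := Nat.pow_log_le_self 2 hp
  have h2 : j - i < 2 ^ (Nat.log 2 (j - i) + 1) := Nat.lt_pow_succ_log_self (by norm_num) _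
  rcases Nat.eq_zero_or_pos (Nat.log 2 (j - i)) with h0 | h0
  · rw [h0] at h2
    refine ⟨0, i, Nat.zero_le _, by omega, ?_, ?_, ?_⟩
    · rw [pow_zero, mul_one]
    · rw [pow_zero, mul_one]
      omega
    · norm_num at h2 ⊢
      omega
  · obtain ⟨l, hl⟩ : ∃ l, Nat.log 2 (j - i) = l + 1 := ⟨_, (Nat.succ_pred_eq_of_pos h0).symm⟩
    rw [hl] at h1 h2
    have hq : 0 < 2 ^ l := by positivity
    have h3 : 2 ^ (l + 1) = 2 * 2 ^ l := by ring
    have h4 : 2 ^ (l + 1 + 1) = 4 * 2 ^ l := by ring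
    rw [h3] at h1
    rw [h4] at h2
    have h5 : (i + 2 ^ l - 1) / 2 ^ l * 2 ^ l + (i + 2 ^ l - 1) % 2 ^ l = i + 2 ^ l - 1 :=
      Nat.div_add_mod' _ _
    have h6 : (i + 2 ^ l - 1) % 2 ^ l < 2 ^ l := Nat.mod_lt _ hq
    have h7 : (i + 2 ^ l - 1) / 2 ^ l ≤ (i + 2 ^ l - 1) / 2 ^ l * 2 ^ l :=
      Nat.le_mul_of_pos_right _ hq
    have h8 : ((i + 2 ^ l - 1) / 2 ^ l + 1) * 2 ^ l =
        (i + 2 ^ l - 1) / 2 ^ l * 2 ^ l + 2 ^ l := by ring
    refine ⟨l, (i + 2 ^ l - 1) / 2 ^ l, ?_, by omega, by omega, ?_, by omega⟩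
    · have h9 : 2 ^ l ≤ 2 ^ L := by omega
      exact (Nat.pow_le_pow_iff_right (by norm_num)).1 h9
    · rw [h8]
      omega

private theorem inc_update {L l u : ℕ} (hl : l ≤ L) (X : ℕ × ℕ → ℝ) (v : ℝ) (m : ℕ) :
    inc L (Function.update X (l, u) v) m = inc L (Function.update X (l, u) 0) m +
      1 / (2 * ((L : ℝ) + 1)) * (if m / 2 ^ l = u then v else 0) := by
  have h1 : ∀ q : ℕ × ℕ, Function.update X (l, u) v q = Function.update X (l, u) 0 q +
      (if q = (l, u) then v else 0) := by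
    intro q
    by_cases hq : q = (l, u)
    · rw [hq, Function.update_self, Function.update_self, if_pos rfl, zero_add]
    · rw [Function.update_of_ne hq, Function.update_of_ne hq, if_neg hq, add_zero]
  have h2 : ∑ l' ∈ range (L + 1), (if (l', m / 2 ^ l') = (l, u) then v else 0) =
      if m / 2 ^ l = u then v else 0 := by
    rw [sum_eq_single l]
    · by_cases h : m / 2 ^ l = u
      · rw [if_pos h, if_pos (by rw [h])]
      · rw [if_neg h, if_neg fun h3 => h (congrArg Prod.snd h3)]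
    · intro b _ hb
      rw [if_neg fun h3 => hb (congrArg Prod.fst h3)]
    · intro h3
      exact absurd (mem_range.2 (Nat.lt_succ_of_le hl)) h3
  unfold inc
  simp only [h1]
  rw [sum_add_distrib, ← h2]
  ring

private theorem yv_update {L l u : ℕ} (hl : l ≤ L) (X : ℕ × ℕ → ℝ) (v : ℝ) (n : ℕ) :
    yv L (Function.update X (l, u) v) n = yv L (Function.update X (l, u) 0) n +
      1 / (2 * ((L : ℝ) + 1)) * ∑ m ∈ range n, (if m / 2 ^ l = u then v else 0) := by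
  unfold yv
  rw [mul_sum, ← sum_add_distrib]
  exact sum_congr rfl fun m _ => inc_update hl X v m

private theorem block_low {l u n : ℕ} (h : n ≤ u * 2 ^ l) (v : ℝ) :
    ∑ m ∈ range n, (if m / 2 ^ l = u then v else 0) = 0 := by
  refine sum_eq_zero fun m hm => ?_
  rw [mem_range] at hm
  have h1 : m / 2 ^ l < u := (Nat.div_lt_iff_lt_mul (by positivity)).2 (by omega)
  rw [if_neg h1.ne]

private theorem block_high {l u n : ℕ} (h : (u + 1) * 2 ^ l ≤ n) (v : ℝ) :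
    ∑ m ∈ range n, (if m / 2 ^ l = u then v else 0) = 2 ^ l * v := by
  have hq : 0 < 2 ^ l := by positivity
  have h1 : (range n).filter (fun m => m / 2 ^ l = u) = Ico (u * 2 ^ l) ((u + 1) * 2 ^ l) := by
    ext m
    rw [mem_filter, mem_range, mem_Ico]
    constructor
    · rintro ⟨-, rfl⟩
      exact ⟨Nat.div_mul_le_self _ _, Nat.lt_mul_of_div_lt (Nat.lt_succ_self _) hq⟩
    · rintro ⟨h2, h3⟩
      refine ⟨h3.trans_le h, le_antisymm ?_ ?_⟩
      · exact Nat.lt_succ_iff.1 ((Nat.div_lt_iff_lt_mul hq).2 h3)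
      · exact (Nat.le_div_iff_mul_le hq).2 h2
  rw [← sum_filter, h1, sum_const, Nat.card_Ico, nsmul_eq_mul]
  have h4 : (u + 1) * 2 ^ l - u * 2 ^ l = 2 ^ l := by
    rw [add_mul, one_mul]
    omega
  rw [h4]
  push_cast
  ring

theorem DD_update {L i j k l u : ℕ} (hl : l ≤ L) (hi : i ≤ u * 2 ^ l) (hj : (u + 1) * 2 ^ l ≤ j)
    (hjk : j ≤ k) (X : ℕ × ℕ → ℝ) (v : ℝ) :
    DD L i j k (Function.update X (l, u) v) = DD L i j k (Function.update X (l, u) 0)
      + (-(((k : ℝ) - j) * 2 ^ l * (1 / (2 * ((L : ℝ) + 1))))) * v := by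
  unfold DD
  rw [yv_update hl X v i, yv_update hl X v j, yv_update hl X v k, block_low hi,
    block_high hj, block_high (hj.trans hjk)]
  ring

end Pool.Agent.Heil
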