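import Pool.Agent.Heil.PatDyadic
import Pool.Agent.Heil.Count
import Pool.Agent.Heil.Arcs

/-!
# Package HP4: increasing sets with large triangles

Proof.  Let `N = 2 ^ L`, `L ≥ 2`.  Apply `exists_few_bad` (Count.lean) with the coordinates
`A = Fin (L+1) × Fin N` (blocks), `Q = N^3` values, and `X (l, u) = s (l, u) / Q` for `l ≤ L`, `u < N`
(`0` for the other pairs), so `0 ≤ X ≤ 1`.  The index set `T` is the set of all triples
`(i, j, k)` with `i < j < k < N` (a subset of `range N ×ˢ range N ×ˢ range N`), and a triple is bad if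
`|DD L i j k X| < τ`, `τ = 1 / (64 (L+1)^3)`.  For the triple `(i, j, k)` use the block `(l, u)` of
`exists_block` for `[i, j)`.  By `DD_update`, as a function of `v = q / Q`, `DD = α + β v` with
`|β| = (k - j) 2^l / (2 (L+1)) ≥ (k - j) (j - i) / (8 (L+1))`, and by `card_progression_le`
(`δ = 1/Q`) at most `2 τ Q/|β| + 1` of the `Q` values are bad, i.e. at most `p Q` with
`p = 16 τ (L+1) / ((j-i)(k-j)) + 1/Q`.
(Note that `Function.update` of the family `s : A → Fin Q` corresponds to `Function.update` of `X`.)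
Sum over the triples: `Σ_(i) Σ_(p ≥ 1) Σ_(q ≥ 1) 1/(p q) ≤ N H²` with
`H = Σ_(d < N) 1/(d+1) ≤ L + 1` (induction on `L`: `Σ_(2^L ≤ d < 2^(L+1)) 1/(d+1) ≤ 1`), so the
number of bad triples for a suitable `s` is at most
`16 τ (L+1) N (L+1)^2 + 1 ≤ N/4 + 1 ≤ N/2`.

Delete from `range N` the first index `i` of every bad triple: a set `J` of at least `N/2` indices
without bad triple.  The points `P i = ((i : ℝ)/N + (yv L X i / N) I)/2` (`⟨i / (2N), yv / (2N)⟩`) are in the unit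
disk (`re ≤ 1/2`, `0 ≤ im ≤ 3/4`), both coordinates are strictly increasing in `i` (`yv_bounds`), and
twice the signed area of `P i, P j, P k` is `± DD L i j k X / (4 N²)`: so for `i < j < k` in `J` the area
is at least `τ / (8 N²) = 1/(512 N² (L+1)^3)`.  (`triArea` is invariant under permutations of the
three points: `triArea_swap₁`, `triArea_rot`, `triArea_swap₂` in Arcs.lean, so every triple of
distinct points of the set is covered.)  Choose a subset with exactly `n` points.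
-/

namespace Pool.Agent.Heil

open Finset

private theorem harm_pow (L : ℕ) :
    ∑ d ∈ range (2 ^ L), (1 : ℝ) / (d + 1) ≤ (L : ℝ) + 1 := by
  induction L with
  | zero => simp
  | succ L ih =>
    have h1 : (2 : ℕ) ^ L ≤ 2 ^ (L + 1) := Nat.pow_le_pow_right (by norm_num) (Nat.le_succ L)
    rw [← Finset.sum_range_add_sum_Ico _ h1]
    have h2 : ∑ d ∈ Finset.Ico (2 ^ L : ℕ) (2 ^ (L + 1)), (1 : ℝ) / (d + 1) ≤ 1 := by
      have h3 : ∑ d ∈ Finset.Ico (2 ^ L : ℕ) (2 ^ (L + 1)), (1 : ℝ) / (d + 1) ≤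
          ∑ _d ∈ Finset.Ico (2 ^ L : ℕ) (2 ^ (L + 1)), (1 : ℝ) / 2 ^ L := by
        refine Finset.sum_le_sum fun d hd => ?_
        have h4 : ((2 ^ L : ℕ) : ℝ) ≤ d := by exact_mod_cast (Finset.mem_Ico.1 hd).1
        push_cast at h4
        exact one_div_le_one_div_of_le (by positivity) (by linarith)
      rw [Finset.sum_const, Nat.card_Ico, nsmul_eq_mul] at h3
      have h5 : ((2 ^ (L + 1) - 2 ^ L : ℕ) : ℝ) = 2 ^ L := by
        have h6 : (2 : ℕ) ^ (L + 1) - 2 ^ L = 2 ^ L := by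
          rw [pow_succ]
          omega
        rw [h6]
        push_cast
        rfl
      rw [h5, mul_one_div, div_self (by positivity)] at h3
      exact h3
    push_cast
    linarith

private theorem harm_shift (N j : ℕ) :
    ∑ k ∈ range N, (if j < k then (1 : ℝ) / ((k : ℝ) - j) else 0) ≤
      ∑ d ∈ range N, (1 : ℝ) / (d + 1) := by
  rw [← Finset.sum_filter]
  have h1 : (range N).filter (fun k => j < k) = Finset.Ico (j + 1) N := by
    ext k
    simp only [mem_filter, mem_range, mem_Ico]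
    omega
  rw [h1, Finset.sum_Ico_eq_sum_range]
  have h2 : ∑ k ∈ range (N - (j + 1)), (1 : ℝ) / (((j + 1 + k : ℕ) : ℝ) - j) =
      ∑ k ∈ range (N - (j + 1)), (1 : ℝ) / (k + 1) := by
    refine Finset.sum_congr rfl fun k _ => ?_
    push_cast
    congr 1
    ring
  rw [h2]
  refine Finset.sum_le_sum_of_subset_of_nonneg ?_ fun k _ _ => by positivity
  intro k hk
  rw [mem_range] at hk ⊢
  omega

private theorem triple_sum (L : ℕ) :
    ∑ x ∈ (range (2 ^ L) ×ˢ (range (2 ^ L) ×ˢ range (2 ^ L))).filter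
      (fun x : ℕ × ℕ × ℕ => x.1 < x.2.1 ∧ x.2.1 < x.2.2),
      (1 : ℝ) / (((x.2.1 : ℝ) - x.1) * ((x.2.2 : ℝ) - x.2.1)) ≤
        2 ^ L * ((L : ℝ) + 1) ^ 2 := by
  have hH := harm_pow L
  have hH0 : (0 : ℝ) ≤ ∑ d ∈ range (2 ^ L), (1 : ℝ) / (d + 1) :=
    Finset.sum_nonneg fun d _ => by positivity
  have hL : (0 : ℝ) ≤ (L : ℝ) + 1 := by positivity
  rw [Finset.sum_filter, Finset.sum_product]
  have h1 : ∀ i ∈ range (2 ^ L), ∑ y ∈ range (2 ^ L) ×ˢ range (2 ^ L),
      (if i < y.1 ∧ y.1 < y.2 then (1 : ℝ) / (((y.1 : ℝ) - i) * ((y.2 : ℝ) - y.1)) else 0) ≤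
        ((L : ℝ) + 1) ^ 2 := by
    intro i _
    rw [Finset.sum_product]
    have h2 : ∀ j ∈ range (2 ^ L), ∑ k ∈ range (2 ^ L),
        (if i < j ∧ j < k then (1 : ℝ) / (((j : ℝ) - i) * ((k : ℝ) - j)) else 0) ≤
          (if i < j then (1 : ℝ) / ((j : ℝ) - i) else 0) * ((L : ℝ) + 1) := by
      intro j _
      by_cases hij : i < j
      · have hij' : (0 : ℝ) < (j : ℝ) - i := by
          have : (i : ℝ) < j := by exact_mod_cast hij
          linarith
        rw [if_pos hij]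
        have h3 : ∑ k ∈ range (2 ^ L),
            (if i < j ∧ j < k then (1 : ℝ) / (((j : ℝ) - i) * ((k : ℝ) - j)) else 0) =
            1 / ((j : ℝ) - i) * ∑ k ∈ range (2 ^ L),
              (if j < k then (1 : ℝ) / ((k : ℝ) - j) else 0) := by
          rw [Finset.mul_sum]
          refine Finset.sum_congr rfl fun k _ => ?_
          by_cases hjk : j < k
          · rw [if_pos ⟨hij, hjk⟩, if_pos hjk, one_div_mul_one_div]
          · rw [if_neg (fun h => hjk h.2), if_neg hjk, mul_zero]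
        rw [h3]
        exact mul_le_mul_of_nonneg_left ((harm_shift _ _).trans hH) (by positivity)
      · rw [if_neg hij, zero_mul]
        refine (Finset.sum_eq_zero fun k _ => ?_).le
        exact if_neg fun h => hij h.1
    refine (Finset.sum_le_sum h2).trans ?_
    rw [← Finset.sum_mul, sq]
    exact mul_le_mul_of_nonneg_right ((harm_shift _ _).trans hH) hL
  refine (Finset.sum_le_sum h1).trans ?_
  rw [Finset.sum_const, card_range, nsmul_eq_mul]
  push_cast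
  exact le_rfl

/-- The family of block values given by `s`. -/
private noncomputable def XX (L Q : ℕ) (s : Fin (L + 1) × Fin (2 ^ L) → Fin Q) : ℕ × ℕ → ℝ :=
  fun b => if h : b.1 < L + 1 ∧ b.2 < 2 ^ L then
    ((s (⟨b.1, h.1⟩, ⟨b.2, h.2⟩) : ℕ) : ℝ) / Q else 0

private theorem XX_bounds {L Q : ℕ} (s : Fin (L + 1) × Fin (2 ^ L) → Fin Q) (b : ℕ × ℕ) :
    0 ≤ XX L Q s b ∧ XX L Q s b ≤ 1 := by
  unfold XX
  split_ifs with h
  · have h1 : ((s (⟨b.1, h.1⟩, ⟨b.2, h.2⟩) : ℕ) : ℝ) ≤ Q := by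
      exact_mod_cast (s (⟨b.1, h.1⟩, ⟨b.2, h.2⟩)).2.le
    refine ⟨by positivity, div_le_one_of_le₀ h1 (by positivity)⟩
  · exact ⟨le_rfl, zero_le_one⟩

private theorem XX_update {L Q : ℕ} (s : Fin (L + 1) × Fin (2 ^ L) → Fin Q)
    (a : Fin (L + 1) × Fin (2 ^ L)) (q : Fin Q) :
    XX L Q (Function.update s a q) =
      Function.update (XX L Q s) ((a.1 : ℕ), (a.2 : ℕ)) (((q : ℕ) : ℝ) / Q) := by
  obtain ⟨l, u⟩ := a
  funext b
  by_cases hb : b = ((l : ℕ), (u : ℕ))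
  · subst hb
    rw [Function.update_self]
    unfold XX
    rw [dif_pos ⟨l.2, u.2⟩]
    have h1 : ((⟨(l : ℕ), l.2⟩, ⟨(u : ℕ), u.2⟩) : Fin (L + 1) × Fin (2 ^ L)) = (l, u) := rfl
    rw [h1, Function.update_self]
  · rw [Function.update_of_ne hb]
    unfold XX
    split_ifs with h
    · rw [Function.update_of_ne]
      intro h1
      apply hb
      have h2 := congrArg (fun z : Fin (L + 1) × Fin (2 ^ L) => ((z.1 : ℕ), (z.2 : ℕ))) h1
      exact h2
    · rfl

/-- A choice of the blocks with few bad triples. -/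
private theorem good_choice {L : ℕ} (hL : 2 ≤ L) :
    ∃ X : ℕ × ℕ → ℝ, (∀ b, 0 ≤ X b ∧ X b ≤ 1) ∧ ∃ B : Finset ℕ, 2 * B.card ≤ 2 ^ L ∧
      ∀ i j k : ℕ, i < j → j < k → k < 2 ^ L → i ∉ B →
        1 / (64 * ((L : ℝ) + 1) ^ 3) ≤ |DD L i j k X| := by
  classical
  obtain ⟨N, hN⟩ : ∃ N : ℕ, N = 2 ^ L := ⟨_, rfl⟩
  have hN4 : 4 ≤ N := by
    rw [hN]
    calc 4 = 2 ^ 2 := by norm_num
      _ ≤ 2 ^ L := Nat.pow_le_pow_right (by norm_num) hL
  have hNr : (N : ℝ) = 2 ^ L := by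
    rw [hN]
    push_cast
    rfl
  have hN4r : (4 : ℝ) ≤ N := by exact_mod_cast hN4
  obtain ⟨Q, hQ⟩ : ∃ Q : ℕ, Q = N ^ 3 := ⟨_, rfl⟩
  have hQ0 : 0 < Q := by
    rw [hQ]
    positivity
  have hQr : (0 : ℝ) < Q := by exact_mod_cast hQ0
  have hLp : (0 : ℝ) < (L : ℝ) + 1 := by positivity
  obtain ⟨τ, hτ⟩ : ∃ τ : ℝ, τ = 1 / (64 * ((L : ℝ) + 1) ^ 3) := ⟨_, rfl⟩
  have hτ0 : 0 < τ := by
    rw [hτ]
    positivity
  set T : Finset (ℕ × ℕ × ℕ) := (range (2 ^ L) ×ˢ (range (2 ^ L) ×ˢ range (2 ^ L))).filter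
      (fun x : ℕ × ℕ × ℕ => x.1 < x.2.1 ∧ x.2.1 < x.2.2) with hT
  have hblock : ∀ x : ℕ × ℕ × ℕ, ∃ a : Fin (L + 1) × Fin (2 ^ L), x ∈ T →
      x.1 ≤ (a.2 : ℕ) * 2 ^ (a.1 : ℕ) ∧ ((a.2 : ℕ) + 1) * 2 ^ (a.1 : ℕ) ≤ x.2.1 ∧
        x.2.1 - x.1 ≤ 4 * 2 ^ (a.1 : ℕ) := by
    intro x
    by_cases hx : x ∈ T
    · obtain ⟨h1, h2, h3⟩ := mem_filter.1 hx
      rw [mem_product, mem_product, mem_range, mem_range] at h1
      obtain ⟨l, u, h4, h5, h6, h7, h8⟩ := exists_block h2 h1.2.1.le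
      exact ⟨(⟨l, by omega⟩, ⟨u, h5⟩), fun _ => ⟨h6, h7, h8⟩⟩
    · exact ⟨(⟨0, by omega⟩, ⟨0, by positivity⟩), fun h => absurd h hx⟩
  choose a ha using hblock
  obtain ⟨s, hs⟩ := exists_few_bad hQ0 T (fun x s => |DD L x.1 x.2.1 x.2.2 (XX L Q s)| < τ) a
    (fun x => 16 * τ * ((L : ℝ) + 1) * (1 / (((x.2.1 : ℝ) - x.1) * ((x.2.2 : ℝ) - x.2.1))) +
      1 / Q) (by
    intro x hx s
    obtain ⟨h1, h2, h3⟩ := mem_filter.1 hx
    obtain ⟨h4, h5, h6⟩ := ha x hx
    obtain ⟨l, hl⟩ : ∃ l : ℕ, l = ((a x).1 : ℕ) := ⟨_, rfl⟩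
    obtain ⟨u, hu⟩ : ∃ u : ℕ, u = ((a x).2 : ℕ) := ⟨_, rfl⟩
    have hlL : l ≤ L := by
      rw [hl]
      have := (a x).1.2
      omega
    obtain ⟨i, j, k⟩ := x
    simp only at h1 h2 h3 h4 h5 h6 hl hu ⊢
    rw [← hl, ← hu] at h4 h5
    rw [← hl] at h6
    have hij : (0 : ℝ) < (j : ℝ) - i := by
      have : (i : ℝ) < j := by exact_mod_cast h2
      linarith
    have hjk : (0 : ℝ) < (k : ℝ) - j := by
      have : (j : ℝ) < k := by exact_mod_cast h3
      linarith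
    have h6' : (j : ℝ) - i ≤ 4 * 2 ^ l := by
      have h7 : j ≤ 4 * 2 ^ l + i := by omega
      have h8 : (j : ℝ) ≤ 4 * 2 ^ l + i := by exact_mod_cast h7
      linarith
    obtain ⟨β, hβ⟩ : ∃ β : ℝ, β = -(((k : ℝ) - j) * 2 ^ l * (1 / (2 * ((L : ℝ) + 1)))) :=
      ⟨_, rfl⟩
    have hβ1 : |β| = ((k : ℝ) - j) * 2 ^ l * (1 / (2 * ((L : ℝ) + 1))) := by
      rw [hβ, abs_neg, abs_of_pos (by positivity)]
    have hβ0 : 0 < |β| := by
      rw [hβ1]
      positivity
    have hβ2 : ((k : ℝ) - j) * ((j : ℝ) - i) / (8 * ((L : ℝ) + 1)) ≤ |β| := by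
      rw [hβ1, div_le_iff₀ (by positivity)]
      have h9 : ((k : ℝ) - j) * 2 ^ l * (1 / (2 * ((L : ℝ) + 1))) * (8 * ((L : ℝ) + 1)) =
          ((k : ℝ) - j) * (4 * 2 ^ l) := by
        field_simp
        ring
      rw [h9]
      exact mul_le_mul_of_nonneg_left h6' hjk.le
    have h10 := card_progression_le (Q := Q) (α := DD L i j k
        (Function.update (XX L Q s) (l, u) 0)) (β := β) (δ := 1 / Q) (τ := τ)
      (abs_pos.1 hβ0) (by positivity) hτ0.le
      (univ.filter fun q : Fin Q => |DD L i j k (XX L Q (Function.update s (a (i, j, k)) q))| < τ)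
      (by
        intro q hq
        have h11 := (mem_filter.1 hq).2
        rw [XX_update, ← hl, ← hu, DD_update hlL h4 h5 h3.le, ← hβ] at h11
        rw [one_div_mul_eq_div]
        exact h11)
    refine h10.trans ?_
    have h12 : 2 * τ / (|β| * (1 / Q)) ≤
        16 * τ * ((L : ℝ) + 1) * (1 / (((j : ℝ) - i) * ((k : ℝ) - j))) * Q := by
      have h13 : 2 * τ / (|β| * (1 / Q)) = 2 * τ * Q / |β| := by
        field_simp
      rw [h13, div_le_iff₀ hβ0]
      calc 2 * τ * Q = 16 * τ * ((L : ℝ) + 1) * (1 / (((j : ℝ) - i) * ((k : ℝ) - j))) * Q *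
            (((k : ℝ) - j) * ((j : ℝ) - i) / (8 * ((L : ℝ) + 1))) := by
            field_simp
            ring
        _ ≤ _ := mul_le_mul_of_nonneg_left hβ2 (by positivity)
    rw [add_mul, one_div_mul_cancel hQr.ne']
    linarith)
  refine ⟨XX L Q s, XX_bounds s,
    (T.filter fun x => |DD L x.1 x.2.1 x.2.2 (XX L Q s)| < τ).image Prod.fst, ?_, ?_⟩
  · have h1 : (((T.filter fun x => |DD L x.1 x.2.1 x.2.2 (XX L Q s)| < τ).image
        Prod.fst).card : ℝ) ≤
        ∑ x ∈ T, (16 * τ * ((L : ℝ) + 1) *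
          (1 / (((x.2.1 : ℝ) - x.1) * ((x.2.2 : ℝ) - x.2.1))) + 1 / Q) := by
      refine le_trans ?_ hs
      exact_mod_cast Finset.card_image_le
    rw [Finset.sum_add_distrib, ← Finset.mul_sum, Finset.sum_const, nsmul_eq_mul] at h1
    have h2 := triple_sum L
    rw [← hT] at h2
    have h3 : 16 * τ * ((L : ℝ) + 1) * (2 ^ L * ((L : ℝ) + 1) ^ 2) = (N : ℝ) / 4 := by
      rw [hτ, hNr]
      field_simp
      ring
    have h4 : (T.card : ℝ) * (1 / Q) ≤ 1 := by
      have h5 : T.card ≤ N ^ 3 := by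
        refine (Finset.card_filter_le _ _).trans ?_
        rw [card_product, card_product, card_range, ← hN]
        exact le_of_eq (by ring)
      rw [mul_one_div, div_le_one hQr, hQ]
      exact_mod_cast h5
    have h5 := mul_le_mul_of_nonneg_left h2
      (show (0 : ℝ) ≤ 16 * τ * ((L : ℝ) + 1) by positivity)
    rw [h3] at h5
    have h6 : (2 * ((T.filter fun x => |DD L x.1 x.2.1 x.2.2 (XX L Q s)| < τ).image
        Prod.fst).card : ℝ) ≤ N := by linarith
    rw [← hN]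
    exact_mod_cast h6
  · intro i j k hij hjk hk hi
    rw [← hτ]
    by_contra hcon
    apply hi
    refine mem_image.2 ⟨(i, j, k), mem_filter.2 ⟨mem_filter.2 ⟨?_, hij, hjk⟩, not_le.1 hcon⟩,
      rfl⟩
    rw [mem_product, mem_product, mem_range, mem_range, mem_range]
    exact ⟨by simp only; omega, by simp only; omega, hk⟩

theorem exists_increasing {L n : ℕ} (hL : 2 ≤ L) (hn : 2 * n ≤ 2 ^ L) :
    ∃ S : Finset ℂ, S.card = n ∧ (∀ z ∈ S, ‖z‖ ≤ 1) ∧
      (∀ z ∈ S, ∀ w ∈ S, z.re < w.re → z.im < w.im) ∧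
      (∀ z ∈ S, ∀ w ∈ S, z ≠ w → z.re ≠ w.re) ∧
      ∀ a ∈ S, ∀ b ∈ S, ∀ c ∈ S, a ≠ b → a ≠ c → b ≠ c →
        1 / (512 * ((2 : ℝ) ^ L) ^ 2 * ((L : ℝ) + 1) ^ 3) ≤ triArea a b c := by
  classical
  obtain ⟨X, hX, B, hB, hgood⟩ := good_choice hL
  have hN0 : (0 : ℝ) < 2 ^ L := by positivity
  obtain ⟨P, hP⟩ : ∃ P : ℕ → ℂ, P = fun i => ⟨(i : ℝ) / (2 * 2 ^ L),
    yv L X i / (2 * 2 ^ L)⟩ := ⟨_, rfl⟩
  have hre : ∀ i, (P i).re = (i : ℝ) / (2 * 2 ^ L) := fun i => by rw [hP]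
  have him : ∀ i, (P i).im = yv L X i / (2 * 2 ^ L) := fun i => by rw [hP]
  have hlt : ∀ i j : ℕ, (P i).re < (P j).re ↔ i < j := by
    intro i j
    rw [hre, hre, div_lt_div_iff_of_pos_right (by positivity), Nat.cast_lt]
  have hinj : Function.Injective P := by
    intro i j hij
    by_contra hne
    rcases lt_or_gt_of_ne hne with h | h
    · have := (hlt i j).2 h
      rw [hij] at this
      exact lt_irrefl _ this
    · have := (hlt j i).2 h
      rw [hij] at this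
      exact lt_irrefl _ this
  have hJ : n ≤ (range (2 ^ L) \ B).card := by
    have h1 := Finset.le_card_sdiff B (range (2 ^ L))
    rw [card_range] at h1
    omega
  obtain ⟨J, hJs, hJc⟩ := Finset.exists_subset_card_eq hJ
  have hJr : ∀ i ∈ J, i < 2 ^ L := fun i hi => mem_range.1 (mem_sdiff.1 (hJs hi)).1
  have hJB : ∀ i ∈ J, i ∉ B := fun i hi => (mem_sdiff.1 (hJs hi)).2
  have key : ∀ i ∈ J, ∀ j ∈ J, ∀ k ∈ J, i < j → j < k →
      1 / (512 * ((2 : ℝ) ^ L) ^ 2 * ((L : ℝ) + 1) ^ 3) ≤ triArea (P i) (P j) (P k) := by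
    intro i hi j _ k hk hij hjk
    have h1 := hgood i j k hij hjk (hJr k hk) (hJB i hi)
    have h2 : orient (P i) (P j) (P k) = DD L i j k X / (4 * ((2 : ℝ) ^ L) ^ 2) := by
      unfold orient DD
      rw [hre, hre, hre, him, him, him]
      field_simp
      ring
    rw [triArea_eq, h2, abs_div, abs_of_pos (show (0 : ℝ) < 4 * ((2 : ℝ) ^ L) ^ 2 by positivity)]
    have h3 : 1 / (512 * ((2 : ℝ) ^ L) ^ 2 * ((L : ℝ) + 1) ^ 3) =
        1 / (64 * ((L : ℝ) + 1) ^ 3) / (4 * ((2 : ℝ) ^ L) ^ 2) / 2 := by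
      field_simp
      norm_num
    rw [h3]
    gcongr
  refine ⟨J.image P, ?_, ?_, ?_, ?_, ?_⟩
  · rw [Finset.card_image_of_injective _ hinj, hJc]
  · intro z hz
    obtain ⟨i, hi, rfl⟩ := mem_image.1 hz
    have h1 : (i : ℝ) ≤ 2 ^ L := by exact_mod_cast (hJr i hi).le
    have h2 := (yv_bounds (L := L) hX (le_refl i)).2
    have h3 : 0 ≤ (P i).re ∧ (P i).re ≤ 1 / 2 := by
      rw [hre]
      refine ⟨by positivity, ?_⟩
      rw [div_le_iff₀ (by positivity)]
      linarith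
    have h4 : 0 ≤ (P i).im ∧ (P i).im ≤ 3 / 4 := by
      rw [him]
      refine ⟨div_nonneg h2.1 (by positivity), ?_⟩
      rw [div_le_iff₀ (by positivity)]
      linarith [h2.2]
    have h5 : ‖P i‖ ^ 2 ≤ 1 := by
      rw [← Complex.normSq_eq_norm_sq, Complex.normSq_apply]
      nlinarith [h3.1, h3.2, h4.1, h4.2]
    have h6 := norm_nonneg (P i)
    nlinarith
  · intro z hz w hw h
    obtain ⟨i, hi, rfl⟩ := mem_image.1 hz
    obtain ⟨j, hj, rfl⟩ := mem_image.1 hw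
    have hij := (hlt i j).1 h
    have h1 := (yv_bounds (L := L) hX hij.le).1
    have h2 : (0 : ℝ) < (j : ℝ) - i := by
      have : (i : ℝ) < j := by exact_mod_cast hij
      linarith
    rw [him, him, div_lt_div_iff_of_pos_right (by positivity)]
    linarith
  · intro z hz w hw h
    obtain ⟨i, hi, rfl⟩ := mem_image.1 hz
    obtain ⟨j, hj, rfl⟩ := mem_image.1 hw
    have hij : i ≠ j := fun h1 => h (by rw [h1])
    rcases lt_or_gt_of_ne hij with h1 | h1
    · exact ((hlt i j).2 h1).ne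
    · exact ((hlt j i).2 h1).ne'
  · intro p hp q hq r hr hpq hpr hqr
    obtain ⟨i, hi, rfl⟩ := mem_image.1 hp
    obtain ⟨j, hj, rfl⟩ := mem_image.1 hq
    obtain ⟨k, hk, rfl⟩ := mem_image.1 hr
    have hij : i ≠ j := fun h1 => hpq (by rw [h1])
    have hik : i ≠ k := fun h1 => hpr (by rw [h1])
    have hjk : j ≠ k := fun h1 => hqr (by rw [h1])
    rcases lt_or_gt_of_ne hij with h1 | h1 <;> rcases lt_or_gt_of_ne hjk with h2 | h2
    · exact key i hi j hj k hk h1 h2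
    · rcases lt_or_gt_of_ne hik with h3 | h3
      · rw [← triArea_swap₂]
        exact key i hi k hk j hj h3 h2
      · rw [triArea_rot (P k) (P i) (P j)]
        exact key k hk i hi j hj h3 h1
    · rcases lt_or_gt_of_ne hik with h3 | h3
      · rw [← triArea_swap₁]
        exact key j hj i hi k hk h1 h3
      · rw [← triArea_rot]
        exact key j hj k hk i hi h2 h3
    · rw [← triArea_rot, ← triArea_swap₁]
      exact key k hk j hj i hi h2 h1

end Pool.Agent.Heil
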