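import Pool.Agent.Heil.PatUpper
import Pool.Agent.Heil.PatLower

/-!
# Package HP5: the Heilbronn constant of sets avoiding a permutation

Proof.  Upper bound: `minArea_le_of_not_contains` (and `csSup_le`; the set is not empty by the lower
bound).  Lower bound: let `2^L` be the least power of `2` with `2^L ≥ 2 n` and `L ≥ 2`, so
`2^L ≤ 4 n` for `n ≥ 2`, `L + 1 ≤ 2 + Real.logb 2 (2n) ≤ C log n`.  `exists_increasing` gives an
increasing set `S` of `n` points; if `σ` is not the identity, there are `i < j` with `σ j < σ i`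
(`σ` strictly monotone implies `σ = 1`), so `S` does not contain `σ`.  If `σ = 1`, `r ≥ 2`, the
mirror image of `S` (`z ↦ conj z`, `Finset.image`, injective, areas and norms are preserved) is
decreasing and does not contain `σ` (look at the first two points `0 < 1`).
Areas: `minArea S ≥ v` if all triangles have area `≥ v` (`le_csInf`, the set is nonempty for
`n ≥ 3`).
-/

namespace Pool.Agent.Heil

/-- The supremum of `minArea S` over all sets of `n` points of the closed unit disk which do not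
contain the permutation `σ`. -/
noncomputable def alphaPat {r : ℕ} (σ : Equiv.Perm (Fin r)) (n : ℕ) : ℝ :=
  sSup {t : ℝ | ∃ S : Finset ℂ, S.card = n ∧ (∀ z ∈ S, ‖z‖ ≤ 1) ∧ ¬ Contains σ S ∧ t = minArea S}

/-- The size of the dyadic box. -/
private theorem exists_L {n : ℕ} (hn : 3 ≤ n) :
    ∃ L : ℕ, 2 ≤ L ∧ 2 * n ≤ 2 ^ L ∧ 2 ^ L ≤ 4 * n ∧ (L : ℝ) + 1 ≤ 5 * Real.log n := by
  obtain ⟨L, hL⟩ : ∃ L : ℕ, L = Nat.clog 2 (2 * n) := ⟨_, rfl⟩
  have h1 : 2 * n ≤ 2 ^ L := by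
    rw [hL]
    exact Nat.le_pow_clog (by norm_num) _
  have h2 : 2 ≤ L := by
    by_contra hcon
    have h3 : 2 ^ L ≤ 2 ^ 1 := Nat.pow_le_pow_right (by norm_num) (by omega)
    omega
  have h3 : 2 ^ (L - 1) < 2 * n := by
    rw [hL]
    exact Nat.pow_pred_clog_lt_self (by norm_num) (by omega)
  have h4 : 2 ^ L ≤ 4 * n := by
    have h5 : 2 ^ L = 2 * 2 ^ (L - 1) := by
      obtain ⟨m, rfl⟩ : ∃ m, L = m + 1 := ⟨L - 1, by omega⟩
      rw [Nat.add_sub_cancel, pow_succ]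
      ring
    omega
  refine ⟨L, h2, h1, h4, ?_⟩
  have hn0 : (3 : ℝ) ≤ n := by exact_mod_cast hn
  have h5 : (2 : ℝ) ^ L ≤ 4 * n := by exact_mod_cast h4
  have h6 : (L : ℝ) * Real.log 2 ≤ 2 * Real.log 2 + Real.log n := by
    have h7 := Real.log_le_log (by positivity) h5
    rw [Real.log_pow, Real.log_mul (by norm_num) (by positivity)] at h7
    have h8 : Real.log 4 = 2 * Real.log 2 := by
      rw [show (4 : ℝ) = 2 ^ 2 by norm_num, Real.log_pow]
      norm_num
    rw [h8] at h7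
    exact h7
  have h7 : 1 ≤ Real.log n := by
    rw [Real.le_log_iff_exp_le (by positivity)]
    exact (Real.exp_one_lt_three.le).trans hn0
  have h8 := Real.log_two_gt_d9
  by_contra hcon
  push Not at hcon
  have h9 : (5 * Real.log n - 3) * Real.log 2 ≤ ((L : ℝ) - 2) * Real.log 2 := by
    apply mul_le_mul_of_nonneg_right _ (by linarith)
    linarith
  nlinarith

/-- A lower bound for the least area. -/
private theorem le_minArea {S : Finset ℂ} {v : ℝ} (hS : 3 ≤ S.card)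
    (h : ∀ a ∈ S, ∀ b ∈ S, ∀ c ∈ S, a ≠ b → a ≠ c → b ≠ c → v ≤ triArea a b c) :
    v ≤ minArea S := by
  have h1 : 2 < S.card := hS
  rw [Finset.two_lt_card] at h1
  obtain ⟨a, ha, b, hb, c, hc, hab, hac, hbc⟩ := h1
  refine le_csInf ⟨_, a, ha, b, hb, c, hc, hab, hac, hbc, rfl⟩ ?_
  rintro t ⟨a, ha, b, hb, c, hc, hab, hac, hbc, rfl⟩
  exact h a ha b hb c hc hab hac hbc

/-- A permutation other than the identity has an inversion. -/
private theorem exists_inversion {r : ℕ} {σ : Equiv.Perm (Fin r)} (hσ : σ ≠ 1) :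
    ∃ i j : Fin r, i < j ∧ σ j < σ i := by
  by_contra hcon
  push Not at hcon
  apply hσ
  have h1 : StrictMono σ := by
    intro i j hij
    exact lt_of_le_of_ne (hcon i j hij) (fun h => hij.ne (σ.injective h))
  have h2 : (σ : Fin r → Fin r) = id := by
    refine (StrictMono.range_inj h1 strictMono_id).1 ?_
    rw [Set.range_id]
    exact σ.surjective.range_eq
  ext i
  rw [h2]
  rfl

/-- Triangles of the mirror image. -/
private theorem triArea_conj (a b c : ℂ) :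
    triArea ((starRingEnd ℂ) a) ((starRingEnd ℂ) b) ((starRingEnd ℂ) c) = triArea a b c := by
  unfold triArea
  simp only [Complex.conj_re, Complex.conj_im]
  congr 1
  rw [← abs_neg]
  congr 1
  ring

/-- Sets without `σ` whose triangles are large. -/
private theorem exists_avoiding {r : ℕ} (hr : 2 ≤ r) (σ : Equiv.Perm (Fin r)) {n : ℕ}
    (hn : 3 ≤ n) : ∃ S : Finset ℂ, S.card = n ∧ (∀ z ∈ S, ‖z‖ ≤ 1) ∧ ¬ Contains σ S ∧
      1 / 1024000 / ((n : ℝ) ^ 2 * Real.log n ^ 3) ≤ minArea S := by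
  classical
  obtain ⟨L, hL2, hL, hL4, hLlog⟩ := exists_L hn
  obtain ⟨S, hSc, hSn, hSi, hSre, hSa⟩ := exists_increasing hL2 hL
  have hn0 : (3 : ℝ) ≤ n := by exact_mod_cast hn
  have hlog : 0 < Real.log n := Real.log_pos (by linarith)
  have hv : 1 / 1024000 / ((n : ℝ) ^ 2 * Real.log n ^ 3) ≤
      1 / (512 * ((2 : ℝ) ^ L) ^ 2 * ((L : ℝ) + 1) ^ 3) := by
    rw [div_div]
    apply one_div_le_one_div_of_le (by positivity)
    have h1 : (2 : ℝ) ^ L ≤ 4 * n := by exact_mod_cast hL4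
    have h2 : ((2 : ℝ) ^ L) ^ 2 ≤ (4 * n) ^ 2 := pow_le_pow_left₀ (by positivity) h1 2
    have h3 : ((L : ℝ) + 1) ^ 3 ≤ (5 * Real.log n) ^ 3 :=
      pow_le_pow_left₀ (by positivity) hLlog 3
    calc 512 * ((2 : ℝ) ^ L) ^ 2 * ((L : ℝ) + 1) ^ 3
        ≤ 512 * (4 * n) ^ 2 * (5 * Real.log n) ^ 3 := by gcongr
      _ = 1024000 * ((n : ℝ) ^ 2 * Real.log n ^ 3) := by ring
  by_cases hσ : σ = 1
  · subst hσ
    refine ⟨S.image (starRingEnd ℂ), ?_, ?_, ?_, ?_⟩
    · rw [Finset.card_image_of_injective _ (starRingEnd ℂ).injective, hSc]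
    · intro z hz
      obtain ⟨w, hw, rfl⟩ := Finset.mem_image.1 hz
      rw [Complex.norm_conj]
      exact hSn w hw
    · rintro ⟨f, hf, hfre, hfim⟩
      have h01 : (⟨0, by omega⟩ : Fin r) < ⟨1, by omega⟩ := by
        rw [Fin.mk_lt_mk]
        exact Nat.zero_lt_one
      have h1 := hfre _ _ h01
      have h2 := hfim ⟨0, by omega⟩ ⟨1, by omega⟩ h01
      obtain ⟨z, hz, hz'⟩ := Finset.mem_image.1 (hf ⟨0, by omega⟩)
      obtain ⟨w, hw, hw'⟩ := Finset.mem_image.1 (hf ⟨1, by omega⟩)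
      rw [← hz', ← hw'] at h1 h2
      simp only [Complex.conj_re, Complex.conj_im] at h1 h2
      have h3 := hSi z hz w hw h1
      linarith
    · refine hv.trans (le_minArea ?_ ?_)
      · rw [Finset.card_image_of_injective _ (starRingEnd ℂ).injective, hSc]
        exact hn
      · intro a' ha' b' hb' c' hc' hab hac hbc
        obtain ⟨a, ha, rfl⟩ := Finset.mem_image.1 ha'
        obtain ⟨b, hb, rfl⟩ := Finset.mem_image.1 hb'
        obtain ⟨c, hc, rfl⟩ := Finset.mem_image.1 hc'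
        rw [triArea_conj]
        exact hSa a ha b hb c hc (fun h => hab (by rw [h])) (fun h => hac (by rw [h]))
          (fun h => hbc (by rw [h]))
  · obtain ⟨i, j, hij, hji⟩ := exists_inversion hσ
    refine ⟨S, hSc, hSn, ?_, hv.trans (le_minArea (by omega) hSa)⟩
    rintro ⟨f, hf, hfre, hfim⟩
    have h1 := hSi _ (hf i) _ (hf j) (hfre i j hij)
    have h2 := hfim j i hji
    linarith

theorem alphaPat_bounds :
    ∃ c : ℝ, 0 < c ∧ ∀ (r : ℕ), 2 ≤ r → ∀ σ : Equiv.Perm (Fin r), ∃ C : ℝ, ∀ n : ℕ, 3 ≤ n →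
      c / ((n : ℝ) ^ 2 * Real.log n ^ 3) ≤ alphaPat σ n ∧ alphaPat σ n ≤ C / (n : ℝ) ^ 2 := by
  refine ⟨1 / 1024000, by norm_num, ?_⟩
  intro r hr σ
  obtain ⟨C, _, hC⟩ := minArea_le_of_not_contains σ
  refine ⟨C, ?_⟩
  intro n hn
  obtain ⟨S, hSc, hSn, hSσ, hSa⟩ := exists_avoiding hr σ hn
  have hub : ∀ t ∈ {t : ℝ | ∃ S : Finset ℂ, S.card = n ∧ (∀ z ∈ S, ‖z‖ ≤ 1) ∧
      ¬ Contains σ S ∧ t = minArea S}, t ≤ C / (n : ℝ) ^ 2 := by
    rintro t ⟨S, h1, h2, h3, rfl⟩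
    exact hC n S (by omega) h1 h2 h3
  have hmem : minArea S ∈ {t : ℝ | ∃ S : Finset ℂ, S.card = n ∧ (∀ z ∈ S, ‖z‖ ≤ 1) ∧
      ¬ Contains σ S ∧ t = minArea S} := ⟨S, hSc, hSn, hSσ, rfl⟩
  exact ⟨hSa.trans (le_csSup ⟨_, hub⟩ hmem), csSup_le ⟨_, hmem⟩ hub⟩

/-- A set of `n` points of the unit disk whose triangles all have area at least `A / n²`, `A` large
in terms of `σ`, contains `σ`. -/
theorem contains_of_large {r : ℕ} (σ : Equiv.Perm (Fin r)) :
    ∃ A : ℝ, ∀ (n : ℕ) (S : Finset ℂ), 1 ≤ n → S.card = n → (∀ z ∈ S, ‖z‖ ≤ 1) →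
      A / (n : ℝ) ^ 2 < minArea S → Contains σ S := by
  obtain ⟨C, _, hC⟩ := minArea_le_of_not_contains σ
  refine ⟨C, ?_⟩
  intro n S hn hc hS h
  by_contra hcon
  exact absurd (hC n S hn hc hS hcon) (not_le.2 h)

end Pool.Agent.Heil
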