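import Pool.Agent.Heil.MarcusTardos

/-!
# Package HP2: sets avoiding a permutation contain a triangle of area `O(1/n²)`

Proof.  Let `C ≥ 1` be as in `marcus_tardos` (increase it if necessary) and `S` a set of `n` points
of the closed unit disk which does not contain `σ`.

Small `n`: if `S` has at least three points, its triangles have area at most `4` (all coordinates are
in `[-1, 1]`: `|re| ≤ ‖z‖`, `|im| ≤ ‖z‖`), so `minArea S ≤ 4` (`csInf_le`, the set is bounded below by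
`0`: `triArea_nonneg`); if `S` has fewer than three points then `minArea S = sInf ∅ = 0`.  So
`minArea S ≤ 4 ≤ C'/n²` for `n ≤ 8 C + 8`, if `C' ≥ 4 (8 C + 8)²`.

Large `n`: let `m = n / (4 C)` (natural division), so `m ≥ 1`, `2 C (m + 1) < n` and
`n ≤ 4 C (m+1) ≤ 8 C m`.  The cell of `z` is `(⌊(z.re + 1) m / 2⌋₊, ⌊(z.im + 1) m / 2⌋₊)`, an element of
`range (m+1) ×ˢ range (m+1)`.  The set `M = S.image cell` does not contain `σ`: from a copy `f, g` of
`σ` in `M` choose `p i ∈ S` with cell `(f i, g (σ i))`; `i < j` gives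
`⌊(re (p i) + 1) m / 2⌋₊ = f i < f j`, hence `re (p i) < re (p j)` (monotonicity of the floor), and
`σ i < σ j` gives `im (p i) < im (p j)`.  So `M.card ≤ C (m + 1)` and, as `2 C (m+1) < n`, some cell
contains three points of `S` (`Finset.exists_lt_card_fiber_of_mul_lt_card_of_maps_to`, then
`Finset.two_lt_card`).  The coordinates of these three points differ by at most `2/m` each, so the
area is at most `(1/2) (4/m² + 4/m²) = 4/m²`, and `4/m² ≤ 4 (8C)²/n²`.
-/

namespace Pool.Agent.Heil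

private theorem triArea_le {a b c : ℂ} {δ : ℝ} (hδ : 0 ≤ δ) (h1 : |b.re - a.re| ≤ δ)
    (h2 : |c.im - a.im| ≤ δ) (h3 : |b.im - a.im| ≤ δ) (h4 : |c.re - a.re| ≤ δ) :
    triArea a b c ≤ δ ^ 2 := by
  unfold triArea
  have e1 : |(b.re - a.re) * (c.im - a.im)| ≤ δ * δ := by
    rw [abs_mul]
    exact mul_le_mul h1 h2 (abs_nonneg _) hδ
  have e2 : |(b.im - a.im) * (c.re - a.re)| ≤ δ * δ := by
    rw [abs_mul]
    exact mul_le_mul h3 h4 (abs_nonneg _) hδ
  have e3 := abs_sub ((b.re - a.re) * (c.im - a.im)) ((b.im - a.im) * (c.re - a.re))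
  nlinarith

private theorem minArea_le_tri {S : Finset ℂ} {a b c : ℂ} (ha : a ∈ S) (hb : b ∈ S) (hc : c ∈ S)
    (hab : a ≠ b) (hac : a ≠ c) (hbc : b ≠ c) : minArea S ≤ triArea a b c := by
  refine csInf_le ⟨0, ?_⟩ ⟨a, ha, b, hb, c, hc, hab, hac, hbc, rfl⟩
  rintro t ⟨a, _, b, _, c, _, _, _, _, rfl⟩
  exact triArea_nonneg a b c

private theorem coord_le {z : ℂ} (hz : ‖z‖ ≤ 1) : |z.re| ≤ 1 ∧ |z.im| ≤ 1 :=
  ⟨(Complex.abs_re_le_norm z).trans hz, (Complex.abs_im_le_norm z).trans hz⟩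

private theorem minArea_le_four {S : Finset ℂ} (hS : ∀ z ∈ S, ‖z‖ ≤ 1) : minArea S ≤ 4 := by
  by_cases h : ∃ a ∈ S, ∃ b ∈ S, ∃ c ∈ S, a ≠ b ∧ a ≠ c ∧ b ≠ c
  · obtain ⟨a, ha, b, hb, c, hc, hab, hac, hbc⟩ := h
    refine (minArea_le_tri ha hb hc hab hac hbc).trans ?_
    have ea := coord_le (hS a ha)
    have eb := coord_le (hS b hb)
    have ec := coord_le (hS c hc)
    have key : ∀ x y : ℝ, |x| ≤ 1 → |y| ≤ 1 → |x - y| ≤ 2 := fun x y hx hy => by
      have := abs_sub x y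
      linarith
    have h1 := triArea_le (a := a) (b := b) (c := c) (δ := 2) (by norm_num)
      (key _ _ eb.1 ea.1) (key _ _ ec.2 ea.2) (key _ _ eb.2 ea.2) (key _ _ ec.1 ea.1)
    linarith
  · have h1 : {t : ℝ | ∃ a ∈ S, ∃ b ∈ S, ∃ c ∈ S, a ≠ b ∧ a ≠ c ∧ b ≠ c ∧ t = triArea a b c} =
        ∅ := by
      rw [Set.eq_empty_iff_forall_notMem]
      rintro t ⟨a, ha, b, hb, c, hc, hab, hac, hbc, _⟩
      exact h ⟨a, ha, b, hb, c, hc, hab, hac, hbc⟩
    unfold minArea
    rw [h1, Real.sInf_empty]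
    norm_num

private theorem floor_close {x y : ℝ} (hx : 0 ≤ x) (hy : 0 ≤ y) (h : ⌊x⌋₊ = ⌊y⌋₊) :
    |x - y| ≤ 1 := by
  have h1 := Nat.floor_le hx
  have h2 := Nat.lt_floor_add_one x
  have h3 := Nat.floor_le hy
  have h4 := Nat.lt_floor_add_one y
  rw [h] at h1 h2
  rw [abs_le]
  constructor <;> linarith

theorem minArea_le_of_not_contains {r : ℕ} (σ : Equiv.Perm (Fin r)) :
    ∃ C : ℝ, 0 < C ∧ ∀ (n : ℕ) (S : Finset ℂ), 1 ≤ n → S.card = n → (∀ z ∈ S, ‖z‖ ≤ 1) →
      ¬ Contains σ S → minArea S ≤ C / n ^ 2 := by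
  obtain ⟨C₀, hC₀⟩ := marcus_tardos σ
  obtain ⟨C, hC, hC1⟩ : ∃ C : ℕ, C₀ ≤ C ∧ 1 ≤ C := ⟨C₀ + 1, by omega, by omega⟩
  refine ⟨4 * (8 * C + 8) ^ 2, by positivity, ?_⟩
  intro n S hn hcard hS hσ
  have hn0 : (0 : ℝ) < n := by exact_mod_cast hn
  rcases le_or_gt n (8 * C + 8) with hsmall | hbig
  · refine (minArea_le_four hS).trans ?_
    rw [le_div_iff₀ (by positivity)]
    have h1 : (n : ℝ) ≤ 8 * C + 8 := by exact_mod_cast hsmall
    have h2 : (n : ℝ) ^ 2 ≤ (8 * C + 8) ^ 2 := pow_le_pow_left₀ hn0.le h1 2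
    linarith
  · set m := n / (4 * C) with hm
    have hm1 : 4 * C * m ≤ n := Nat.mul_div_le n (4 * C)
    have hm2 : n < 4 * C * (m + 1) := by
      have := Nat.lt_mul_div_succ n (show 0 < 4 * C by omega)
      exact this
    have hm3 : 2 ≤ m := by
      rw [hm, Nat.le_div_iff_mul_le (by omega)]
      omega
    have hm4 : C * (m + 1) * 2 < n := by
      have e1 : C * (m + 1) * 2 = 2 * (C * m) + 2 * C := by ring
      have e2 : 4 * C * m = 4 * (C * m) := by ring
      have e3 : 2 * C ≤ C * m := by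
        rw [mul_comm]
        exact Nat.mul_le_mul_left _ hm3
      omega
    have hm5 : n ≤ 8 * C * m := by
      have e1 : 4 * C * (m + 1) = 4 * (C * m) + 4 * C := by ring
      have e2 : 8 * C * m = 8 * (C * m) := by ring
      have e3 : C * 1 ≤ C * m := Nat.mul_le_mul_left _ (by omega)
      omega
    have hmR : (0 : ℝ) < m := by
      have : 0 < m := by omega
      exact_mod_cast this
    -- the cells
    let sc : ℝ → ℝ := fun x => (x + 1) * m / 2
    let cell : ℂ → ℕ × ℕ := fun z => (⌊sc z.re⌋₊, ⌊sc z.im⌋₊)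
    have hsc : ∀ x : ℝ, |x| ≤ 1 → 0 ≤ sc x ∧ sc x ≤ m := by
      intro x hx
      rw [abs_le] at hx
      have e1 : 0 ≤ x + 1 := by linarith
      refine ⟨by positivity, ?_⟩
      change (x + 1) * m / 2 ≤ m
      nlinarith [hx.2]
    have hfl : ∀ x : ℝ, |x| ≤ 1 → ⌊sc x⌋₊ < m + 1 := by
      intro x hx
      have h1 := hsc x hx
      exact Nat.lt_succ_of_le (Nat.floor_le_of_le h1.2)
    have hmono : ∀ x y : ℝ, ⌊sc x⌋₊ < ⌊sc y⌋₊ → x < y := by
      intro x y hxy
      by_contra hcon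
      push Not at hcon
      have h1 : sc y ≤ sc x := by
        change (y + 1) * m / 2 ≤ (x + 1) * m / 2
        gcongr
      exact absurd (Nat.floor_mono h1) (not_le.2 hxy)
    have hsub : S.image cell ⊆ Finset.range (m + 1) ×ˢ Finset.range (m + 1) := by
      intro c hc
      rw [Finset.mem_image] at hc
      obtain ⟨z, hz, rfl⟩ := hc
      have e1 := coord_le (hS z hz)
      rw [Finset.mem_product, Finset.mem_range, Finset.mem_range]
      exact ⟨hfl _ e1.1, hfl _ e1.2⟩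
    have hpat : ¬ MatPat σ (S.image cell) := by
      rintro ⟨f, g, hf, hg, h⟩
      have h1 : ∀ i, ∃ p ∈ S, cell p = (f i, g (σ i)) := fun i => Finset.mem_image.1 (h i)
      choose p hp hp' using h1
      apply hσ
      refine ⟨p, hp, fun i j hij => ?_, fun i j hij => ?_⟩
      · apply hmono
        have e1 : ⌊sc (p i).re⌋₊ = f i := congrArg Prod.fst (hp' i)
        have e2 : ⌊sc (p j).re⌋₊ = f j := congrArg Prod.fst (hp' j)
        rw [e1, e2]
        exact hf hij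
      · apply hmono
        have e1 : ⌊sc (p i).im⌋₊ = g (σ i) := congrArg Prod.snd (hp' i)
        have e2 : ⌊sc (p j).im⌋₊ = g (σ j) := congrArg Prod.snd (hp' j)
        rw [e1, e2]
        exact hg hij
    have hMcard := hC₀ (m + 1) _ hsub hpat
    have hlt : (S.image cell).card * 2 < S.card := by
      rw [hcard]
      calc (S.image cell).card * 2 ≤ C₀ * (m + 1) * 2 := Nat.mul_le_mul_right _ hMcard
        _ ≤ C * (m + 1) * 2 := Nat.mul_le_mul_right _ (Nat.mul_le_mul_right _ hC)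
        _ < n := hm4
    obtain ⟨y, _, hy2⟩ := Finset.exists_lt_card_fiber_of_mul_lt_card_of_maps_to
      (fun a ha => Finset.mem_image_of_mem cell ha) hlt
    rw [Finset.two_lt_card] at hy2
    obtain ⟨a, ha, b, hb, c, hc, hab, hac, hbc⟩ := hy2
    rw [Finset.mem_filter] at ha hb hc
    have hclose : ∀ z w : ℂ, z ∈ S → w ∈ S → cell z = y → cell w = y →
        |z.re - w.re| ≤ 2 / m ∧ |z.im - w.im| ≤ 2 / m := by
      intro z w hz hw hz1 hw1
      have ez := coord_le (hS z hz)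
      have ew := coord_le (hS w hw)
      have h1 : cell z = cell w := hz1.trans hw1.symm
      have key : ∀ x x' : ℝ, |x| ≤ 1 → |x'| ≤ 1 → ⌊sc x⌋₊ = ⌊sc x'⌋₊ → |x - x'| ≤ 2 / m := by
        intro x x' hx hx' hf
        have h2 := floor_close (hsc x hx).1 (hsc x' hx').1 hf
        have h3 : sc x - sc x' = (x - x') * (m / 2) := by
          change (x + 1) * m / 2 - (x' + 1) * m / 2 = (x - x') * (m / 2)
          ring
        rw [h3, abs_mul, abs_of_pos (show (0 : ℝ) < m / 2 by positivity)] at h2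
        rw [le_div_iff₀ hmR]
        linarith
      exact ⟨key _ _ ez.1 ew.1 (congrArg Prod.fst h1), key _ _ ez.2 ew.2 (congrArg Prod.snd h1)⟩
    have h1 := hclose b a hb.1 ha.1 hb.2 ha.2
    have h2 := hclose c a hc.1 ha.1 hc.2 ha.2
    refine (minArea_le_tri ha.1 hb.1 hc.1 hab hac hbc).trans
      ((triArea_le (by positivity) h1.1 h2.2 h1.2 h2.1).trans ?_)
    rw [div_pow, div_le_div_iff₀ (by positivity) (by positivity)]
    have h3 : (n : ℝ) ≤ 8 * C * m := by exact_mod_cast hm5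
    have h4 : (n : ℝ) ^ 2 ≤ (8 * C * m) ^ 2 := pow_le_pow_left₀ hn0.le h3 2
    have h5 : (8 * (C : ℝ) * m) ^ 2 ≤ (8 * C + 8) ^ 2 * (m : ℝ) ^ 2 := by
      rw [← mul_pow]
      apply pow_le_pow_left₀ (by positivity)
      have : (0 : ℝ) ≤ 8 * m := by positivity
      nlinarith
    calc (2 : ℝ) ^ 2 * (n : ℝ) ^ 2 = 4 * (n : ℝ) ^ 2 := by norm_num
      _ ≤ 4 * ((8 * C + 8) ^ 2 * (m : ℝ) ^ 2) := by linarith
      _ = 4 * (8 * C + 8) ^ 2 * (m : ℝ) ^ 2 := by ring

end Pool.Agent.Heil
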