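import Pool.Agent.Heil.Basic

/-! A convex polygon inside the unit disk has perimeter at most `2 π`. -/

namespace Pool.Agent.Heil

open Finset Real

/-- A real linear functional. -/
noncomputable def lin (u v : ℝ) (z : ℂ) : ℝ := u * z.re + v * z.im

theorem sum_shift {g : ℕ → ℝ} {m : ℕ} (hg : ∀ i, g (i + m) = g i) (a : ℕ) :
    ∑ i ∈ range m, g (a + i) = ∑ i ∈ range m, g i := by
  induction a with
  | zero => simp
  | succ a ih =>
    rw [← ih]
    have h1 : ∑ i ∈ range (m + 1), g (a + i) = ∑ i ∈ range m, g (a + i) + g (a + m) :=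
      Finset.sum_range_succ _ _
    have h2 : ∑ i ∈ range (m + 1), g (a + i) = ∑ i ∈ range m, g (a + (i + 1)) + g (a + 0) :=
      Finset.sum_range_succ' _ _
    have h3 : ∑ i ∈ range m, g (a + 1 + i) = ∑ i ∈ range m, g (a + (i + 1)) := by
      refine Finset.sum_congr rfl fun i _ => ?_
      congr 1
      ring
    rw [h3]
    have h4 : g (a + m) = g (a + 0) := by rw [hg a]; simp
    linarith

/-- Cyclic shift keeps positivity of all ordered triples. -/
theorem pos_shift {P : ℕ → ℂ} {m : ℕ} (hper : ∀ i, P (i + m) = P i)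
    (hpos : ∀ i j l, i < j → j < l → l < m → 0 < orient (P i) (P j) (P l)) (a : ℕ) :
    ∀ i j l, i < j → j < l → l < m → 0 < orient (P (a + i)) (P (a + j)) (P (a + l)) := by
  induction a with
  | zero => simpa using hpos
  | succ a ih =>
    intro i j l hij hjl hl
    have e : ∀ x, a + 1 + x = a + (x + 1) := fun x => by ring
    rw [e, e, e]
    rcases Nat.lt_or_ge (l + 1) m with h | h
    · exact ih (i + 1) (j + 1) (l + 1) (by omega) (by omega) h
    · have hl' : l + 1 = m := by omega
      have : P (a + (l + 1)) = P (a + 0) := by rw [hl', hper a]; simp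
      rw [this, ← orient_rot']
      exact ih 0 (i + 1) (j + 1) (by omega) (by omega) (by omega)

theorem quad_contra {o1 o2 o3 o4 w0 wi wj wb : ℝ} (h1 : 0 ≤ o1) (h3 : 0 < o3) (h4 : 0 ≤ o4)
    (e1 : o1 * w0 + o2 * wj = o3 * wi + o4 * wb) (e2 : o1 + o2 = o3 + o4) (m0 : w0 ≤ wj)
    (hcon : wj < wi) (m1 : wj ≤ wb) : False := by
  have a1 := mul_le_mul_of_nonneg_left m0 h1
  have a2 := mul_lt_mul_of_pos_left hcon h3
  have a3 := mul_le_mul_of_nonneg_left m1 h4
  have a4 : (o1 + o2) * wj = (o3 + o4) * wj := by rw [e2]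
  nlinarith

/-- The values of a linear functional along a convex polygon, starting at the minimum, first
increase and then decrease. -/
theorem unimodal {P : ℕ → ℂ} {m : ℕ} (hper : ∀ i, P (i + m) = P i)
    (hpos : ∀ i j l, i < j → j < l → l < m → 0 < orient (P i) (P j) (P l)) (u v : ℝ) {b : ℕ}
    (hb : b < m) (hmin : ∀ i, i < m → lin u v (P 0) ≤ lin u v (P i))
    (hmax : ∀ i, i < m → lin u v (P i) ≤ lin u v (P b)) :
    (∀ i, i < b → lin u v (P i) ≤ lin u v (P (i + 1))) ∧
    (∀ i, b ≤ i → i < m → lin u v (P (i + 1)) ≤ lin u v (P i)) := by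
  constructor
  · intro i hi
    rcases Nat.eq_zero_or_pos i with h | h
    · rw [h]; exact hmin _ (by omega)
    rcases Nat.eq_or_lt_of_le (show i + 1 ≤ b by omega) with h' | h'
    · rw [h']; exact hmax _ (by omega)
    by_contra hcon
    push Not at hcon
    -- quadruple 0 < i < i+1 < b
    have o1 := hpos i (i + 1) b (by omega) h' hb
    have o2 := hpos 0 i b h (by omega) hb
    have o3 := hpos 0 (i + 1) b (by omega) h' hb
    have o4 := hpos 0 i (i + 1) h (by omega) (by omega)
    have e1 := quad_identity u v (P 0) (P i) (P (i + 1)) (P b)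
    have e2 := quad_sum (P 0) (P i) (P (i + 1)) (P b)
    have m0 := hmin (i + 1) (by omega)
    have m1 := hmax (i + 1) (by omega)
    exact quad_contra o1.le o3 o4.le e1 e2 m0 hcon m1
  · intro i hbi hi
    rcases Nat.eq_or_lt_of_le hbi with h | h
    · rw [← h]
      rcases Nat.lt_or_ge (b + 1) m with h' | h'
      · exact hmax _ h'
      · have : b + 1 = 0 + m := by omega
        rw [this, hper]; exact hmin _ hb
    rcases Nat.eq_or_lt_of_le (show i + 1 ≤ m by omega) with h' | h'
    · have : i + 1 = 0 + m := by omega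
      rw [this, hper]; exact hmin _ hi
    rcases Nat.eq_zero_or_pos b with hb0 | hb0
    · -- then the functional is constant
      have hc : ∀ x, x < m → lin u v (P x) = lin u v (P 0) := fun x hx => by
        have := hmax x hx
        rw [hb0] at this
        exact le_antisymm this (hmin x hx)
      rw [hc _ h', hc _ hi]
    by_contra hcon
    push Not at hcon
    -- quadruple 0 < b < i < i+1
    have o1 := hpos b i (i + 1) h (by omega) h'
    have o2 := hpos 0 b (i + 1) hb0 (by omega) h'
    have o3 := hpos 0 i (i + 1) (by omega) (by omega) h'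
    have o4 := hpos 0 b i hb0 h hi
    have e1 := quad_identity u v (P 0) (P b) (P i) (P (i + 1))
    have e2 := quad_sum (P 0) (P b) (P i) (P (i + 1))
    have m0 := hmin i hi
    have m1 := hmax i hi
    refine quad_contra o1.le o4 o3.le ?_ (e2.trans (add_comm _ _)) m0 hcon m1
    exact e1.trans (add_comm _ _)

theorem sum_abs_unimodal {w : ℕ → ℝ} {m b : ℕ} (hb : b ≤ m)
    (h1 : ∀ i, i < b → w i ≤ w (i + 1)) (h2 : ∀ i, b ≤ i → i < m → w (i + 1) ≤ w i) :
    ∑ i ∈ range m, |w (i + 1) - w i| = 2 * w b - w 0 - w m := by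
  have hsplit : ∑ i ∈ range m, |w (i + 1) - w i|
      = ∑ i ∈ range b, |w (i + 1) - w i| + ∑ i ∈ Ico b m, |w (i + 1) - w i| := by
    rw [Finset.range_eq_Ico, Finset.range_eq_Ico,
      ← Finset.sum_Ico_consecutive _ (Nat.zero_le b) hb]
  have hA : ∑ i ∈ range b, |w (i + 1) - w i| = w b - w 0 := by
    rw [← Finset.sum_range_sub w b]
    refine Finset.sum_congr rfl fun i hi => ?_
    exact abs_of_nonneg (sub_nonneg.2 (h1 i (Finset.mem_range.1 hi)))
  have hB : ∑ i ∈ Ico b m, |w (i + 1) - w i| = w b - w m := by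
    have : ∑ i ∈ Ico b m, |w (i + 1) - w i| = - ∑ i ∈ Ico b m, (w (i + 1) - w i) := by
      rw [← Finset.sum_neg_distrib]
      refine Finset.sum_congr rfl fun i hi => ?_
      have hi' := Finset.mem_Ico.1 hi
      exact abs_of_nonpos (sub_nonpos.2 (h2 i hi'.1 hi'.2))
    rw [this, Finset.sum_Ico_sub w hb]
    ring
  rw [hsplit, hA, hB]
  ring

/-- The total variation of a linear functional of norm one around a convex polygon in the unit
disk is at most `4`. -/
theorem variation_le {P : ℕ → ℂ} {m : ℕ} (hm : 0 < m) (hper : ∀ i, P (i + m) = P i)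
    (hpos : ∀ i j l, i < j → j < l → l < m → 0 < orient (P i) (P j) (P l)) (u v : ℝ)
    (hD : ∀ i, |lin u v (P i)| ≤ 1) :
    ∑ i ∈ range m, |lin u v (P (i + 1)) - lin u v (P i)| ≤ 4 := by
  have hne : (range m).Nonempty := ⟨0, Finset.mem_range.2 hm⟩
  obtain ⟨a, ha, hamin⟩ := (range m).exists_min_image (fun i => lin u v (P i)) hne
  set Q : ℕ → ℂ := fun i => P (a + i) with hQ
  have hQper : ∀ i, Q (i + m) = Q i := fun i => by
    simp only [hQ]
    rw [← add_assoc, hper]
  have hQpos := pos_shift hper hpos a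
  have hmod : ∀ i, P i = P (i % m) := by
    intro i
    conv_lhs => rw [← Nat.mod_add_div i m]
    induction i / m with
    | zero => simp
    | succ n ih => rw [Nat.mul_succ, ← add_assoc, hper, ih]
  have hmin' : ∀ i, lin u v (P a) ≤ lin u v (P i) := by
    intro i
    rw [hmod i]
    exact hamin _ (Finset.mem_range.2 (Nat.mod_lt _ hm))
  obtain ⟨b, hb, hbmax⟩ := (range m).exists_max_image (fun i => lin u v (Q i)) hne
  have hb' := Finset.mem_range.1 hb
  have hU := unimodal (P := Q) hQper hQpos u v hb' (fun i _ => by simpa [hQ] using hmin' (a + i))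
    (fun i hi => hbmax i (Finset.mem_range.2 hi))
  have hsum := sum_abs_unimodal (w := fun i => lin u v (Q i)) hb'.le hU.1 hU.2
  have hsh := sum_shift (g := fun i => |lin u v (P (i + 1)) - lin u v (P i)|) (m := m)
    (fun i => by
      rw [show i + m + 1 = (i + 1) + m by ring, hper, hper]) a
  have hsh' : ∑ i ∈ range m, |lin u v (Q (i + 1)) - lin u v (Q i)|
      = ∑ i ∈ range m, |lin u v (P (i + 1)) - lin u v (P i)| := by
    rw [← hsh]
    refine Finset.sum_congr rfl fun i _ => ?_
    simp only [hQ]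
    rw [show a + (i + 1) = a + i + 1 by ring]
  rw [← hsh', hsum]
  have hQm : Q m = Q 0 := by simpa using hQper 0
  rw [hQm]
  have h1 := abs_le.1 (hD (a + b))
  have h2 := abs_le.1 (hD (a + 0))
  simp only [hQ]
  linarith [h1.2, h2.1]

/-- `∫ |cos| = 4` over a period. -/
theorem integral_abs_cos_sub (ψ : ℝ) : ∫ x in (0 : ℝ)..(2 * π), |cos (x - ψ)| = 4 := by
  have hper : Function.Periodic (fun x : ℝ => |cos x|) (2 * π) := fun x => by
    simp only [cos_add_two_pi]
  have h1 : ∫ x in (0 : ℝ)..(2 * π), |cos (x - ψ)| = ∫ x in (0 - ψ)..(2 * π - ψ), |cos x| :=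
    intervalIntegral.integral_comp_sub_right (fun x => |cos x|) ψ
  have h2 : ∫ x in (0 - ψ)..(2 * π - ψ), |cos x| = ∫ x in (-(π / 2))..(-(π / 2) + 2 * π), |cos x| := by
    have := hper.intervalIntegral_add_eq (0 - ψ) (-(π / 2))
    rw [← this]
    congr 1
    ring
  have hint : ∀ a b : ℝ, IntervalIntegrable (fun x : ℝ => |cos x|) MeasureTheory.volume a b :=
    fun a b => (continuous_cos.abs).intervalIntegrable a b
  have h3 : ∫ x in (-(π / 2))..(-(π / 2) + 2 * π), |cos x|
      = (∫ x in (-(π / 2))..(π / 2), |cos x|) + ∫ x in (π / 2)..(-(π / 2) + 2 * π), |cos x| :=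
    (intervalIntegral.integral_add_adjacent_intervals (hint _ _) (hint _ _)).symm
  have hpi := pi_pos
  have h4 : ∫ x in (-(π / 2))..(π / 2), |cos x| = ∫ x in (-(π / 2))..(π / 2), cos x := by
    refine intervalIntegral.integral_congr fun x hx => ?_
    rw [Set.uIcc_of_le (by linarith)] at hx
    exact abs_of_nonneg (cos_nonneg_of_mem_Icc hx)
  have h5 : ∫ x in (π / 2)..(-(π / 2) + 2 * π), |cos x|
      = ∫ x in (π / 2)..(-(π / 2) + 2 * π), -cos x := by
    refine intervalIntegral.integral_congr fun x hx => ?_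
    rw [Set.uIcc_of_le (by linarith)] at hx
    refine abs_of_nonpos ?_
    have := cos_nonneg_of_mem_Icc (x := x - π) ⟨by linarith [hx.1], by linarith [hx.2]⟩
    rw [cos_sub_pi] at this
    linarith
  rw [h1, h2, h3, h4, h5, intervalIntegral.integral_neg, integral_cos, integral_cos]
  have e1 : sin (-(π / 2) + 2 * π) = -1 := by
    rw [sin_add_two_pi, sin_neg, sin_pi_div_two]
  rw [e1, sin_neg, sin_pi_div_two]
  norm_num

theorem integral_abs_lin (z : ℂ) : ∫ x in (0 : ℝ)..(2 * π), |lin (cos x) (sin x) z| = 4 * ‖z‖ := by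
  have h : ∀ x : ℝ, |lin (cos x) (sin x) z| = ‖z‖ * |cos (x - z.arg)| := by
    intro x
    have hz := Complex.norm_mul_cos_arg z
    have hz' := Complex.norm_mul_sin_arg z
    unfold lin
    rw [← hz, ← hz', cos_sub]
    rw [← abs_of_nonneg (norm_nonneg z), ← abs_mul, abs_of_nonneg (norm_nonneg z)]
    congr 1
    ring
  simp_rw [h]
  rw [intervalIntegral.integral_const_mul, integral_abs_cos_sub]
  ring

theorem abs_lin_le (x : ℝ) (z : ℂ) : |lin (cos x) (sin x) z| ≤ ‖z‖ := by
  have hz := Complex.norm_mul_cos_arg z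
  have hz' := Complex.norm_mul_sin_arg z
  have h : lin (cos x) (sin x) z = ‖z‖ * cos (x - z.arg) := by
    unfold lin
    rw [← hz, ← hz', cos_sub]
    ring
  rw [h, abs_mul, abs_of_nonneg (norm_nonneg z)]
  exact mul_le_of_le_one_right (norm_nonneg z) (abs_cos_le_one _)

/-- The perimeter of a convex polygon in the unit disk is at most `2 π`. -/
theorem perim_le {P : ℕ → ℂ} {m : ℕ} (hm : 0 < m) (hper : ∀ i, P (i + m) = P i)
    (hpos : ∀ i j l, i < j → j < l → l < m → 0 < orient (P i) (P j) (P l))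
    (hD : ∀ i, ‖P i‖ ≤ 1) : ∑ i ∈ range m, ‖P (i + 1) - P i‖ ≤ 2 * π := by
  have hpi := pi_pos
  have hsub : ∀ (x : ℝ) (i : ℕ), lin (cos x) (sin x) (P (i + 1) - P i)
      = lin (cos x) (sin x) (P (i + 1)) - lin (cos x) (sin x) (P i) := by
    intro x i
    unfold lin
    simp only [Complex.sub_re, Complex.sub_im]
    ring
  have hcont : ∀ z : ℂ, Continuous fun x : ℝ => |lin (cos x) (sin x) z| := by
    intro z
    unfold lin
    fun_prop
  have h1 : ∫ x in (0 : ℝ)..(2 * π), ∑ i ∈ range m, |lin (cos x) (sin x) (P (i + 1) - P i)|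
      = 4 * ∑ i ∈ range m, ‖P (i + 1) - P i‖ := by
    rw [intervalIntegral.integral_finsetSum fun i _ => (hcont _).intervalIntegrable _ _]
    rw [Finset.mul_sum]
    exact Finset.sum_congr rfl fun i _ => integral_abs_lin _
  have h2 : ∫ x in (0 : ℝ)..(2 * π), ∑ i ∈ range m, |lin (cos x) (sin x) (P (i + 1) - P i)|
      ≤ ∫ x in (0 : ℝ)..(2 * π), (4 : ℝ) := by
    refine intervalIntegral.integral_mono_on (by linarith)
      ((continuous_finsetSum _ fun i _ => hcont _).intervalIntegrable _ _)
      (continuous_const.intervalIntegrable _ _) fun x _ => ?_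
    simp_rw [hsub]
    exact variation_le hm hper hpos _ _ fun i => (abs_lin_le x _).trans (hD i)
  rw [h1] at h2
  simp only [intervalIntegral.integral_const, smul_eq_mul, sub_zero] at h2
  linarith

end Pool.Agent.Heil
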